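import Pool.Agent.P.MP_d74cc6_pr.LinkDefs

/-! Connecting a small box to a prescribed pair of hyperplanes. -/

namespace Pool.Agent.P.MP_d74cc6_pr

variable {d : ℕ}

/-- lattice symmetries -/
def fc_psi (x : V d) (t : Fin d → ℤˣ) (σ : Equiv.Perm (Fin d)) (y : V d) : V d :=
  fun i => x i + t i * y (σ i)

theorem fc_psi_inj (x : V d) (t : Fin d → ℤˣ) (σ : Equiv.Perm (Fin d)) :
    Function.Injective (fc_psi x t σ) := fun y y' h => funext fun j => by
  have := congrFun h (σ.symm j)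
  simp only [fc_psi, Equiv.apply_symm_apply, add_right_inj] at this
  exact (Units.mul_right_inj _).1 this

theorem fc_psi_adj (x : V d) (t : Fin d → ℤˣ) (σ : Equiv.Perm (Fin d)) (a b : V d)
    (h : (lat d).Adj a b) : (lat d).Adj (fc_psi x t σ a) (fc_psi x t σ b) := by
  have key : ∀ (j : Fin d) (i : Fin d), (t i : ℤ) * ev j (σ i) =
      (t (σ.symm j) : ℤ) * ev (σ.symm j) i := by
    intro j i
    by_cases hi : i = σ.symm j
    · subst hi; simp
    · rw [ev_ne hi, ev_ne fun e => hi (by rw [← e]; simp)]; simp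
  obtain ⟨j, rfl | rfl⟩ := lat_adj.1 h
  · refine lat_adj.2 ⟨σ.symm j, ?_⟩
    rcases Int.units_eq_one_or (t (σ.symm j)) with e | e
    · refine Or.inl (funext fun i => ?_)
      simp only [fc_psi, Pi.add_apply, mul_add, key, e, Units.val_one]; ring
    · refine Or.inr (funext fun i => ?_)
      simp only [fc_psi, Pi.add_apply, Pi.sub_apply, mul_add, key, e, Units.val_neg, Units.val_one]
      ring
  · refine lat_adj.2 ⟨σ.symm j, ?_⟩
    rcases Int.units_eq_one_or (t (σ.symm j)) with e | e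
    · refine Or.inr (funext fun i => ?_)
      simp only [fc_psi, Pi.sub_apply, mul_sub, key, e, Units.val_one]; ring
    · refine Or.inl (funext fun i => ?_)
      simp only [fc_psi, Pi.add_apply, Pi.sub_apply, mul_sub, key, e, Units.val_neg, Units.val_one]
      ring

theorem fc_abs_psi (x : V d) (t : Fin d → ℤˣ) (σ : Equiv.Perm (Fin d)) (y : V d) (i : Fin d) :
    |fc_psi x t σ y i - x i| = |y (σ i)| := by
  rcases Int.units_eq_one_or (t i) with e | e <;> simp [fc_psi, e]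

theorem fc_psi_box (x : V d) (t : Fin d → ℤˣ) (σ : Equiv.Perm (Fin d)) {n : ℕ} {y : V d}
    (hy : y ∈ box (0 : V d) n) : fc_psi x t σ y ∈ box x n :=
  mem_box.2 fun i => by
    rw [fc_abs_psi]
    simpa using mem_box.1 hy (σ i)

/-- comparison of connection probabilities along an embedding of the lattice -/
theorem fc_sym (q : unitInterval) {φ : V d → V d} (hφ : Function.Injective φ)
    (hadj : ∀ a b, (lat d).Adj a b → (lat d).Adj (φ a) (φ b)) {R A B R' A' B' : Set (V d)}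
    (hR : R.Finite) (h1 : Set.MapsTo φ R R') (h2 : Set.MapsTo φ A A') (h3 : Set.MapsTo φ B B') :
    Pr (fun _ => q) {ω : Sym2 (V d) → Bool | SCn (op ω) R A B} ≤
      Pr (fun _ => q) {ω : Sym2 (V d) → Bool | SCn (op ω) R' A' B'} := by
  rw [← Pr_comp_inj (fun _ : Sym2 (V d) => q) (Sym2.map.injective hφ) (loc_SCn hR A B)]
  refine Pr_mono ?_
  rintro ω ⟨a, ha, b, hb, n, h⟩
  exact ⟨φ a, h2 ha, φ b, h3 hb, n, Wk.map (O := op ω) hadj (h.mono_set h1)⟩

/-- a walk reaching distance `n` meets the boundary of the box inside the box -/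
theorem fc_exit {O : Sym2 (V d) → Prop} {R : Set (V d)} {k : ℕ} {x y : V d} (h : Wk O R k x y)
    {c : V d} {n : ℕ} (hx : x ∈ box c n) (hy : ∃ i, (n : ℤ) ≤ |y i - c i|) :
    ∃ a, (∃ i, |a i - c i| = n) ∧ Cn O (box c n) x a := by
  induction h with
  | @nil _ x _ =>
    obtain ⟨i, hi⟩ := hy
    exact ⟨x, ⟨i, le_antisymm (mem_box.1 hx i) hi⟩, .refl hx⟩
  | @cons _ x z y _ h2 h3 _ ih =>
    by_cases hb : ∃ i, |x i - c i| = n
    · exact ⟨x, hb, .refl hx⟩
    have hz : z ∈ box c n := mem_box.2 fun i => by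
      have a1 := mem_box.1 hx i
      have a2 : |x i - c i| ≠ n := fun e => hb ⟨i, e⟩
      have a3 := abs_sub_le_one_of_adj h2 i
      have a4 := abs_sub_le (z i) (x i) (c i)
      omega
    obtain ⟨a, ha, h⟩ := ih hz hy
    exact ⟨a, ha, (Cn.single hx hz h2 h3).trans h⟩

/-- the centre of a box is joined to its boundary -/
def fc_E (x : V d) (r : ℕ) : Set (Sym2 (V d) → Bool) :=
  {ω | SCn (op ω) (box x r) {x} {y | ∃ i, |y i - x i| = r}}

theorem fc_loc_E (x : V d) (r : ℕ) : Loc (fc_E x r) := loc_SCn (box x r).finite_toSet _ _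

theorem fc_E_anti (x : V d) {r r' : ℕ} (h : r ≤ r') : fc_E x r' ⊆ fc_E x r := by
  rintro ω ⟨a, rfl, b, ⟨i, hi⟩, n, hw⟩
  obtain ⟨b', hb', h'⟩ := fc_exit hw (self_mem_box a r) ⟨i, by omega⟩
  exact ⟨a, rfl, b', hb', h'⟩

theorem fc_E_le (q : unitInterval) (x x' : V d) (r : ℕ) :
    Pr (fun _ => q) (fc_E x r) ≤ Pr (fun _ => q) (fc_E x' r) := by
  have e : ∀ (y : V d) (i : Fin d), fc_psi (x' - x) 1 1 y i - x' i = y i - x i := fun y i => by
    simp [fc_psi]; ring
  refine fc_sym q (fc_psi_inj (x' - x) 1 1) (fc_psi_adj _ _ _) (box x r).finite_toSet ?_ ?_ ?_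
  · intro y hy
    exact mem_box.2 fun i => by rw [e]; exact mem_box.1 hy i
  · rintro y rfl
    exact funext fun i => by simp [fc_psi]
  · rintro y ⟨i, hi⟩
    exact ⟨i, by rw [e]; exact hi⟩

theorem fc_E_eq (q : unitInterval) (x : V d) (r : ℕ) :
    Pr (fun _ => q) (fc_E x r) = Pr (fun _ => q) (fc_E (0 : V d) r) :=
  le_antisymm (fc_E_le q _ _ _) (fc_E_le q _ _ _)

/-- a large box is joined to far boundaries with high probability -/
theorem fc_mix {q : unitInterval} {θ : ℝ} (hθ : 0 < θ) (hR : Perc d q θ) (k : Fin d) {δ : ℝ}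
    (hδ : 0 < δ) : ∃ m : ℕ, ∀ n : ℕ, Pr (fun _ => q) {ω : Sym2 (V d) → Bool |
      ¬ SCn (op ω) (box (0 : V d) n) (box (0 : V d) m) {y | ∃ i, |y i| = n}} ≤ δ := by
  set a : ℕ → ℝ := fun r => Pr (fun _ => q) (fc_E (0 : V d) r) with ha
  have haθ : ∀ r, θ ≤ a r := fun r => by simpa [ha, fc_E] using hR r
  have hθ1 : θ ≤ 1 := (haθ 0).trans (Pr_le_one _ _)
  obtain ⟨j, hj⟩ := exists_pow_lt_of_lt_one (half_pos hδ) (show 1 - θ < 1 by linarith)
  have hε : 0 < δ / 2 / (j + 1) := by positivity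
  have hbd : BddBelow (Set.range a) := ⟨θ, by rintro _ ⟨r, rfl⟩; exact haθ r⟩
  obtain ⟨r, hr⟩ := exists_lt_of_ciInf_lt (lt_add_of_pos_right (⨅ r, a r) hε)
  have hr' : ∀ r', a r - a r' ≤ δ / 2 / (j + 1) := fun r' => by
    have := ciInf_le hbd r'
    linarith
  refine ⟨j * (2 * r + 1) + r, fun n => ?_⟩
  set m := j * (2 * r + 1) + r with hm
  rcases le_total n m with hnm | hnm
  · refine le_trans (le_of_eq ?_) hδ.le
    rw [← Pr_empty (fun _ : Sym2 (V d) => q)]
    congr 1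
    refine Set.eq_empty_of_forall_notMem fun ω h => h ?_
    have hb : (n : ℤ) • ev k ∈ box (0 : V d) n := mem_box.2 fun i => by
      simp only [Pi.smul_apply, ev_apply, smul_eq_mul, Pi.zero_apply, sub_zero]
      split_ifs <;> simp
    exact ⟨_, box_mono _ hnm hb, _, ⟨k, by simp⟩, .refl hb⟩
  set x : ℕ → V d := fun i => ((i * (2 * r + 1) : ℕ) : ℤ) • ev k with hx
  have hxm : ∀ i ∈ Finset.range j, x i ∈ box (0 : V d) m := fun i hi => mem_box.2 fun t => by
    have h1 : i * (2 * r + 1) ≤ m :=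
      (Nat.mul_le_mul_right _ (Finset.mem_range.1 hi).le).trans (Nat.le_add_right _ _)
    simp only [hx, Pi.smul_apply, ev_apply, smul_eq_mul, Pi.zero_apply, sub_zero]
    split_ifs
    · rw [mul_one, abs_of_nonneg (Int.natCast_nonneg _)]; exact_mod_cast h1
    · simp
  have hsub : {ω : Sym2 (V d) → Bool |
      ¬ SCn (op ω) (box (0 : V d) n) (box (0 : V d) m) {y | ∃ i, |y i| = n}} ⊆
      {ω | ∀ i ∈ Finset.range j, ω ∈ (fc_E (x i) r)ᶜ} ∪
        {ω | ∃ i ∈ Finset.range j, ω ∈ fc_E (x i) r \ fc_E (x i) (n + m)} := by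
    intro ω hω
    by_cases h : ∀ i ∈ Finset.range j, ω ∈ (fc_E (x i) r)ᶜ
    · exact Or.inl h
    push Not at h
    obtain ⟨i, hi, h⟩ := h
    refine Or.inr ⟨i, hi, by simpa using h, ?_⟩
    rintro ⟨u, rfl, b, ⟨t, ht⟩, l, hw⟩
    obtain ⟨b', hb', h'⟩ := fc_exit hw (box_mono _ hnm (hxm i hi)) ⟨t, by
      have a1 := mem_box.1 (hxm i hi) t
      have a2 := abs_sub_le (b t) 0 (x i t)
      rw [abs_sub_comm 0] at a2
      simp only [Pi.zero_apply] at a1 ⊢
      push_cast at ht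
      omega⟩
    exact hω ⟨_, hxm i hi, b', by simpa using hb', h'⟩
  refine (Pr_mono hsub).trans ((Pr_union_le _ _ _).trans ?_)
  have h1 : Pr (fun _ => q) {ω | ∀ i ∈ Finset.range j, ω ∈ (fc_E (x i) r)ᶜ} ≤ (1 - θ) ^ j := by
    rw [Pr_forall_indep _ (Finset.range j) (S := fun i => EIn (box (x i) r))
      (fun i _ => (fc_loc_E _ _).compl) (fun i _ => (dep_SCn _ _ _).compl) ?_]
    · refine (Finset.prod_le_prod (fun i _ => Pr_nonneg _ _) (g := fun _ => 1 - θ)
        fun i _ => ?_).trans (by simp)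
      rw [Pr_compl _ (fc_loc_E _ _), fc_E_eq]
      linarith [haθ r]
    · intro i _ i' _ hii
      refine EIn_disjoint (box_disjoint k ?_)
      simp only [hx, Pi.smul_apply, ev_self, smul_eq_mul, mul_one]
      push_cast
      rw [← sub_mul, abs_mul, abs_of_nonneg (show (0 : ℤ) ≤ 2 * r + 1 by positivity)]
      have : (1 : ℤ) ≤ |(i : ℤ) - i'| := Int.one_le_abs (by omega)
      nlinarith
  have h2 : Pr (fun _ => q) {ω | ∃ i ∈ Finset.range j, ω ∈ fc_E (x i) r \ fc_E (x i) (n + m)} ≤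
      δ / 2 := by
    refine (Pr_exists_le _ _ _).trans ?_
    refine (Finset.sum_le_sum (g := fun _ => δ / 2 / (j + 1)) fun i _ => ?_).trans ?_
    · rw [Pr, MeasureTheory.measureReal_sdiff (fc_E_anti _ (by omega))
        (fc_loc_E _ _).measurableSet]
      have e1 := fc_E_eq q (x i) r
      have e2 := fc_E_eq q (x i) (n + m)
      rw [Pr] at e1 e2
      rw [e1, e2]
      exact hr' _
    · rw [Finset.sum_const, Finset.card_range, nsmul_eq_mul, mul_div_assoc',
        div_le_iff₀ (by positivity)]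
      nlinarith
  linarith

/-- quarter faces of a box -/
def fc_F (n : ℕ) (p : Fin d × (Fin d → ℤˣ)) : Set (V d) :=
  {y | y ∈ box (0 : V d) n ∧ y p.1 = p.2 p.1 * n ∧ ∀ i, 0 ≤ (p.2 i : ℤ) * y i}

theorem fc_cover {n : ℕ} {y : V d} (hy : y ∈ box (0 : V d) n) {k : Fin d} (hk : |y k| = n) :
    ∃ p, y ∈ fc_F n p := by
  refine ⟨(k, fun i => if 0 ≤ y i then 1 else -1), hy, ?_, fun i => ?_⟩
  · dsimp only
    split_ifs with h
    · rw [abs_of_nonneg h] at hk; simp [hk]
    · rw [abs_of_neg (not_le.1 h)] at hk; simp [← hk]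
  · dsimp only
    split_ifs with h
    · simpa using h
    · simpa using (not_le.1 h).le

theorem face_conn {q : unitInterval} {θ : ℝ} (hθ : 0 < θ) (hR : Perc d q θ) {δ : ℝ} (hδ : 0 < δ) :
    ∃ m : ℕ, ∀ (w h : ℕ) (c x : V d) (k : Fin d), h ≤ w → x ∈ box c w →
      Pr (fun _ => q) {ω : Sym2 (V d) → Bool | ¬ SCn (op ω) (box c (2 * w)) (box x m)
        {y | y ∈ box c w ∧ |y k - c k| = h}} ≤ δ := by
  rcases isEmpty_or_nonempty (Fin d) with hd | ⟨⟨k₀⟩⟩
  · exact ⟨0, fun _ _ _ _ k => hd.elim k⟩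
  set N := Fintype.card (Fin d × (Fin d → ℤˣ)) with hN
  have hN0 : N ≠ 0 := by
    have : Nonempty (Fin d × (Fin d → ℤˣ)) := ⟨(k₀, 1)⟩
    exact Fintype.card_ne_zero
  obtain ⟨m, hm⟩ := fc_mix hθ hR k₀ (pow_pos hδ N)
  refine ⟨m, fun w h c x k hw hx => ?_⟩
  obtain ⟨n, u, hn, hu⟩ : ∃ (n : ℕ) (u : ℤˣ), n ≤ w ∧ |x k + u * n - c k| = h := by
    have h1 := abs_le.1 (mem_box.1 hx k)
    rcases le_total 0 (x k - c k) with h2 | h2
    · rcases le_total (x k - c k) h with h3 | h3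
      · refine ⟨(h - (x k - c k)).toNat, 1, by omega, ?_⟩
        rw [abs_eq (Int.natCast_nonneg _)]; simp only [Units.val_one]; omega
      · refine ⟨(x k - c k - h).toNat, -1, by omega, ?_⟩
        rw [abs_eq (Int.natCast_nonneg _)]; simp only [Units.val_neg, Units.val_one]; omega
    · rcases le_total (c k - x k) h with h3 | h3
      · refine ⟨(h - (c k - x k)).toNat, -1, by omega, ?_⟩
        rw [abs_eq (Int.natCast_nonneg _)]; simp only [Units.val_neg, Units.val_one]; omega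
      · refine ⟨(c k - x k - h).toNat, 1, by omega, ?_⟩
        rw [abs_eq (Int.natCast_nonneg _)]; simp only [Units.val_one]; omega
  set s : Fin d → ℤˣ := fun i => if i = k then u else if x i ≤ c i then 1 else -1 with hs
  set P := Pr (fun _ => q) {ω : Sym2 (V d) → Bool | ¬ SCn (op ω) (box c (2 * w)) (box x m)
        {y | y ∈ box c w ∧ |y k - c k| = h}} with hP
  have key : ∀ p : Fin d × (Fin d → ℤˣ), P ≤ Pr (fun _ => q) {ω : Sym2 (V d) → Bool |
      SCn (op ω) (box (0 : V d) n) (box (0 : V d) m) (fc_F n p)}ᶜ := by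
    rintro ⟨l, t⟩
    have e : P = Pr (fun _ => q) {ω : Sym2 (V d) → Bool | SCn (op ω) (box c (2 * w)) (box x m)
        {y | y ∈ box c w ∧ |y k - c k| = h}}ᶜ := rfl
    rw [e, Pr_compl _ (loc_SCn (box _ _).finite_toSet _ _),
      Pr_compl _ (loc_SCn (box _ _).finite_toSet _ _)]
    refine sub_le_sub_left (fc_sym q
      (fc_psi_inj x (fun i => s i * t (Equiv.swap k l i)) (Equiv.swap k l)) (fc_psi_adj _ _ _)
      (box _ _).finite_toSet ?_ ?_ ?_) _
    · intro y hy
      refine box_subset (fun i => ?_) (fc_psi_box _ _ _ hy)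
      have := mem_box.1 hx i
      push_cast
      omega
    · exact fun y hy => fc_psi_box _ _ _ hy
    · rintro y ⟨hy1, hy2, hy3⟩
      dsimp only at hy2 hy3
      have hk : |fc_psi x (fun i => s i * t (Equiv.swap k l i)) (Equiv.swap k l) y k - c k| = h := by
        rw [← hu]
        congr 2
        simp only [fc_psi, Equiv.swap_apply_left, hs, if_true, Units.val_mul, hy2]
        rw [mul_assoc, ← mul_assoc (t l : ℤ), ← Units.val_mul, Int.units_mul_self]
        simp
      refine ⟨mem_box.2 fun i => ?_, hk⟩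
      by_cases hi : i = k
      · subst hi; rw [hk]; exact_mod_cast hw
      have a1 := hy3 (Equiv.swap k l i)
      have a2 : (t (Equiv.swap k l i) : ℤ) * y (Equiv.swap k l i) ≤ n := by
        have := abs_le.1 (mem_box.1 hy1 (Equiv.swap k l i))
        rcases Int.units_eq_one_or (t (Equiv.swap k l i)) with e | e <;>
          simp only [e, Units.val_neg, Units.val_one, Pi.zero_apply] at this ⊢ <;> omega
      have a3 := abs_le.1 (mem_box.1 hx i)
      simp only [fc_psi, hs, if_neg hi, Units.val_mul, mul_assoc]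
      generalize (t (Equiv.swap k l i) : ℤ) * y (Equiv.swap k l i) = z at a1 a2
      rw [abs_le]
      split_ifs with h' <;> simp only [Units.val_neg, Units.val_one] <;> omega
  have h1 : P ^ N ≤ δ ^ N := by
    refine le_trans ?_ (hm n)
    refine le_trans ?_ ((harris_lower_prod _ Finset.univ
      (A := fun p => {ω : Sym2 (V d) → Bool |
        SCn (op ω) (box (0 : V d) n) (box (0 : V d) m) (fc_F n p)}ᶜ)
      (fun p _ => (loc_SCn (box _ _).finite_toSet _ _).compl)
      (fun p _ => (isUpperSet_SCn _ _ _).compl)).trans (Pr_mono ?_))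
    · rw [hN, ← Finset.card_univ, ← Finset.prod_const]
      exact Finset.prod_le_prod (fun _ _ => Pr_nonneg _ _) fun p _ => key p
    · rintro ω hω ⟨a, ha, b, ⟨i, hi⟩, hc⟩
      obtain ⟨p, hp⟩ := fc_cover hc.mem_right hi
      exact hω p (Finset.mem_univ _) ⟨a, ha, b, hp, hc⟩
  exact le_of_pow_le_pow_left₀ hN0 hδ.le h1

end Pool.Agent.P.MP_d74cc6_pr
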