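import Pool.Agent.P.MP_d74cc6_pr.Lat

/-! Finite volume adjacency operators, Green functions, transfer rank. -/

open Matrix

namespace Pool.Agent.P.MP_d74cc6_pr

variable {d : ℕ}

open Classical in
/-- adjacency matrix of the open graph inside `Λ` -/
noncomputable def AM (Λ : Finset (V d)) (O : Sym2 (V d) → Prop) : Matrix Λ Λ ℝ :=
  fun x y => if (OG O).Adj x y then 1 else 0

/-- eigenvectors vanishing on `R` -/
noncomputable def eigSp (Λ R : Finset (V d)) (O : Sym2 (V d) → Prop) (lam : ℝ) :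
    Submodule ℝ (Λ → ℝ) where
  carrier := {g | AM Λ O *ᵥ g = lam • g ∧ ∀ x : Λ, x.1 ∈ R → g x = 0}
  add_mem' := fun {a b} ha hb =>
    ⟨by rw [mulVec_add, ha.1, hb.1, smul_add], fun x hx => by simp [ha.2 x hx, hb.2 x hx]⟩
  zero_mem' := ⟨by simp, fun _ _ => rfl⟩
  smul_mem' := fun c a ha =>
    ⟨by rw [mulVec_smul, ha.1, smul_comm], fun x hx => by simp [ha.2 x hx]⟩

/-- the Green function at the real energy `x₀` -/
noncomputable def Gm (Λ : Finset (V d)) (O : Sym2 (V d) → Prop) (x₀ : ℝ) : Matrix Λ Λ ℝ :=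
  (x₀ • (1 : Matrix Λ Λ ℝ) - AM Λ O)⁻¹

/-- the column of the Green function at `v`, restricted to `I` -/
noncomputable def gam (Λ I : Finset (V d)) (O : Sym2 (V d) → Prop) (x₀ : ℝ) (v : V d) : Λ → ℝ :=
  fun x => if x.1 ∈ I then (if h : v ∈ Λ then Gm Λ O x₀ x ⟨v, h⟩ else 0) else 0

/-- the span of the restricted columns at the points of `R` -/
noncomputable def Gam (Λ I R : Finset (V d)) (O : Sym2 (V d) → Prop) (x₀ : ℝ) :
    Submodule ℝ (Λ → ℝ) :=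
  Submodule.span ℝ (gam Λ I O x₀ '' (R : Set (V d)))

/-- the rank of the block `I × R` of the Green function -/
noncomputable def rk (Λ I R : Finset (V d)) (O : Sym2 (V d) → Prop) (x₀ : ℝ) : ℕ :=
  Module.finrank ℝ (Gam Λ I R O x₀)

/-- the column at `v` lies in the span of the columns at `R` -/
def dead (Λ I R : Finset (V d)) (O : Sym2 (V d) → Prop) (x₀ : ℝ) (v : V d) : Prop :=
  gam Λ I O x₀ v ∈ Gam Λ I R O x₀

open Classical in
/-- the operator `x₀ - A` on functions on the lattice -/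
noncomputable def Hop (Λ : Finset (V d)) (O : Sym2 (V d) → Prop) (x₀ : ℝ) (g : V d → ℝ)
    (x : V d) : ℝ :=
  x₀ * g x - ∑ y ∈ Λ, if (OG O).Adj x y then g y else 0

/-- a solution with sources in `W`, vanishing on `I`, equal to the indicator of `q` on `Q` -/
def GP (Λ I W Q : Finset (V d)) (O : Sym2 (V d) → Prop) (x₀ : ℝ) (q : V d) : Prop :=
  ∃ g : V d → ℝ, (∀ x ∈ Λ, x ∉ W → Hop Λ O x₀ g x = 0) ∧ (∀ x ∈ I, g x = 0) ∧ g q = 1 ∧
    ∀ q' ∈ Q, q' ≠ q → g q' = 0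

/-- a solution with sources in `I`, vanishing on `W`, not vanishing at `q` -/
def FP (Λ I W : Finset (V d)) (O : Sym2 (V d) → Prop) (x₀ : ℝ) (q : V d) : Prop :=
  ∃ f : V d → ℝ, (∀ x ∈ Λ, x ∉ I → Hop Λ O x₀ f x = 0) ∧ (∀ x ∈ W, f x = 0) ∧ f q ≠ 0

/-- the points of the segment hanging at `v` -/
def zv (l : Fin d) (v : V d) (i : ℕ) : V d := v - (i : ℤ) • ev l

/-- the points `zv l v i`, `1 ≤ i ≤ M`, only have the open edges of the segment
`zv l v 0, …, zv l v M`, whose edge number `t` is removed -/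
def Zone (O : Sym2 (V d) → Prop) (l : Fin d) (M : ℕ) (v : V d) (t : ℕ) : Prop :=
  ∀ i, 1 ≤ i → i ≤ M → ∀ x, (lat d).Adj (zv l v i) x →
    (O s(zv l v i, x) ↔ (x = zv l v (i - 1) ∧ i - 1 ≠ t) ∨ (x = zv l v (i + 1) ∧ i < M ∧ i ≠ t))

/-- the two edge sets agree inside `Λ` -/
def Agree (Λ : Finset (V d)) (O O' : Sym2 (V d) → Prop) : Prop :=
  ∀ a ∈ Λ, ∀ b ∈ Λ, (O s(a, b) ↔ O' s(a, b))

theorem Agree.AM_eq {Λ : Finset (V d)} {O O' : Sym2 (V d) → Prop} (h : Agree Λ O O') :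
    AM Λ O = AM Λ O' := by
  ext x y
  have : (OG O).Adj x y ↔ (OG O').Adj x y := and_congr_right fun _ => h _ x.2 _ y.2
  unfold AM
  rw [propext this]

theorem Agree.Hop_eq {Λ : Finset (V d)} {O O' : Sym2 (V d) → Prop} (h : Agree Λ O O') (x₀ : ℝ)
    (g : V d → ℝ) {x : V d} (hx : x ∈ Λ) : Hop Λ O x₀ g x = Hop Λ O' x₀ g x := by
  unfold Hop
  congr 1
  refine Finset.sum_congr rfl fun y hy => ?_
  have : (OG O).Adj x y ↔ (OG O').Adj x y := and_congr_right fun _ => h _ hx _ hy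
  rw [propext this]

theorem Agree.eigSp_eq {Λ : Finset (V d)} {O O' : Sym2 (V d) → Prop} (h : Agree Λ O O')
    (R : Finset (V d)) (lam : ℝ) : eigSp Λ R O lam = eigSp Λ R O' lam := by
  ext g
  change (_ ∧ _) ↔ (_ ∧ _)
  rw [h.AM_eq]

theorem Agree.gam_eq {Λ : Finset (V d)} {O O' : Sym2 (V d) → Prop} (h : Agree Λ O O')
    (I : Finset (V d)) (x₀ : ℝ) : gam Λ I O x₀ = gam Λ I O' x₀ := by
  ext v x
  simp only [gam, Gm, h.AM_eq]

theorem Agree.rk_eq {Λ : Finset (V d)} {O O' : Sym2 (V d) → Prop} (h : Agree Λ O O')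
    (I R : Finset (V d)) (x₀ : ℝ) : rk Λ I R O x₀ = rk Λ I R O' x₀ := by
  unfold rk Gam
  rw [h.gam_eq]

theorem Agree.GP {Λ : Finset (V d)} {O O' : Sym2 (V d) → Prop} (h : Agree Λ O O')
    {I W Q : Finset (V d)} {x₀ : ℝ} {q : V d} (h1 : GP Λ I W Q O x₀ q) : GP Λ I W Q O' x₀ q :=
  let ⟨g, a, b⟩ := h1; ⟨g, fun x hx hW => h.Hop_eq x₀ g hx ▸ a x hx hW, b⟩

theorem Agree.FP {Λ : Finset (V d)} {O O' : Sym2 (V d) → Prop} (h : Agree Λ O O')
    {I W : Finset (V d)} {x₀ : ℝ} {q : V d} (h1 : FP Λ I W O x₀ q) : FP Λ I W O' x₀ q :=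
  let ⟨g, a, b⟩ := h1; ⟨g, fun x hx hW => h.Hop_eq x₀ g hx ▸ a x hx hW, b⟩

theorem agree_op {Λ : Finset (V d)} {ω ω' : Sym2 (V d) → Bool}
    (h : ∀ e ∈ EIn (Λ : Set (V d)), ω e = ω' e) : Agree Λ (op ω) (op ω') :=
  fun a ha b hb => by simp only [op, h s(a, b) (mk_mem_EIn.2 ⟨ha, hb⟩)]

theorem locF_rk (Λ I R : Finset (V d)) (x₀ : ℝ) :
    LocF fun ω : Sym2 (V d) → Bool => rk Λ I R (op ω) x₀ :=
  ⟨_, EIn_finite Λ.finite_toSet, fun _ _ h => (agree_op h).rk_eq I R x₀⟩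

theorem locF_eigSp (Λ R : Finset (V d)) (lam : ℝ) :
    LocF fun ω : Sym2 (V d) → Bool => eigSp Λ R (op ω) lam :=
  ⟨_, EIn_finite Λ.finite_toSet, fun _ _ h => (agree_op h).eigSp_eq R lam⟩

theorem AM_symm (Λ : Finset (V d)) (O : Sym2 (V d) → Prop) : (AM Λ O).IsSymm := by
  ext x y
  simp only [transpose_apply, AM]
  rw [propext ((OG O).adj_comm y x)]

theorem AM_nonneg (Λ : Finset (V d)) (O : Sym2 (V d) → Prop) (x y : Λ) : 0 ≤ AM Λ O x y := by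
  unfold AM; split_ifs <;> simp

theorem AM_diag (Λ : Finset (V d)) (O : Sym2 (V d) → Prop) (x : Λ) : AM Λ O x x = 0 := by
  simp [AM]

theorem AM_ne_zero {Λ : Finset (V d)} {O : Sym2 (V d) → Prop} {x y : Λ} (h : AM Λ O x y ≠ 0) :
    (lat d).Adj x y := by
  unfold AM at h
  split_ifs at h with h1
  · exact h1.1
  · exact absurd rfl h

theorem sum_AM_le (Λ : Finset (V d)) (O : Sym2 (V d) → Prop) (x : Λ) :
    ∑ y, AM Λ O x y ≤ 2 * d := by
  classical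
  simp only [AM, Finset.sum_ite, Finset.sum_const_zero, add_zero, Finset.sum_const, nsmul_eq_mul,
    mul_one]
  have : (Finset.univ.filter fun y : Λ => (OG O).Adj x y).card ≤ (nbr x.1).card :=
    Finset.card_le_card_of_injOn (fun y => y.1)
      (fun y hy => mem_nbr.2 (Finset.mem_filter.1 hy).2.1) fun a _ b _ h => Subtype.ext h
  exact_mod_cast this.trans (card_nbr_le _)

theorem isUnit_det_H (Λ : Finset (V d)) (O : Sym2 (V d) → Prop) {x₀ : ℝ} (hx : 2 * d < x₀) :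
    IsUnit (x₀ • (1 : Matrix Λ Λ ℝ) - AM Λ O).det := by
  refine Ne.isUnit (det_ne_zero_of_sum_row_lt_diag fun x => ?_)
  have h0 : (0 : ℝ) ≤ 2 * d := by positivity
  have h1 : ‖(x₀ • (1 : Matrix Λ Λ ℝ) - AM Λ O) x x‖ = x₀ := by
    simp [AM_diag, abs_of_nonneg (h0.trans hx.le)]
  rw [h1]
  refine lt_of_le_of_lt ?_ ((sum_AM_le Λ O x).trans_lt hx)
  refine le_trans (le_of_eq (Finset.sum_congr rfl fun y hy => ?_))
    (Finset.sum_le_sum_of_subset_of_nonneg (Finset.erase_subset x _) fun y _ _ => AM_nonneg Λ O x y)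
  simp [Matrix.one_apply_ne (Finset.ne_of_mem_erase hy).symm, abs_of_nonneg (AM_nonneg Λ O x y)]

theorem H_mul_Gm (Λ : Finset (V d)) (O : Sym2 (V d) → Prop) {x₀ : ℝ} (hx : 2 * d < x₀) :
    (x₀ • (1 : Matrix Λ Λ ℝ) - AM Λ O) * Gm Λ O x₀ = 1 := mul_nonsing_inv _ (isUnit_det_H Λ O hx)

theorem Gm_mul_H (Λ : Finset (V d)) (O : Sym2 (V d) → Prop) {x₀ : ℝ} (hx : 2 * d < x₀) :
    Gm Λ O x₀ * (x₀ • (1 : Matrix Λ Λ ℝ) - AM Λ O) = 1 := nonsing_inv_mul _ (isUnit_det_H Λ O hx)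

theorem dead_of_mem {Λ I R : Finset (V d)} {O : Sym2 (V d) → Prop} {x₀ : ℝ} {w : V d}
    (hw : w ∈ R) : dead Λ I R O x₀ w := Submodule.subset_span ⟨w, hw, rfl⟩

end Pool.Agent.P.MP_d74cc6_pr
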