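import Pool.Agent.P.MP_d74cc6_pr.LinkDefs
import Pool.Agent.P.MP_d74cc6_pr.Op

/-! Transfer between the two encodings of bond configurations; the fully open lattice. -/

open MeasureTheory ProbabilityTheory

namespace Pool.Agent.P.MP_d74cc6_pr

variable {d : ℕ}

/-- the graph of a configuration indexed by a base point and a direction -/
def fi_Gr (ω : V d × Fin d → Bool) : SimpleGraph (V d) :=
  SimpleGraph.fromRel fun x y => ∃ i : Fin d, y = x + Pi.single i 1 ∧ ω (x, i) = true

/-- the edge with given base point and direction -/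
def fi_phi (a : V d × Fin d) : Sym2 (V d) := s(a.1, a.1 + ev a.2)

theorem fi_phi_inj : Function.Injective (fi_phi (d := d)) := by
  rintro ⟨x, i⟩ ⟨y, j⟩ h
  simp only [fi_phi, Sym2.eq_iff] at h
  rcases h with ⟨h1, h2⟩ | ⟨h1, h2⟩
  · subst h1
    have h3 : ev i = ev j := add_left_cancel h2
    by_cases hij : i = j
    · rw [hij]
    · have := congrFun h3 i
      rw [ev_self, ev_ne hij] at this
      exact absurd this one_ne_zero
  · have h3 := congrFun h1 i
    have h4 := congrFun h2 i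
    simp only [Pi.add_apply, ev_self, ev_apply] at h3 h4
    split_ifs at h3 <;> omega

theorem fi_Gr_le (ω : V d × Fin d → Bool) {x y : V d} (h : (fi_Gr ω).Adj x y) :
    (lat d).Adj x y := by
  simp only [fi_Gr, lat, SimpleGraph.fromRel_adj] at h ⊢
  exact ⟨h.1, h.2.imp (fun ⟨i, h, _⟩ => ⟨i, h⟩) fun ⟨i, h, _⟩ => ⟨i, h⟩⟩

theorem fi_Gr_comp (ω : Sym2 (V d) → Bool) : fi_Gr (fun a => ω (fi_phi a)) = OG (op ω) := by
  ext x y
  constructor
  · intro h
    refine ⟨fi_Gr_le _ h, ?_⟩
    simp only [fi_Gr, SimpleGraph.fromRel_adj] at h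
    obtain ⟨-, ⟨i, rfl, h⟩ | ⟨i, rfl, h⟩⟩ := h
    · exact h
    · rw [Sym2.eq_swap]; exact h
  · rintro ⟨h1, h2⟩
    simp only [fi_Gr, SimpleGraph.fromRel_adj]
    refine ⟨h1.ne, ?_⟩
    simp only [lat, SimpleGraph.fromRel_adj] at h1
    obtain ⟨-, ⟨i, rfl⟩ | ⟨i, rfl⟩⟩ := h1
    · exact Or.inl ⟨i, rfl, h2⟩
    · rw [Sym2.eq_swap] at h2
      exact Or.inr ⟨i, rfl, h2⟩

theorem fi_Gr_congr {R : Set (V d)} {ω ω' : V d × Fin d → Bool}
    (h : ∀ a ∈ R ×ˢ (Set.univ : Set (Fin d)), ω a = ω' a) {x y : V d} (hx : x ∈ R) (hy : y ∈ R)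
    (h1 : (fi_Gr ω).Adj x y) : (fi_Gr ω').Adj x y := by
  simp only [fi_Gr, SimpleGraph.fromRel_adj] at h1 ⊢
  refine ⟨h1.1, h1.2.imp ?_ ?_⟩
  · rintro ⟨i, h2, h3⟩
    exact ⟨i, h2, by rw [← h (x, i) ⟨hx, trivial⟩]; exact h3⟩
  · rintro ⟨i, h2, h3⟩
    exact ⟨i, h2, by rw [← h (y, i) ⟨hy, trivial⟩]; exact h3⟩

theorem fi_support_le {H : SimpleGraph (V d)} (hH : ∀ x y, H.Adj x y → (lat d).Adj x y)
    {u v : V d} (w : H.Walk u v) : ∀ x ∈ w.support, ∀ i, |x i - u i| ≤ w.length := by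
  induction w with
  | nil => simp
  | @cons a b c h w ih =>
    intro x hx i
    rw [SimpleGraph.Walk.support_cons, List.mem_cons] at hx
    rw [SimpleGraph.Walk.length_cons]
    rcases hx with rfl | hx
    · simp only [sub_self, abs_zero]; positivity
    · have h1 := ih x hx i
      have h2 := abs_sub_le_one_of_adj (hH _ _ h) i
      have h3 := abs_sub_le (x i) (b i) (a i)
      push_cast
      omega

theorem fi_edges_mem {H H' : SimpleGraph (V d)} (hH : ∀ x y, H.Adj x y → (lat d).Adj x y) {k : ℕ}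
    (h : ∀ x ∈ box (0 : V d) k, ∀ y ∈ box (0 : V d) k, H.Adj x y → H'.Adj x y)
    (w : H.Walk 0 0) (hw : w.length = k) : ∀ e ∈ w.edges, e ∈ H'.edgeSet := by
  intro e he
  induction e using Sym2.ind with
  | _ x y =>
    refine h x (mem_box.2 fun i => ?_) y (mem_box.2 fun i => ?_) (w.adj_of_mem_edges he)
    · exact hw ▸ fi_support_le hH w x (w.fst_mem_support_of_mem_edges he) i
    · exact hw ▸ fi_support_le hH w y (w.snd_mem_support_of_mem_edges he) i

theorem fi_locF_walks (k : ℕ) : LocF fun ω : V d × Fin d → Bool =>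
    (Nat.card {w : (fi_Gr ω).Walk 0 0 // w.length = k} : ℝ) := by
  refine ⟨(box (0 : V d) k : Set (V d)) ×ˢ Set.univ,
    (box (0 : V d) k).finite_toSet.prod Set.finite_univ, fun ω ω' hω => ?_⟩
  have a1 := fi_edges_mem (H := fi_Gr ω) (H' := fi_Gr ω') (fun _ _ => fi_Gr_le ω) (k := k)
    fun x hx y hy => fi_Gr_congr hω hx hy
  have a2 := fi_edges_mem (H := fi_Gr ω') (H' := fi_Gr ω) (fun _ _ => fi_Gr_le ω') (k := k)
    fun x hx y hy => fi_Gr_congr (fun a ha => (hω a ha).symm) hx hy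
  simp only [Nat.cast_inj]
  refine Nat.card_congr
    ⟨fun w => ⟨w.1.transfer _ (a1 w.1 w.2), by rw [SimpleGraph.Walk.length_transfer, w.2]⟩,
      fun w => ⟨w.1.transfer _ (a2 w.1 w.2), by rw [SimpleGraph.Walk.length_transfer, w.2]⟩,
      fun w => Subtype.ext ?_, fun w => Subtype.ext ?_⟩
  · simp only [SimpleGraph.Walk.transfer_transfer, SimpleGraph.Walk.transfer_self]
  · simp only [SimpleGraph.Walk.transfer_transfer, SimpleGraph.Walk.transfer_self]

theorem fi_moment (p : unitInterval) (k : ℕ) :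
    ∫ ω, (Nat.card {w : (fi_Gr ω).Walk (0 : V d) 0 // w.length = k} : ℝ) ∂(PM fun _ => p) =
      ∫ ω, (Nat.card {w : (OG (op ω)).Walk (0 : V d) 0 // w.length = k} : ℝ) ∂PM fun _ => p := by
  rw [← integral_comp_inj (fun _ => p) fi_phi_inj (fi_locF_walks k)]
  refine integral_congr_ae (Filter.Eventually.of_forall fun ω => ?_)
  beta_reduce
  rw [fi_Gr_comp]

theorem fi_cn_of_walk {H : SimpleGraph (V d)} (hH : ∀ x y, H.Adj x y → (lat d).Adj x y)
    {u v : V d} (w : H.Walk u v) : Cn (fun e => e ∈ H.edgeSet) Set.univ u v := by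
  induction w with
  | nil => exact Cn.refl trivial
  | cons h _ ih => exact (Cn.single (Set.mem_univ _) (Set.mem_univ _) (hH _ _ h) h).trans ih

theorem fi_perc (q : unitInterval) :
    Perc d q (Pr (fun _ => q)
      {ω : V d × Fin d → Bool | {y | (fi_Gr ω).Reachable 0 y}.Infinite}) := by
  intro n
  set A : Set (V d × Fin d → Bool) := {ω | SCn (fun e => e ∈ (fi_Gr ω).edgeSet)
    (box (0 : V d) n) {0} {y | ∃ i, |y i| = n}} with hA
  have hl : Loc A := ⟨(box (0 : V d) n : Set (V d)) ×ˢ Set.univ,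
    (box (0 : V d) n).finite_toSet.prod Set.finite_univ, fun ω ω' hω h =>
      SCn.mono h subset_rfl subset_rfl subset_rfl fun a b ha hb _ h' => fi_Gr_congr hω ha hb h'⟩
  calc _ ≤ Pr (fun _ => q) A := Pr_mono fun ω hω => ?_
    _ = Pr (fun _ => q) {ω : Sym2 (V d) → Bool | (fun a => ω (fi_phi a)) ∈ A} :=
      (Pr_comp_inj (fun _ => q) fi_phi_inj hl).symm
    _ ≤ _ := Pr_mono fun ω hω => ?_
  · obtain ⟨y, ⟨w⟩, hy⟩ := Set.Infinite.exists_notMem_finset hω (box (0 : V d) n)
    obtain ⟨a, ha, b, hb, -, hab, -, h⟩ := (fi_cn_of_walk (fun _ _ => fi_Gr_le ω) w).first_exit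
      (B := (box (0 : V d) n : Set (V d))) (self_mem_box _ _) hy
    refine ⟨0, rfl, a, ?_, h.mono_set Set.inter_subset_right⟩
    have hb' : ¬ ∀ i, |b i - (0 : V d) i| ≤ n := fun h => hb (mem_box.2 h)
    push Not at hb'
    obtain ⟨i, hi⟩ := hb'
    have h1 := mem_box.1 ha i
    have h2 := abs_sub_le_one_of_adj hab i
    have h3 := abs_sub_le (b i) (a i) 0
    simp only [Pi.zero_apply, sub_zero] at h1 hi h3
    exact ⟨i, by omega⟩
  · simp only [hA, Set.mem_ofPred_eq, fi_Gr_comp] at hω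
    exact SCn.mono hω subset_rfl subset_rfl subset_rfl fun a b _ _ _ h => h.2

theorem fi_bern {ν : Measure Bool} [IsProbabilityMeasure ν] (p : unitInterval)
    (h : ν {true} = ENNReal.ofReal p) : ν = bernoulliMeasure true false p := by
  refine measure_bool_ext ?_
  have e : ({false} : Set Bool) = {true}ᶜ := by ext b; cases b <;> simp
  rw [bern_singleton, wt_false, e, measureReal_compl (measurableSet_singleton _), probReal_univ,
    measureReal_def, h, ENNReal.toReal_ofReal p.2.1]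

theorem fi_eigSp_bot (k : Fin d) (n : ℕ) {O : Sym2 (V d) → Prop} (hO : ∀ e, O e) (lam : ℝ) :
    eigSp (box (0 : V d) (n + 1)) (box 0 (n + 1) \ box 0 n) O lam = ⊥ := by
  classical
  rw [Submodule.eq_bot_iff]
  rintro g ⟨h1, h2⟩
  have key : ∀ t : ℕ, ∀ y : box (0 : V d) (n + 1), y.1 k ≤ t - (n + 1) → g y = 0 := by
    intro t
    induction t with
    | zero =>
      intro y hy
      refine h2 y (Finset.mem_sdiff.2 ⟨y.2, fun h => ?_⟩)
      have := abs_le.1 (mem_box.1 h k)
      simp only [Pi.zero_apply, sub_zero] at this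
      push_cast at hy
      omega
    | succ t ih =>
      intro y hy
      by_cases hR : y.1 ∈ box (0 : V d) n
      swap
      · exact h2 y (Finset.mem_sdiff.2 ⟨y.2, hR⟩)
      have hx : y.1 - ev k ∈ box (0 : V d) (n + 1) := mem_box.2 fun i => by
        have h3 := mem_box.1 hR i
        have h4 := abs_sub_le_one_of_adj (lat_adj_sub y.1 k) i
        have h5 := abs_sub_le ((y.1 - ev k) i) (y.1 i) ((0 : V d) i)
        push_cast
        omega
      have h3 := congrFun h1 ⟨_, hx⟩
      have h4 : g ⟨_, hx⟩ = 0 := ih _ (by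
        simp only [Pi.sub_apply, ev_self]
        push_cast at hy
        omega)
      rw [Pi.smul_apply, h4, smul_zero, Matrix.mulVec, dotProduct,
        Finset.sum_eq_single y ?_ (by simp)] at h3
      · have h5 : (OG O).Adj (y.1 - ev k) y.1 := ⟨(lat_adj_sub y.1 k).symm, hO _⟩
        simpa [AM, h5] using h3
      · intro z _ hz
        by_cases h5 : AM (box (0 : V d) (n + 1)) O ⟨_, hx⟩ z = 0
        · rw [h5, zero_mul]
        rw [ih z ?_, mul_zero]
        obtain ⟨i, h6⟩ := lat_adj.1 (AM_ne_zero h5)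
        push_cast at hy
        by_cases hi : k = i
        · subst hi
          rcases h6 with h6 | h6
          · exact absurd (Subtype.ext (by rw [h6]; simp)) hz
          · rw [h6]
            simp only [Pi.sub_apply, ev_self]
            omega
        · rcases h6 with h6 | h6 <;> rw [h6] <;>
            simp only [Pi.sub_apply, Pi.add_apply, ev_self, ev_ne hi] <;> omega
  funext y
  refine key (2 * n + 2) y ?_
  have := abs_le.1 (mem_box.1 y.2 k)
  simp only [Pi.zero_apply, sub_zero] at this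
  push_cast at this ⊢
  omega

theorem fi_ae_open {ι : Type*} [Countable ι] : ∀ᵐ ω ∂(PM fun _ : ι => (1 : unitInterval)),
    ∀ e, ω e = true := by
  rw [ae_all_iff]
  intro e
  rw [ae_iff]
  have h := Pr_eval (fun _ : ι => (1 : unitInterval)) e false
  simp only [wt_false, Set.Icc.coe_one, sub_self] at h
  rw [Pr, measureReal_eq_zero_iff] at h
  simpa using h

theorem fi_card_shell (n : ℕ) : ((box (0 : V d) (n + 1) \ box 0 n).card : ℝ) ≤
    2 * d / (2 * n + 3) * (box (0 : V d) (n + 1)).card := by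
  classical
  have h0 : (0 : ℝ) < 2 * n + 3 := by positivity
  rw [Finset.card_sdiff_of_subset (box_mono _ (Nat.le_succ n)),
    Nat.cast_sub (Finset.card_le_card (box_mono _ (Nat.le_succ n))), card_box, card_box]
  have h1 := one_add_mul_le_pow (a := -2 / (2 * n + 3 : ℝ))
    (by rw [le_div_iff₀ h0]; nlinarith [(Nat.cast_nonneg n : (0 : ℝ) ≤ n)]) d
  have h2 : (1 + -2 / (2 * n + 3 : ℝ)) = (2 * n + 1) / (2 * n + 3) := by field_simp; ring
  rw [h2, div_pow, le_div_iff₀ (pow_pos h0 d)] at h1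
  push_cast
  have h3 : (2 * ((n : ℝ) + 1) + 1) = 2 * n + 3 := by ring
  rw [h3]
  have h4 : (1 + (d : ℝ) * (-2 / (2 * n + 3))) = 1 - 2 * d / (2 * n + 3) := by ring
  rw [h4] at h1
  linarith

end Pool.Agent.P.MP_d74cc6_pr
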