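import Pool.Agent.P.MP_d74cc6_pr.Op

/-! The Krylov space of `R` is large and orthogonal to the eigenvectors vanishing on `R`. -/

open Matrix

namespace Pool.Agent.P.MP_d74cc6_pr

section Abstract

open Module Submodule

theorem kr_rank {M : Type*} [AddCommGroup M] [Module ℝ M] [FiniteDimensional ℝ M]
    (Φ : M →ₗ[ℝ] M) {K K' Γ : Submodule ℝ M} (h1 : K' ≤ K) (h2 : K' ≤ LinearMap.ker Φ)
    (h3 : Γ ≤ K.map Φ) : finrank ℝ K' + finrank ℝ Γ ≤ finrank ℝ K := by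
  have h4 := LinearMap.finrank_range_add_finrank_ker (Φ.domRestrict K)
  rw [LinearMap.range_domRestrict, LinearMap.ker_domRestrict] at h4
  have h5 := finrank_mono h3
  have h6 : finrank ℝ (K'.comap K.subtype) = finrank ℝ K' :=
    (comapSubtypeEquivOfLe h1).finrank_eq
  have h7 := finrank_mono (comap_mono (f := K.subtype) h2)
  omega

variable {n : Type*} [Fintype n] [DecidableEq n]

/-- Krylov spaces -/
def krK (H : Matrix n n ℝ) (P : n → Prop) (ℓ t : ℕ) : Submodule ℝ (n → ℝ) :=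
  span ℝ {f | ∃ i w, t ≤ i ∧ i < ℓ ∧ P w ∧ f = (H ^ i) *ᵥ Pi.single w 1}

theorem kr_low {H G : Matrix n n ℝ} (hGH : G * H = 1) {P Q : n → Prop} [DecidablePred Q] {ℓ : ℕ}
    (h0 : ∀ j < ℓ, ∀ x w, Q x → P w → (H ^ j) x w = 0) {Γ : Submodule ℝ (n → ℝ)}
    (hΓ : Γ ≤ span ℝ {f | ∃ w, P w ∧ f = fun x => if Q x then G x w else 0}) :
    ℓ * finrank ℝ Γ ≤ finrank ℝ (krK H P ℓ 0) := by
  have hpow : ∀ t j : ℕ, G ^ t * H ^ (t + j) = H ^ j := by
    intro t j
    induction t with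
    | zero => simp
    | succ t ih =>
      rw [pow_succ, show t + 1 + j = (t + j) + 1 by ring, pow_succ' H, mul_assoc, ← mul_assoc G,
        hGH, one_mul, ih]
  have step : ∀ t < ℓ, finrank ℝ (krK H P ℓ (t + 1)) + finrank ℝ Γ ≤ finrank ℝ (krK H P ℓ t) := by
    intro t ht
    let ρ : (n → ℝ) →ₗ[ℝ] (n → ℝ) :=
      { toFun := fun f x => if Q x then f x else 0
        map_add' := fun f g => by ext x; by_cases h : Q x <;> simp [h]
        map_smul' := fun c f => by ext x; by_cases h : Q x <;> simp [h] }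
    refine kr_rank (ρ ∘ₗ (G ^ (t + 1)).mulVecLin) (span_mono ?_) (span_le.2 ?_)
      (hΓ.trans (span_le.2 ?_))
    · rintro _ ⟨i, w, h1, h2, h3, rfl⟩
      exact ⟨i, w, by omega, h2, h3, rfl⟩
    · rintro _ ⟨i, w, h1, h2, h3, rfl⟩
      obtain ⟨j, rfl⟩ := Nat.exists_eq_add_of_le h1
      change ρ ((G ^ (t + 1)) *ᵥ ((H ^ (t + 1 + j)) *ᵥ Pi.single w 1)) = 0
      rw [mulVec_mulVec, hpow]
      ext x
      change (if Q x then _ else 0) = 0
      split_ifs with h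
      · simpa using h0 j (by omega) x w h h3
      · rfl
    · rintro _ ⟨w, h1, rfl⟩
      refine ⟨(H ^ t) *ᵥ Pi.single w 1, subset_span ⟨t, w, le_rfl, ht, h1, rfl⟩, ?_⟩
      change ρ ((G ^ (t + 1)) *ᵥ ((H ^ t) *ᵥ Pi.single w 1)) = _
      have := hpow t 0
      rw [add_zero, pow_zero] at this
      rw [mulVec_mulVec, pow_succ', mul_assoc, this, mul_one]
      ext x
      change (if Q x then _ else 0) = _
      simp
  have key : ∀ s t, s + t = ℓ → s * finrank ℝ Γ ≤ finrank ℝ (krK H P ℓ t) := by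
    intro s
    induction s with
    | zero => simp
    | succ s ih =>
      intro t h
      have h1 := ih (t + 1) (by omega)
      have h2 := step t (by omega)
      rw [Nat.succ_mul]
      omega
  exact key ℓ 0 rfl

theorem kr_orth {H : Matrix n n ℝ} (hH : H.IsSymm) {P : n → Prop} {ℓ : ℕ} {g : n → ℝ} {c : ℝ}
    (hg : H *ᵥ g = c • g) (hP : ∀ w, P w → g w = 0) {f : n → ℝ} (hf : f ∈ krK H P ℓ 0) :
    g ⬝ᵥ f = 0 := by
  have h1 : ∀ i : ℕ, (H ^ i) *ᵥ g = c ^ i • g := by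
    intro i
    induction i with
    | zero => simp
    | succ i ih => rw [pow_succ, ← mulVec_mulVec, hg, mulVec_smul, ih, smul_smul, pow_succ']
  induction hf using span_induction with
  | mem f hf =>
    obtain ⟨i, w, -, -, h3, rfl⟩ := hf
    rw [dotProduct_mulVec, ← mulVec_transpose, (hH.pow i).eq, h1]
    simp [hP w h3]
  | zero => simp
  | add f f' _ _ h h' => rw [dotProduct_add, h, h', add_zero]
  | smul a f _ h => rw [dotProduct_smul, h, smul_zero]

omit [DecidableEq n] in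
theorem kr_add {E K : Submodule ℝ (n → ℝ)} (h : ∀ g ∈ E, ∀ f ∈ K, g ⬝ᵥ f = 0) :
    finrank ℝ (E ⊔ K : Submodule ℝ (n → ℝ)) = finrank ℝ E + finrank ℝ K := by
  have h1 : E ⊓ K = ⊥ := eq_bot_iff.2 fun f hf => by
    rw [mem_bot]
    exact dotProduct_self_eq_zero.1 (h f hf.1 f hf.2)
  rw [← finrank_sup_add_finrank_inf_eq, h1, finrank_bot, add_zero]

omit [DecidableEq n] in
theorem kr_sum {E : ℝ → Submodule ℝ (n → ℝ)} {K : Submodule ℝ (n → ℝ)}
    (h1 : ∀ a b, a ≠ b → ∀ g ∈ E a, ∀ f ∈ E b, g ⬝ᵥ f = 0)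
    (h2 : ∀ a, ∀ g ∈ E a, ∀ f ∈ K, g ⬝ᵥ f = 0) (S : Finset ℝ) :
    ∃ W : Submodule ℝ (n → ℝ), finrank ℝ W = ∑ a ∈ S, finrank ℝ (E a) + finrank ℝ K ∧
      ∀ a ∉ S, ∀ g ∈ E a, ∀ f ∈ W, g ⬝ᵥ f = 0 := by
  induction S using Finset.induction_on with
  | empty => exact ⟨K, by simp, fun a _ => h2 a⟩
  | insert b S hb ih =>
    obtain ⟨W, hW1, hW2⟩ := ih
    refine ⟨E b ⊔ W, ?_, fun a ha g hg f hf => ?_⟩
    · rw [kr_add (hW2 b hb), hW1, Finset.sum_insert hb, add_assoc]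
    · rw [Finset.mem_insert, not_or] at ha
      obtain ⟨f₁, hf₁, f₂, hf₂, rfl⟩ := mem_sup.1 hf
      rw [dotProduct_add, h1 a b ha.1 g hg f₁ hf₁, hW2 a ha.2 g hg f₂ hf₂, add_zero]

end Abstract

variable {d : ℕ}

theorem kr_pow_ne {Λ : Finset (V d)} {O : Sym2 (V d) → Prop} {x₀ : ℝ} (j : ℕ) {x w : Λ}
    (h : ((x₀ • (1 : Matrix Λ Λ ℝ) - AM Λ O) ^ j) x w ≠ 0) (i : Fin d) :
    |x.1 i - w.1 i| ≤ j := by
  induction j generalizing x with
  | zero =>
    have : x = w := by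
      by_contra h1
      exact h (by simp [Matrix.one_apply_ne h1])
    simp [this]
  | succ j ih =>
    rw [pow_succ', mul_apply] at h
    obtain ⟨y, -, hy⟩ := Finset.exists_ne_zero_of_sum_ne_zero h
    have h1 := ih (right_ne_zero_of_mul hy)
    have h2 := left_ne_zero_of_mul hy
    have h3 : |y.1 i - x.1 i| ≤ 1 := by
      by_cases hxy : x = y
      · simp [hxy]
      · refine abs_sub_le_one_of_adj (AM_ne_zero (O := O) fun h4 => h2 ?_) i
        simp [Matrix.one_apply_ne hxy, h4]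
    have h4 := abs_sub_le (x.1 i) (y.1 i) (w.1 i)
    rw [abs_sub_comm (x.1 i) (y.1 i)] at h4
    push_cast
    omega

theorem krylov {Λ I R : Finset (V d)} {O : Sym2 (V d) → Prop} {x₀ : ℝ} (hx : 2 * d < x₀) {ℓ : ℕ}
    (hsep : ∀ v ∈ I, ∀ w ∈ R, ∃ i, (ℓ : ℤ) ≤ |v i - w i|) (S₀ : Finset ℝ) :
    ∑ lam ∈ S₀, Module.finrank ℝ (eigSp Λ R O lam) + ℓ * rk Λ I R O x₀ ≤ Λ.card := by
  classical
  have hH : (x₀ • (1 : Matrix Λ Λ ℝ) - AM Λ O).IsSymm :=
    (Matrix.isSymm_one.smul x₀).sub (AM_symm Λ O)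
  have h1 := kr_low (Gm_mul_H Λ O hx) (P := fun w => w.1 ∈ R) (Q := fun x => x.1 ∈ I) (ℓ := ℓ)
    (Γ := Gam Λ I R O x₀)
    (by
      intro j hj x w h1 h2
      by_contra h3
      obtain ⟨i, hi⟩ := hsep _ h1 _ h2
      have := kr_pow_ne j h3 i
      omega)
    (by
      refine Submodule.span_le.2 ?_
      rintro _ ⟨w, hw, rfl⟩
      by_cases h : w ∈ Λ
      · refine Submodule.subset_span ⟨⟨w, h⟩, hw, ?_⟩
        ext x
        simp [gam, h]
      · have : gam Λ I O x₀ w = 0 := by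
          ext x
          simp [gam, h]
        rw [this]
        exact Submodule.zero_mem _)
  obtain ⟨W, hW, -⟩ := kr_sum (E := eigSp Λ R O)
    (K := krK (x₀ • (1 : Matrix Λ Λ ℝ) - AM Λ O) (fun w => w.1 ∈ R) ℓ 0)
    (by
      intro a b hab g hg f hf
      have h2 : g ⬝ᵥ (AM Λ O *ᵥ f) = a * (g ⬝ᵥ f) := by
        rw [dotProduct_mulVec, ← mulVec_transpose, (AM_symm Λ O).eq, hg.1, smul_dotProduct,
          smul_eq_mul]
      rw [hf.1, dotProduct_smul, smul_eq_mul] at h2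
      exact (mul_eq_mul_right_iff.1 h2).resolve_left hab.symm)
    (by
      intro a g hg f hf
      refine kr_orth hH (c := x₀ - a) ?_ hg.2 hf
      rw [sub_mulVec, hg.1, smul_mulVec, one_mulVec, sub_smul]) S₀
  have h2 := W.finrank_le
  rw [Module.finrank_fintype_fun_eq_card, Fintype.card_coe, hW] at h2
  unfold rk
  omega

end Pool.Agent.P.MP_d74cc6_pr
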