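import Pool.Agent.P.MP_d74cc6_pr.Spectral2

/-! Atoms of the expected spectral measure and finite volume eigenvectors. -/

open MeasureTheory

namespace Pool.Agent.P.MP_d74cc6_pr

variable {d : ℕ}

theorem sp_int_pow {μ : Measure ℝ} [IsProbabilityMeasure μ]
    (hsupp : μ (Set.Icc (-(2 * (d : ℝ))) (2 * (d : ℝ)))ᶜ = 0) (i : ℕ) :
    Integrable (fun t : ℝ => t ^ i) μ := by
  refine (integrable_const ((2 * (d : ℝ)) ^ i)).mono' (by fun_prop) ?_
  filter_upwards [mem_ae_iff.2 hsupp] with t ht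
  rw [norm_pow]
  exact pow_le_pow_left₀ (norm_nonneg _) (abs_le.2 ht) i

theorem sp_int_eval {μ : Measure ℝ} [IsProbabilityMeasure μ]
    (hsupp : μ (Set.Icc (-(2 * (d : ℝ))) (2 * (d : ℝ)))ᶜ = 0) (P : Polynomial ℝ) :
    Integrable (fun t : ℝ => P.eval t) μ := by
  simp only [Polynomial.eval_eq_sum_range]
  exact integrable_finsetSum _ fun i _ => (sp_int_pow hsupp i).const_mul _

theorem sp_poly {p : unitInterval} {μ : Measure ℝ} [IsProbabilityMeasure μ]
    (hsupp : μ (Set.Icc (-(2 * (d : ℝ))) (2 * (d : ℝ)))ᶜ = 0)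
    (hmom : ∀ k : ℕ, ∫ x, x ^ k ∂μ = ∫ ω, sp_N (op ω) k (0 : V d) 0 ∂PM fun _ => p)
    (P : Polynomial ℝ) {W : Finset (V d)} (x : W) (hx : box x.1 P.natDegree ⊆ W) :
    ∫ t, P.eval t ∂μ = ∫ ω, (Polynomial.aeval (AM W (op ω)) P) x x ∂PM fun _ => p := by
  have h1 : ∀ ω : Sym2 (V d) → Bool, (Polynomial.aeval (AM W (op ω)) P) x x =
      ∑ i ∈ Finset.range (P.natDegree + 1), P.coeff i * sp_N (op ω) i x x := fun ω => by
    rw [Polynomial.aeval_eq_sum_range, Matrix.sum_apply]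
    refine Finset.sum_congr rfl fun i hi => ?_
    rw [Matrix.smul_apply, smul_eq_mul, sp_AM_pow W _ i x x
      ((box_mono _ (Nat.lt_succ_iff.1 (Finset.mem_range.1 hi))).trans hx)]
  simp only [h1, Polynomial.eval_eq_sum_range]
  rw [integral_finsetSum _ fun i _ => (sp_int_pow hsupp i).const_mul _,
    integral_finsetSum _ fun i _ => ((sp_locF_N i x.1).integrable _).const_mul _]
  refine Finset.sum_congr rfl fun i _ => ?_
  rw [integral_const_mul, integral_const_mul, hmom, sp_int_N p i x.1]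

theorem sp_one {p : unitInterval} {μ : Measure ℝ} [IsProbabilityMeasure μ]
    (hsupp : μ (Set.Icc (-(2 * (d : ℝ))) (2 * (d : ℝ)))ᶜ = 0)
    (hmom : ∀ k : ℕ, ∫ x, x ^ k ∂μ = ∫ ω, sp_N (op ω) k (0 : V d) 0 ∂PM fun _ => p)
    {Λ R : Finset (V d)} (hR : ∀ x ∈ Λ, x ∉ R → nbr x ⊆ Λ) (lam : ℝ) :
    Λ.card * μ.real {lam} ≤
      (∫ ω, (Module.finrank ℝ (eigSp Λ R (op ω) lam) : ℝ) ∂PM fun _ => p) + 2 * R.card := by
  classical
  by_cases h : |lam| ≤ 2 * d
  swap
  · have : μ {lam} = 0 := measure_mono_null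
      (Set.singleton_subset_iff.2 (Set.mem_compl fun h' => h (abs_le.2 h'))) hsupp
    rw [measureReal_def, this, ENNReal.toReal_zero, mul_zero]
    exact add_nonneg (integral_nonneg fun _ => Nat.cast_nonneg _) (by positivity)
  have hE : LocF fun ω : Sym2 (V d) → Bool => (Module.finrank ℝ (eigSp Λ R (op ω) lam) : ℝ) :=
    (locF_eigSp Λ R lam).comp fun S => (Module.finrank ℝ S : ℝ)
  have hC : LocF fun ω : Sym2 (V d) → Bool =>
      (sp_trace (sp_T Λ (op ω) lam * sp_D Λ R)).choose :=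
    (sp_locF_AM Λ).comp fun M => (sp_trace ((M - lam • 1) * sp_D Λ R)).choose
  set c : ℝ := (4 * d + 1) ^ 2 with hc
  have hc0 : 0 < c := by positivity
  have key : ∀ k : ℕ, Λ.card * μ.real {lam} ≤
      (∫ ω, (Module.finrank ℝ (eigSp Λ R (op ω) lam) : ℝ) ∂PM fun _ => p) + 2 * R.card +
      c / (k + 1) * ∫ ω, (sp_trace (sp_T Λ (op ω) lam * sp_D Λ R)).choose ∂PM fun _ => p := by
    intro k
    set P : Polynomial ℝ :=
      (1 - c⁻¹ • ((Polynomial.X - Polynomial.C lam) * (Polynomial.X - Polynomial.C lam))) ^ k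
      with hP
    set W := Λ.biUnion fun x => box x P.natDegree
    have hW : ∀ x ∈ Λ, box x P.natDegree ⊆ W := fun x hx =>
      Finset.subset_biUnion_of_mem (fun x => box x P.natDegree) hx
    have hΛ : Λ ⊆ W := fun x hx => hW x hx (self_mem_box _ _)
    have h1 : μ.real {lam} ≤ ∫ t, P.eval t ∂μ := by
      rw [← integral_indicator_one (measurableSet_singleton lam)]
      refine integral_mono_ae ((integrable_const _).indicator (measurableSet_singleton lam))
        (sp_int_eval hsupp P) ?_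
      filter_upwards [mem_ae_iff.2 hsupp] with t ht
      have e : P.eval t = (1 - c⁻¹ * ((t - lam) * (t - lam))) ^ k := by simp [hP]
      rw [e]
      by_cases htl : t = lam
      · subst htl; simp
      · rw [Set.indicator_of_notMem (by simpa using htl)]
        refine pow_nonneg ?_ _
        rw [sub_nonneg, inv_mul_le_iff₀ hc0, mul_one, hc, ← sq]
        obtain ⟨a1, a2⟩ := abs_le.1 h
        exact sq_le_sq' (by linarith [ht.1]) (by linarith [ht.2])
    have h2 : ∀ O : Sym2 (V d) → Prop, Polynomial.aeval (AM W O) P =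
        (1 - c⁻¹ • (sp_T W O lam * sp_T W O lam)) ^ k := fun O => by
      simp [hP, sp_T, Algebra.algebraMap_eq_smul_one]
    have hL : ∀ x : W, LocF fun ω : Sym2 (V d) → Bool =>
        (Polynomial.aeval (AM W (op ω)) P) x x := fun x =>
      (sp_locF_AM W).comp fun M => (Polynomial.aeval M P) x x
    calc Λ.card * μ.real {lam} = ∑ _x : Λ, μ.real {lam} := by simp
      _ ≤ ∑ x : Λ, ∫ ω, (Polynomial.aeval (AM W (op ω)) P) ⟨x, hΛ x.2⟩ ⟨x, hΛ x.2⟩
          ∂PM fun _ => p := Finset.sum_le_sum fun x _ =>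
        h1.trans (sp_poly hsupp hmom P ⟨x, hΛ x.2⟩ (hW x x.2)).le
      _ = ∫ ω, ∑ x : Λ, (Polynomial.aeval (AM W (op ω)) P) ⟨x, hΛ x.2⟩ ⟨x, hΛ x.2⟩
          ∂PM fun _ => p := (integral_finsetSum _ fun x _ => (hL _).integrable _).symm
      _ ≤ ∫ ω, ((Module.finrank ℝ (eigSp Λ R (op ω) lam) : ℝ) + 2 * R.card +
          c / (k + 1) * (sp_trace (sp_T Λ (op ω) lam * sp_D Λ R)).choose) ∂PM fun _ => p := by
        refine integral_mono ((LocF.sum _ fun x _ => hL _).integrable _)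
          (((hE.integrable _).add (integrable_const _)).add ((hC.integrable _).const_mul _))
          fun ω => ?_
        simp only [h2]
        exact sp_det hΛ hR (op ω) h k
      _ = _ := by
        rw [integral_add ((hE.comp (· + 2 * (R.card : ℝ))).integrable _)
          ((hC.integrable _).const_mul _), integral_add (hE.integrable _) (integrable_const _),
          integral_const_mul (c / (k + 1))]
        simp
  have lim := ((tendsto_const_div_atTop_nhds_zero_nat c).comp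
    (Filter.tendsto_add_atTop_nat 1)).mul_const
    (∫ ω, (sp_trace (sp_T Λ (op ω) lam * sp_D Λ R)).choose ∂PM fun _ => p)
  have := ge_of_tendsto' (lim.const_add
    ((∫ ω, (Module.finrank ℝ (eigSp Λ R (op ω) lam) : ℝ) ∂PM fun _ => p) + 2 * R.card))
    fun k => by simpa using key k
  simpa using this

theorem spectral (p : unitInterval) (μ : Measure ℝ) [IsProbabilityMeasure μ]
    (hsupp : μ (Set.Icc (-(2 * (d : ℝ))) (2 * (d : ℝ)))ᶜ = 0)
    (hmom : ∀ k : ℕ, ∫ x, x ^ k ∂μ =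
      ∫ ω, (Nat.card {w : (OG (op ω)).Walk (0 : V d) 0 // w.length = k} : ℝ) ∂PM fun _ => p)
    {Λ R : Finset (V d)} (hR : ∀ x ∈ Λ, x ∉ R → nbr x ⊆ Λ) (S₀ : Finset ℝ) :
    Λ.card * μ.real S₀ ≤
      (∫ ω, ∑ lam ∈ S₀, (Module.finrank ℝ (eigSp Λ R (op ω) lam) : ℝ) ∂PM fun _ => p) +
        2 * S₀.card * R.card := by
  rw [← sum_measureReal_singleton, Finset.mul_sum, integral_finsetSum _ fun lam _ =>
    ((locF_eigSp Λ R lam).comp fun S => (Module.finrank ℝ S : ℝ)).integrable _]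
  refine (Finset.sum_le_sum fun lam _ => sp_one hsupp hmom hR lam).trans (le_of_eq ?_)
  rw [Finset.sum_add_distrib, Finset.sum_const, nsmul_eq_mul]
  ring

end Pool.Agent.P.MP_d74cc6_pr
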