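import Pool.Agent.P.MP_d74cc6_pr.Rank
import Pool.Agent.P.MP_d74cc6_pr.Krylov
import Pool.Agent.P.MP_d74cc6_pr.Spectral
import Pool.Agent.P.MP_d74cc6_pr.Final1

/-! Conclusion. -/

open MeasureTheory

namespace Pool.Agent.P.MP_d74cc6_pr

theorem fi_dim {d : ℕ} (hd : 2 ≤ d) {q p : unitInterval} (hqp : (q : ℝ) < p) {θ : ℝ} (hθ : 0 < θ)
    (hR : Perc d q θ) : ∃ c : ℝ, 0 < c ∧ ∀ (S₀ : Finset ℝ) (ε : ℝ), 0 < ε →
      ∃ Λ R : Finset (V d), Λ.Nonempty ∧ (∀ x ∈ Λ, x ∉ R → nbr x ⊆ Λ) ∧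
        (R.card : ℝ) ≤ ε * Λ.card ∧
        ∫ ω, ∑ lam ∈ S₀, (Module.finrank ℝ (eigSp Λ R (op ω) lam) : ℝ) ∂(PM fun _ => p) ≤
          (1 - c) * Λ.card := by
  classical
  rcases p.2.2.lt_or_eq with hp | hp
  · have hkl : (⟨0, by omega⟩ : Fin d) ≠ ⟨1, by omega⟩ := by simp
    obtain ⟨c, hc, h⟩ := rank_lower hkl hqp hp hθ hR
    refine ⟨c, hc, fun S₀ ε hε => ?_⟩
    obtain ⟨Λ, I, R, x₀, ℓ, h1, h2, h3, h4, h5, h6⟩ := h ε hε
    refine ⟨Λ, R, h1, h2, h3, ?_⟩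
    have i1 : Integrable (fun ω : Sym2 (V d) → Bool =>
        ∑ lam ∈ S₀, (Module.finrank ℝ (eigSp Λ R (op ω) lam) : ℝ)) (PM fun _ => p) :=
      (LocF.sum S₀ fun lam _ => (locF_eigSp Λ R lam).comp fun W =>
        (Module.finrank ℝ W : ℝ)).integrable _
    have i2 : Integrable (fun ω : Sym2 (V d) → Bool => (ℓ : ℝ) * (rk Λ I R (op ω) x₀ : ℝ))
        (PM fun _ => p) := ((locF_rk Λ I R x₀).comp fun r => (ℓ : ℝ) * (r : ℝ)).integrable _
    have h7 := integral_mono (i1.add i2) (integrable_const (Λ.card : ℝ)) fun ω => by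
      have := krylov (Λ := Λ) (O := op ω) h4 h5 S₀
      simp only [Pi.add_apply]
      exact_mod_cast this
    simp only [Pi.add_apply] at h7
    rw [integral_add i1 i2, integral_const_mul, integral_const, probReal_univ, one_smul] at h7
    linarith
  · obtain rfl : p = 1 := Subtype.ext hp
    refine ⟨1, one_pos, fun S₀ ε hε => ?_⟩
    obtain ⟨n, hn⟩ := exists_nat_ge (d / ε)
    refine ⟨box 0 (n + 1), box 0 (n + 1) \ box 0 n, ⟨_, self_mem_box _ _⟩, fun x hx hx' y hy => ?_,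
      (fi_card_shell n).trans (mul_le_mul_of_nonneg_right ?_ (Nat.cast_nonneg _)), ?_⟩
    · have h1 : x ∈ box (0 : V d) n := by
        by_contra h
        exact hx' (Finset.mem_sdiff.2 ⟨hx, h⟩)
      refine mem_box.2 fun i => ?_
      have h3 := mem_box.1 h1 i
      have h4 := abs_sub_le_one_of_adj (mem_nbr.1 hy) i
      have h5 := abs_sub_le (y i) (x i) ((0 : V d) i)
      push_cast
      omega
    · rw [div_le_iff₀ hε] at hn
      rw [div_le_iff₀ (by positivity)]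
      nlinarith
    · rw [sub_self, zero_mul]
      refine le_of_eq (integral_eq_zero_of_ae (fi_ae_open.mono fun ω hω => ?_))
      refine Finset.sum_eq_zero fun lam _ => ?_
      rw [fi_eigSp_bot ⟨0, by omega⟩ n (O := op ω) hω lam, finrank_bot, Nat.cast_zero]

theorem fi_countable {μ : Measure ℝ} [IsProbabilityMeasure μ] {c : ℝ} (hc : 0 < c)
    (h : ∀ S₀ : Finset ℝ, μ.real S₀ ≤ 1 - c) {S : Set ℝ} (hS : S.Countable) : μ Sᶜ ≠ 0 := by
  classical
  intro h0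
  obtain ⟨f, hf⟩ := Set.countable_iff_exists_subset_range.1 hS
  have hm : Monotone fun n => (((Finset.range n).image f : Finset ℝ) : Set ℝ) := fun a b hab =>
    Finset.coe_subset.2 (Finset.image_subset_image (Finset.range_mono hab))
  have h1 : S ⊆ ⋃ n, (((Finset.range n).image f : Finset ℝ) : Set ℝ) := fun x hx => by
    obtain ⟨n, rfl⟩ := hf hx
    exact Set.mem_iUnion.2 ⟨n + 1, Finset.mem_image_of_mem f (Finset.self_mem_range_succ n)⟩
  have h2 : μ S ≤ ENNReal.ofReal (1 - c) := by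
    refine (measure_mono h1).trans ?_
    rw [hm.measure_iUnion]
    refine iSup_le fun n => ?_
    rw [← ofReal_measureReal]
    exact ENNReal.ofReal_le_ofReal (h _)
  have h3 : μ Set.univ ≤ μ S + μ Sᶜ := by
    rw [← Set.union_compl_self S]
    exact measure_union_le _ _
  rw [h0, add_zero, measure_univ] at h3
  exact absurd (h3.trans h2) (not_le.2 (ENNReal.ofReal_lt_one.2 (by linarith)))

theorem final :
  ∀ (d : ℕ), 2 ≤ d →
  ∀ (G : ((Fin d → ℤ) × Fin d → Bool) → SimpleGraph (Fin d → ℤ)),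
    (∀ ω, G ω = SimpleGraph.fromRel
      (fun x y : Fin d → ℤ => ∃ i : Fin d, y = x + Pi.single i 1 ∧ ω (x, i) = true)) →
  ∀ (p : ℝ), p ≤ 1 →
  (∃ q : ℝ, 0 ≤ q ∧ q < p ∧ ∃ (ν : Measure Bool), ∃ (_ : IsProbabilityMeasure ν),
      ν {true} = ENNReal.ofReal q ∧
      Measure.infinitePi (fun _ : (Fin d → ℤ) × Fin d => ν)
        {ω | {y | (G ω).Reachable 0 y}.Infinite} ≠ 0) →
  ∀ (ν : Measure Bool) [IsProbabilityMeasure ν], ν {true} = ENNReal.ofReal p →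
  ∀ (μ : Measure ℝ) [IsProbabilityMeasure μ],
    μ (Set.Icc (-(2 * (d : ℝ))) (2 * (d : ℝ)))ᶜ = 0 →
    (∀ k : ℕ, ∫ x, x ^ k ∂μ =
      ∫ ω, (Nat.card {w : (G ω).Walk 0 0 // w.length = k} : ℝ)
        ∂(Measure.infinitePi (fun _ : (Fin d → ℤ) × Fin d => ν))) →
    ∀ S : Set ℝ, S.Countable → μ Sᶜ ≠ 0 := by
  rintro d hd G hG p hp ⟨q, hq, hqp, ν', _, h1, h2⟩ ν _ hν μ _ hsupp hmom S hS
  obtain rfl : G = fi_Gr := funext hG
  lift p to unitInterval using ⟨hq.trans hqp.le, hp⟩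
  lift q to unitInterval using ⟨hq, hqp.le.trans hp⟩
  obtain rfl := fi_bern p hν
  obtain rfl := fi_bern q h1
  have hθ : 0 < Pr (fun _ => q)
      {ω : V d × Fin d → Bool | {y | (fi_Gr ω).Reachable 0 y}.Infinite} :=
    ENNReal.toReal_pos h2 (measure_ne_top _ _)
  obtain ⟨c, hc, h⟩ := fi_dim hd hqp hθ (fi_perc q)
  refine fi_countable hc (fun S₀ => le_of_forall_pos_le_add fun ε hε => ?_) hS
  have hS₀ : (0 : ℝ) < 2 * S₀.card + 1 := by positivity
  obtain ⟨Λ, R, h3, h4, h5, h6⟩ := h S₀ (ε / (2 * S₀.card + 1)) (by positivity)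
  have h7 := spectral p μ hsupp (fun k => (hmom k).trans (fi_moment p k)) h4 S₀
  have h8 : (0 : ℝ) < Λ.card := by exact_mod_cast h3.card_pos
  rw [div_mul_eq_mul_div, le_div_iff₀ hS₀] at h5
  refine le_of_mul_le_mul_left ?_ h8
  nlinarith [(Nat.cast_nonneg R.card : (0 : ℝ) ≤ R.card)]

end Pool.Agent.P.MP_d74cc6_pr
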