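import Pool.Agent.P.MP_d74cc6_pr.Face

/-! The gluing lemma with sprinkling. -/

namespace Pool.Agent.P.MP_d74cc6_pr

variable {d : ℕ}

/-- Markov inequality for the number of events, with no locality of the bad event -/
theorem gl_card_ge {ι κ : Type*} (π : ι → unitInterval) (s : Finset κ) {A : κ → Set (ι → Bool)}
    (hA : ∀ k ∈ s, Loc (A k)) {t : ℝ} (ht : 0 ≤ t) {E : Set (ι → Bool)}
    (h : ∀ ω ∈ E, ∃ u ⊆ s, t ≤ u.card ∧ ∀ k ∈ u, ω ∈ A k) :
    t * Pr π E ≤ ∑ k ∈ s, Pr π (A k) := by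
  classical
  have hE : Loc {ω | ∃ u ∈ s.powerset.filter (fun u => t ≤ (u.card : ℝ)),
      ω ∈ {ω | ∀ k ∈ u, ω ∈ A k}} :=
    Loc.exists_mem _ fun u hu => Loc.forall_mem u fun k hk =>
      hA k (Finset.mem_powerset.1 (Finset.mem_filter.1 hu).1 hk)
  refine le_trans (mul_le_mul_of_nonneg_left (Pr_mono fun ω hω => ?_) ht)
    (Pr_card_ge π s hA hE ?_)
  · obtain ⟨u, h1, h2, h3⟩ := h ω hω
    exact ⟨u, Finset.mem_filter.2 ⟨Finset.mem_powerset.2 h1, h2⟩, h3⟩
  · rintro ω ⟨u, h1, h2⟩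
    obtain ⟨h3, h4⟩ := Finset.mem_filter.1 h1
    exact ⟨u, Finset.mem_powerset.1 h3, h4, h2⟩

open Classical in
/-- the base cluster of `B` away from `C` -/
noncomputable def glD {κ : Type} (C B : Set (V d)) (R : Finset (V d))
    (ω : Sym2 (V d) × Option κ → Bool) : Finset (V d) :=
  R.filter fun v => ∃ b ∈ B, Cn (fun e => ω (e, none) = true) ((R : Set (V d)) \ C) v b

theorem gl_mem_D {κ : Type} {C B : Set (V d)} {R : Finset (V d)}
    {ω : Sym2 (V d) × Option κ → Bool} {v : V d} :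
    v ∈ glD C B R ω ↔
      ∃ b ∈ B, Cn (fun e => ω (e, none) = true) ((R : Set (V d)) \ C) v b := by
  classical
  unfold glD
  rw [Finset.mem_filter]
  exact ⟨fun h => h.2, fun h => ⟨let ⟨_, _, h⟩ := h; h.mem_left.1, h⟩⟩

/-- the coordinates that determine the base cluster -/
def glS (κ : Type) (C : Set (V d)) (R : Finset (V d)) : Set (Sym2 (V d) × Option κ) :=
  {i | i.2 = none ∧ i.1 ∈ EIn ((R : Set (V d)) \ C)}

theorem gl_S_finite (κ : Type) (C : Set (V d)) (R : Finset (V d)) : (glS κ C R).Finite := by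
  refine ((EIn_finite (R.finite_toSet.subset Set.sdiff_subset : ((R : Set (V d)) \ C).Finite)).image
    fun e => (e, (none : Option κ))).subset ?_
  rintro ⟨e, o⟩ ⟨h1, h2⟩
  exact ⟨e, h2, Prod.ext rfl h1.symm⟩

theorem gl_dependsOn_D {κ : Type} (C B : Set (V d)) (R : Finset (V d)) :
    DependsOn (glD (κ := κ) C B R) (glS κ C R) := by
  have key : ∀ ω ω' : Sym2 (V d) × Option κ → Bool, (∀ i ∈ glS κ C R, ω i = ω' i) →
      glD C B R ω ⊆ glD C B R ω' := by
    intro ω ω' h v hv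
    obtain ⟨b, hb, hc⟩ := gl_mem_D.1 hv
    refine gl_mem_D.2 ⟨b, hb, hc.mono subset_rfl fun x y hx hy _ h' => ?_⟩
    rw [← h (s(x, y), none) ⟨rfl, mk_mem_EIn.2 ⟨hx, hy⟩⟩]
    exact h'
  intro ω ω' h
  exact Finset.Subset.antisymm (key ω ω' h) (key ω' ω fun i hi => (h i hi).symm)

theorem gl_locF_D {κ : Type} (C B : Set (V d)) (R : Finset (V d)) : LocF (glD (κ := κ) C B R) :=
  ⟨_, gl_S_finite κ C R, gl_dependsOn_D C B R⟩

theorem gl_dep_D {κ : Type} (C B : Set (V d)) (R D : Finset (V d)) :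
    Dep {ω : Sym2 (V d) × Option κ → Bool | glD C B R ω = D} (glS κ C R) :=
  dep_of_dependsOn (gl_dependsOn_D C B R) {D}

theorem gl_D_conn {κ : Type} {C B : Set (V d)} {R : Finset (V d)} (a : κ)
    {ω : Sym2 (V d) × Option κ → Bool} {v : V d} (hv : v ∈ glD C B R ω) :
    ∃ b ∈ B, Cn (OC C a ω) R v b := by
  obtain ⟨b, hb, hc⟩ := gl_mem_D.1 hv
  refine ⟨b, hb, hc.mono Set.sdiff_subset fun x y hx hy _ h' => Or.inl ⟨h', fun v hv => ?_⟩⟩
  rcases Sym2.mem_iff.1 hv with rfl | rfl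
  · exact hx.2
  · exact hy.2

open Classical in
/-- the edges from `C` to `D` -/
noncomputable def glBd (C : Set (V d)) (R D : Finset (V d)) : Finset (Sym2 (V d)) :=
  ((R ×ˢ D).filter fun p => p.1 ∈ C ∧ (lat d).Adj p.1 p.2).image fun p => s(p.1, p.2)

theorem gl_mem_Bd {C : Set (V d)} {R D : Finset (V d)} {e : Sym2 (V d)} :
    e ∈ glBd C R D ↔ ∃ x y, x ∈ R ∧ y ∈ D ∧ x ∈ C ∧ (lat d).Adj x y ∧ s(x, y) = e := by
  classical
  unfold glBd
  simp only [Finset.mem_image, Finset.mem_filter, Finset.mem_product, Prod.exists]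
  constructor
  · rintro ⟨x, y, ⟨⟨h1, h2⟩, h3, h4⟩, h5⟩
    exact ⟨x, y, h1, h2, h3, h4, h5⟩
  · rintro ⟨x, y, h1, h2, h3, h4, h5⟩
    exact ⟨x, y, ⟨⟨h1, h2⟩, h3, h4⟩, h5⟩

/-- all pairs of `J` have value `b` in the layer `o` -/
def glCyl {κ : Type} (J : Finset (Sym2 (V d))) (o : Option κ) (b : Bool) :
    Set (Sym2 (V d) × Option κ → Bool) := {ω | ∀ e ∈ J, ω (e, o) = b}

theorem gl_dep_Cyl {κ : Type} (J : Finset (Sym2 (V d))) (o : Option κ) (b : Bool) :
    Dep (glCyl J o b) ((fun e => (e, o)) '' (J : Set (Sym2 (V d)))) :=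
  fun _ _ hω h e he => (hω (e, o) ⟨e, he, rfl⟩).symm.trans (h e he)

theorem gl_loc_Cyl {κ : Type} (J : Finset (Sym2 (V d))) (o : Option κ) (b : Bool) :
    Loc (glCyl J o b) := (gl_dep_Cyl J o b).loc (J.finite_toSet.image _)

theorem gl_Pr_Cyl {κ : Type} (q ε : unitInterval) (J : Finset (Sym2 (V d))) (o : Option κ)
    (b : Bool) : Pr (lay q ε) (glCyl J o b) = wt (o.elim q fun _ => ε) b ^ J.card := by
  have h1 := Pr_comp_inj (lay (d := d) q ε) (φ := fun e : Sym2 (V d) => (e, o))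
    (fun _ _ h => congrArg Prod.fst h) (loc_cyl J fun _ => b)
  rw [Pr_cyl] at h1
  refine h1.trans ?_
  rw [← Finset.prod_const]
  rfl

theorem gl_loc_OC {κ : Type} (a : κ) (C A B : Set (V d)) (R : Finset (V d)) :
    Loc {ω : Sym2 (V d) × Option κ → Bool | ¬ SCn (OC C a ω) R A B} := by
  refine Loc.compl (A := {ω : Sym2 (V d) × Option κ → Bool | SCn (OC C a ω) R A B})
    ⟨EIn R ×ˢ {none, some a}, (EIn_finite R.finite_toSet).prod (Set.toFinite _), ?_⟩
  intro ω ω' hω h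
  refine SCn.mono h subset_rfl subset_rfl subset_rfl fun x y hx hy _ h' => ?_
  have e : s(x, y) ∈ EIn (R : Set (V d)) := mk_mem_EIn.2 ⟨hx, hy⟩
  rcases h' with ⟨h1, h2⟩ | h1
  · exact Or.inl ⟨(hω (s(x, y), none) ⟨e, by simp⟩).symm.trans h1, h2⟩
  · exact Or.inr ((hω (s(x, y), some a) ⟨e, by simp⟩).symm.trans h1)

open Classical in
/-- all pairs of a box -/
noncomputable def glP (x : V d) (m : ℕ) : Finset (Sym2 (V d)) :=
  (box x m ×ˢ box x m).image fun p => s(p.1, p.2)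

theorem gl_mem_P {x : V d} {m : ℕ} {e : Sym2 (V d)} : e ∈ glP x m ↔ e ∈ EIn (box x m) := by
  classical
  unfold glP
  simp only [Finset.mem_image, Finset.mem_product, Prod.exists]
  constructor
  · rintro ⟨y, z, h, rfl⟩
    exact mk_mem_EIn.2 h
  · intro h
    induction e using Sym2.ind with
    | _ y z => exact ⟨y, z, mk_mem_EIn.1 h, rfl⟩

theorem gl_card_P (x : V d) (m : ℕ) : (glP x m).card ≤ (2 * m + 1) ^ d * (2 * m + 1) ^ d := by
  classical
  unfold glP
  refine Finset.card_image_le.trans ?_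
  rw [Finset.card_product, card_box]

theorem glue {q ε : unitInterval} (hq : (q : ℝ) < 1) (hε : 0 < (ε : ℝ)) {δ₂ : ℝ} (hδ : 0 < δ₂) :
    ∃ δ : ℝ, 0 < δ ∧ ∀ m : ℕ, ∃ j : ℕ, 1 ≤ j ∧
      ∀ (κ : Type) (a : κ) (C A B : Set (V d)) (R : Finset (V d)),
        (∀ x ∈ A, box x m ⊆ R) →
        (∀ x ∈ A, Pr (fun _ => q) {ω : Sym2 (V d) → Bool | ¬ SCn (op ω) R (box x m) B} ≤ δ) →
        Sep j m (C ∩ A) →
        Pr (lay q ε) {ω : Sym2 (V d) × Option κ → Bool | ¬ SCn (OC C a ω) R C B} ≤ δ₂ := by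
  classical
  have ε1 : (ε : ℝ) ≤ 1 := ε.2.2
  have q0 : (0 : ℝ) ≤ q := q.2.1
  obtain ⟨k, hk⟩ := exists_pow_lt_of_lt_one (x := δ₂ / 3) (y := 1 - (ε : ℝ)) (by positivity)
    (by linarith)
  have qk : 0 < (1 - (q : ℝ)) ^ k := pow_pos (by linarith) k
  refine ⟨δ₂ * (1 - (q : ℝ)) ^ k / 6, by positivity, fun m => ?_⟩
  set N := (2 * m + 1) ^ d * (2 * m + 1) ^ d with hN
  have c0 : 0 < (ε : ℝ) ^ N := pow_pos hε N
  have c1 : (ε : ℝ) ^ N ≤ 1 := pow_le_one₀ hε.le ε1
  obtain ⟨j, hj⟩ := exists_pow_lt_of_lt_one (x := δ₂ / 3) (y := 1 - (ε : ℝ) ^ N) (by positivity)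
    (by linarith)
  refine ⟨2 * j + 1, by omega, fun κ a C A B R hAR hP hS => ?_⟩
  obtain ⟨s, hs, hsj, hsep⟩ := hS
  by_cases hCB : ∃ y ∈ R, y ∈ C ∧ y ∈ B
  · obtain ⟨y, h1, h2, h3⟩ := hCB
    have : {ω : Sym2 (V d) × Option κ → Bool | ¬ SCn (OC C a ω) R C B} = ∅ :=
      Set.eq_empty_of_forall_notMem fun ω h => h ⟨y, h2, y, h3, .refl h1⟩
    rw [this, Pr_empty]
    exact hδ.le
  have hX := gl_locF_D (κ := κ) C B R
  -- many boundary edges
  have b1 : Pr (lay q ε) {ω : Sym2 (V d) × Option κ → Bool |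
      glD C B R ω ∈ {D | k ≤ (glBd C R D).card} ∧
        ω ∈ glCyl (glBd C R (glD C B R ω)) (some a) false} ≤ δ₂ / 3 := by
    refine (Pr_cond_le (lay q ε) hX _ (A := fun D => glCyl (glBd C R D) (some a) false)
      (S := fun _ => glS κ C R) (T := fun _ => (glS κ C R)ᶜ) (fun D _ => gl_loc_Cyl _ _ _)
      (fun D _ => gl_dep_D C B R D) (fun D _ => (gl_dep_Cyl _ _ _).mono ?_)
      (fun D _ => disjoint_compl_right) (κ := δ₂ / 3) fun D hD => ?_).trans ?_
    · rintro _ ⟨e, -, rfl⟩ h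
      exact Option.some_ne_none a h.1
    · rw [gl_Pr_Cyl]
      exact (pow_le_pow_of_le_one (wt_nonneg _ _) (by simp [ε.2.1]) hD).trans hk.le
    · exact mul_le_of_le_one_right (by positivity) (Pr_le_one _ _)
  -- many boxes meet the cluster
  have b2 : Pr (lay q ε) {ω : Sym2 (V d) × Option κ → Bool |
      glD C B R ω ∈ {D | j ≤ (s.filter fun x => ¬ Disjoint (box x m) D).card} ∧
        ω ∈ {ω' | ∀ x ∈ s.filter fun x => ¬ Disjoint (box x m) (glD C B R ω),
          ω' ∈ (glCyl (glP x m) (some a) true)ᶜ}} ≤ δ₂ / 3 := by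
    refine (Pr_cond_le (lay q ε) hX _ (A := fun D => {ω' | ∀ x ∈ s.filter fun x =>
        ¬ Disjoint (box x m) D, ω' ∈ (glCyl (glP x m) (some a) true)ᶜ})
      (S := fun _ => glS κ C R) (T := fun _ => (glS κ C R)ᶜ)
      (fun D _ => Loc.forall_mem _ fun x _ => (gl_loc_Cyl _ _ _).compl)
      (fun D _ => gl_dep_D C B R D) (fun D _ => ?_)
      (fun D _ => disjoint_compl_right) (κ := δ₂ / 3) fun D hD => ?_).trans ?_
    · intro ω ω' hω h x hx
      refine ((gl_dep_Cyl _ _ _).compl.mono ?_) hω (h x hx)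
      rintro _ ⟨e, -, rfl⟩ h
      exact Option.some_ne_none a h.1
    · rw [Pr_forall_indep (lay q ε) _ (fun x _ => (gl_loc_Cyl _ _ _).compl)
        (fun x _ => (gl_dep_Cyl _ _ _).compl)]
      · refine le_trans ?_ hj.le
        refine le_trans (Finset.prod_le_prod (g := fun _ => 1 - (ε : ℝ) ^ N)
          (fun x _ => Pr_nonneg _ _) fun x _ => ?_) ?_
        · rw [Pr_compl _ (gl_loc_Cyl _ _ _), gl_Pr_Cyl]
          exact sub_le_sub_left (pow_le_pow_of_le_one hε.le ε1 (gl_card_P x m)) 1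
        · rw [Finset.prod_const]
          exact pow_le_pow_of_le_one (by linarith) (by linarith) hD
      · intro x hx y hy hxy
        obtain ⟨i, hi⟩ := hsep x (Finset.mem_filter.1 hx).1 y (Finset.mem_filter.1 hy).1 hxy
        have hd := EIn_disjoint (box_disjoint (c := x) (c' := y) (n := m) (n' := m) i (by omega))
        rw [Function.onFun, Set.disjoint_left]
        rintro _ ⟨e, he, rfl⟩ ⟨e', he', h⟩
        obtain rfl : e' = e := congrArg Prod.fst h
        exact Set.disjoint_left.1 hd (gl_mem_P.1 he) (gl_mem_P.1 he')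
    · exact mul_le_of_le_one_right (by positivity) (Pr_le_one _ _)
  -- the remaining case is unlikely
  have b3 : Pr (lay q ε) {ω : Sym2 (V d) × Option κ → Bool |
      glD C B R ω ∈ {D | (glBd C R D).card < k ∧
        (s.filter fun x => ¬ Disjoint (box x m) D).card < j}} ≤ δ₂ / 3 := by
    have h1 := Pr_cond_ge (lay q ε) hX {D | (glBd C R D).card < k ∧
        (s.filter fun x => ¬ Disjoint (box x m) D).card < j}
      (A := fun D => glCyl (glBd C R D) none false)
      (S := fun _ => glS κ C R) (T := fun _ => (glS κ C R)ᶜ) (fun D _ => gl_loc_Cyl _ _ _)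
      (fun D _ => gl_dep_D C B R D) (fun D _ => (gl_dep_Cyl _ _ _).mono (by
        rintro _ ⟨e, he, rfl⟩ h
        obtain ⟨x, y, -, -, h3, -, rfl⟩ := gl_mem_Bd.1 he
        exact (mk_mem_EIn.1 h.2).1.2 h3))
      (fun D _ => disjoint_compl_right) (κ := (1 - (q : ℝ)) ^ k) fun D hD => by
        rw [gl_Pr_Cyl]
        exact pow_le_pow_of_le_one (by linarith) (by linarith) hD.1.le
    have h2 := gl_card_ge (lay q ε) s (A := fun x => {ω : Sym2 (V d) × Option κ → Bool |
        (fun e => ω (e, none)) ∈ {ω : Sym2 (V d) → Bool | ¬ SCn (op ω) R (box x m) B}})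
      (fun x _ => Loc.comp (loc_SCn R.finite_toSet _ _).compl _) (t := s.card / 2)
      (by positivity) (E := {ω | glD C B R ω ∈ {D | (glBd C R D).card < k ∧
        (s.filter fun x => ¬ Disjoint (box x m) D).card < j} ∧
        ω ∈ glCyl (glBd C R (glD C B R ω)) none false}) (by
        rintro ω ⟨⟨-, h3⟩, h4⟩
        refine ⟨s.filter fun x => Disjoint (box x m) (glD C B R ω), Finset.filter_subset _ _,
          ?_, fun x hx => ?_⟩
        · have := Finset.card_filter_add_card_filter_not (s := s)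
            fun x => Disjoint (box x m) (glD C B R ω)
          have h5 : s.card ≤ 2 * (s.filter fun x => Disjoint (box x m) (glD C B R ω)).card := by
            omega
          have h6 : (s.card : ℝ) ≤
            2 * (s.filter fun x => Disjoint (box x m) (glD C B R ω)).card := by exact_mod_cast h5
          linarith
        · rintro ⟨y, hy, b, hb, n, hw⟩
          have hbC : b ∉ C := fun h => hCB ⟨b, hw.mem_right, h, hb⟩
          rcases hw.last_exit hbC with h | ⟨u, hu, v, -, h5, h6, h7, -, h9⟩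
          · exact Finset.disjoint_left.1 (Finset.mem_filter.1 hx).2 hy (gl_mem_D.2 ⟨b, hb, h.cn⟩)
          · have := h4 s(u, v) (gl_mem_Bd.2 ⟨u, v, h5, gl_mem_D.2 ⟨b, hb, h9.cn⟩, hu, h6, rfl⟩)
            exact Bool.false_ne_true (this.symm.trans h7))
    have h3 : ∑ x ∈ s, Pr (lay q ε) {ω : Sym2 (V d) × Option κ → Bool |
        (fun e => ω (e, none)) ∈ {ω : Sym2 (V d) → Bool | ¬ SCn (op ω) R (box x m) B}} ≤
        s.card * (δ₂ * (1 - (q : ℝ)) ^ k / 6) := by
      rw [← nsmul_eq_mul]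
      refine Finset.sum_le_card_nsmul _ _ _ fun x hx => ?_
      exact (Pr_comp_inj (lay q ε) (φ := fun e : Sym2 (V d) => (e, (none : Option κ)))
        (fun _ _ h => congrArg Prod.fst h) (loc_SCn R.finite_toSet _ _).compl).trans_le
        (hP x (hs hx).2)
    have h4 : (0 : ℝ) < s.card := by exact_mod_cast (by omega : 0 < s.card)
    have h5 := (mul_le_mul_of_nonneg_left h1 (by positivity : (0 : ℝ) ≤ s.card / 2)).trans
      (h2.trans h3)
    refine le_of_mul_le_mul_left ?_ (by positivity : (0 : ℝ) < s.card / 2 * (1 - (q : ℝ)) ^ k)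
    rw [mul_assoc]
    refine h5.trans (le_of_eq ?_)
    ring
  refine le_trans (Pr_mono fun ω hω => ?_) ((Pr_union_le _ _ _).trans
    ((add_le_add ((Pr_union_le _ _ _).trans (add_le_add b1 b2)) b3).trans (le_of_eq (by ring))))
  by_cases g1 : k ≤ (glBd C R (glD C B R ω)).card
  · refine Or.inl (Or.inl ⟨g1, fun e he => ?_⟩)
    obtain ⟨x, y, h1, h2, h3, h4, rfl⟩ := gl_mem_Bd.1 he
    obtain ⟨b, hb, hc⟩ := gl_D_conn a h2
    by_contra h
    exact hω ⟨x, h3, b, hb, (Cn.single h1 hc.mem_left h4 (Or.inr (by simpa using h))).trans hc⟩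
  by_cases g2 : j ≤ (s.filter fun x => ¬ Disjoint (box x m) (glD C B R ω)).card
  · refine Or.inl (Or.inr ⟨g2, fun x hx h => ?_⟩)
    obtain ⟨hx, h1⟩ := Finset.mem_filter.1 hx
    obtain ⟨y, hy, h2⟩ := Finset.not_disjoint_iff.1 h1
    obtain ⟨b, hb, hc⟩ := gl_D_conn a h2
    have hw : Wk (OC C a ω) (box x m) (2 * d * m) x y :=
      wk_of_open_box' (fun u v hu hv _ => Or.inr (h _ (gl_mem_P.2 (mk_mem_EIn.2 ⟨hu, hv⟩))))
        (self_mem_box x m) hy
    exact hω ⟨x, (hs hx).1, b, hb,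
      (hw.cn.mono_set (Finset.coe_subset.2 (hAR x (hs hx).2))).trans hc⟩
  · exact Or.inr ⟨not_le.1 g1, not_le.1 g2⟩

theorem rich_step {q ε : unitInterval} (hq : (q : ℝ) < 1) (hε : 0 < (ε : ℝ)) {θ : ℝ} (hθ : 0 < θ)
    (hR : Perc d q θ) {δ : ℝ} (hδ : 0 < δ) :
    ∃ L m j : ℕ, 1 ≤ j ∧ j * (2 * m + 1) ≤ L ∧
      ∀ (κ : Type) (a : κ) (C : Set (V d)) (c : V d) (k : Fin d),
        Sep j m (C ∩ box c (2 * L)) →
        Pr (lay q ε) {ω : Sym2 (V d) × Option κ → Bool |
          ¬ Sep j m (grow C (box c (4 * L)) a ω ∩ {y | y ∈ box c (2 * L) ∧ |y k - c k| ≤ L})}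
            ≤ δ := by
  classical
  obtain ⟨δ', hδ', hg⟩ := glue (d := d) hq hε (half_pos hδ)
  obtain ⟨m, hm⟩ := face_conn hθ hR hδ'
  obtain ⟨j, hj, hg⟩ := hg m
  refine ⟨2 * j * (2 * m + 1), m, j, hj, by nlinarith, fun κ a C c k hS => ?_⟩
  set L := 2 * j * (2 * m + 1) with hL
  have hmL : m ≤ L := by nlinarith
  have hiL : ∀ i ∈ Finset.range (2 * j), i * (2 * m + 1) ≤ L := fun i hi =>
    Nat.mul_le_mul_right _ (Finset.mem_range.1 hi).le
  set B : ℕ → Set (V d) := fun i =>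
    {y | y ∈ box c (2 * L) ∧ |y k - c k| = (i * (2 * m + 1) : ℕ)} with hB
  have h1 : ∀ i ∈ Finset.range (2 * j), Pr (lay q ε) {ω : Sym2 (V d) × Option κ → Bool |
      ¬ SCn (OC C a ω) (box c (4 * L)) C (B i)} ≤ δ / 2 := by
    intro i hi
    refine hg κ a C (box c (2 * L)) (B i) (box c (4 * L)) (fun x hx => box_subset fun l => ?_)
      (fun x hx => ?_) hS
    · have := mem_box.1 hx l
      push_cast at this ⊢
      omega
    · have := hm (2 * L) (i * (2 * m + 1)) c x k (by have := hiL i hi; omega) hx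
      rwa [show 2 * (2 * L) = 4 * L by ring] at this
  have h2 := gl_card_ge (lay q ε) (Finset.range (2 * j))
    (A := fun i => {ω : Sym2 (V d) × Option κ → Bool | ¬ SCn (OC C a ω) (box c (4 * L)) C (B i)})
    (fun i _ => gl_loc_OC a C C (B i) _) (t := j) (Nat.cast_nonneg j)
    (E := {ω | ¬ Sep j m (grow C (box c (4 * L)) a ω ∩
      {y | y ∈ box c (2 * L) ∧ |y k - c k| ≤ L})}) (by
      intro ω hω
      refine ⟨(Finset.range (2 * j)).filter fun i => ¬ SCn (OC C a ω) (box c (4 * L)) C (B i),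
        Finset.filter_subset _ _, ?_, fun i hi => (Finset.mem_filter.1 hi).2⟩
      by_contra hlt
      have h3 := Finset.card_filter_add_card_filter_not (s := Finset.range (2 * j))
        fun i => SCn (OC C a ω) (box c (4 * L)) C (B i)
      rw [Finset.card_range] at h3
      have h4 : ((Finset.range (2 * j)).filter
          fun i => ¬ SCn (OC C a ω) (box c (4 * L)) C (B i)).card < j := by
        exact_mod_cast not_le.1 hlt
      set G := (Finset.range (2 * j)).filter fun i => SCn (OC C a ω) (box c (4 * L)) C (B i)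
        with hG
      have h5 : ∀ i : ℕ, ∃ y : V d, i ∈ G → y ∈ grow C (box c (4 * L)) a ω ∧ y ∈ B i := by
        intro i
        by_cases hi : i ∈ G
        · obtain ⟨x, hx, y, hy, h⟩ := (Finset.mem_filter.1 hi).2
          exact ⟨y, fun _ => ⟨⟨x, hx, h⟩, hy⟩⟩
        · exact ⟨c, fun h => absurd h hi⟩
      choose y hy using h5
      have h6 : ∀ i ∈ G, ∀ i' ∈ G, i ≠ i' → 2 * (m : ℤ) < |y i k - y i' k| := by
        intro i hi i' hi' hne
        have e1 := (hy i hi).2.2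
        have e2 := (hy i' hi').2.2
        have e3 := abs_abs_sub_abs_le_abs_sub (y i k - c k) (y i' k - c k)
        rw [e1, e2, sub_sub_sub_cancel_right] at e3
        refine lt_of_lt_of_le ?_ e3
        push_cast
        rw [← sub_mul, abs_mul, abs_of_pos (by positivity : (0 : ℤ) < 2 * m + 1)]
        have e4 : (1 : ℤ) ≤ |(i : ℤ) - i'| := Int.one_le_abs (by omega)
        nlinarith
      refine hω ⟨G.image y, ?_, ?_, ?_⟩
      · intro z hz
        obtain ⟨i, hi, rfl⟩ := Finset.mem_image.1 hz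
        refine ⟨(hy i hi).1, (hy i hi).2.1, ?_⟩
        rw [(hy i hi).2.2]
        exact_mod_cast hiL i (Finset.mem_filter.1 hi).1
      · rw [Finset.card_image_of_injOn]
        · omega
        · intro i hi i' hi' h
          by_contra hne
          have := h6 i hi i' hi' hne
          rw [h, sub_self, abs_zero] at this
          omega
      · intro z hz z' hz' hne
        obtain ⟨i, hi, rfl⟩ := Finset.mem_image.1 hz
        obtain ⟨i', hi', rfl⟩ := Finset.mem_image.1 hz'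
        exact ⟨k, h6 i hi i' hi' fun h => hne (by rw [h])⟩)
  have h3 := h2.trans (Finset.sum_le_card_nsmul _ _ _ h1)
  rw [Finset.card_range, nsmul_eq_mul] at h3
  refine le_of_mul_le_mul_left (h3.trans (le_of_eq ?_)) (by exact_mod_cast hj : (0 : ℝ) < j)
  push_cast
  ring

end Pool.Agent.P.MP_d74cc6_pr
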