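import Pool.Agent.P.MP_d74cc6_pr.Green1

/-! The consistency lemma. -/

namespace Pool.Agent.P.MP_d74cc6_pr

variable {d : ℕ}

/-- continued fraction of a pendant path -/
noncomputable def gr_tau (x₀ : ℝ) : ℕ → ℝ
  | 0 => 0
  | n + 1 => 1 / (x₀ - gr_tau x₀ n)

theorem gr_tau_lt {x₀ : ℝ} (hx : 2 < x₀) (n : ℕ) : gr_tau x₀ n < 1 := by
  induction n with
  | zero => simp [gr_tau]
  | succ n ih => rw [gr_tau, div_lt_one] <;> linarith

theorem gr_tau_mono {x₀ : ℝ} (hx : 2 < x₀) : StrictMono (gr_tau x₀) := by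
  refine strictMono_nat_of_lt_succ fun n => ?_
  induction n with
  | zero => simp only [gr_tau, sub_zero]; positivity
  | succ n ih =>
    have h1 := gr_tau_lt hx (n + 1)
    change 1 / (x₀ - gr_tau x₀ n) < 1 / (x₀ - gr_tau x₀ (n + 1))
    exact one_div_lt_one_div_of_lt (by linarith) (by linarith)

theorem gr_zv_zero (l : Fin d) (v : V d) : zv l v 0 = v := by simp [zv]

theorem gr_zv_inj {l : Fin d} {v : V d} {i j : ℕ} (h : zv l v i = zv l v j) : i = j := by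
  have := congrFun h l
  simp only [zv, Pi.sub_apply, Pi.smul_apply, ev_self, smul_eq_mul, mul_one] at this
  omega

theorem gr_zv_adj (l : Fin d) (v : V d) (i : ℕ) : (lat d).Adj (zv l v i) (zv l v (i + 1)) := by
  have : zv l v (i + 1) = zv l v i - ev l := by
    simp only [zv]; push_cast; rw [add_smul, one_smul]; abel
  rw [this]; exact lat_adj_sub _ _

theorem gr_zone_adj {O : Sym2 (V d) → Prop} {l : Fin d} {M : ℕ} {v : V d} {t : ℕ}
    (hO : Zone O l M v t) {i : ℕ} (hi : i + 1 ≤ M) (x : V d) :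
    (OG O).Adj (zv l v (i + 1)) x ↔
      (x = zv l v i ∧ i ≠ t) ∨ (x = zv l v (i + 2) ∧ i + 1 < M ∧ i + 1 ≠ t) := by
  have h := hO (i + 1) (by omega) hi x
  rw [Nat.add_sub_cancel] at h
  constructor
  · exact fun h' => (h h'.1).1 h'.2
  · intro h'
    have h2 : (lat d).Adj (zv l v (i + 1)) x := by
      rcases h' with ⟨rfl, -⟩ | ⟨rfl, -⟩
      · exact (gr_zv_adj l v i).symm
      · exact gr_zv_adj l v (i + 1)
    exact ⟨h2, (h h2).2 h'⟩

theorem gr_pendant {Λ : Finset (V d)} {O : Sym2 (V d) → Prop} {x₀ : ℝ} (hx : 2 < x₀)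
    {l : Fin d} {M : ℕ} {v : V d} {t : ℕ} (ht : t < M) (hO : Zone O l M v t)
    (hΛ : ∀ i ≤ M, zv l v i ∈ Λ) {g : V d → ℝ}
    (hg : ∀ i, 1 ≤ i → i ≤ M → Hop Λ O x₀ g (zv l v i) = 0) :
    (if t ≠ 0 then g (zv l v 1) else 0) = gr_tau x₀ t * g v := by
  classical
  have key : ∀ k i, i + k = t →
      (if k ≠ 0 then g (zv l v (i + 1)) else 0) = gr_tau x₀ k * g (zv l v i) := by
    intro k
    induction k with
    | zero => intro i _; simp [gr_tau]
    | succ k ih =>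
      intro i hi
      have h1 := ih (i + 1) (by omega)
      have h2 := hg (i + 1) (by omega) (by omega)
      have h3 : (∑ y ∈ Λ, if (OG O).Adj (zv l v (i + 1)) y then g y else 0)
          = g (zv l v i) + if k ≠ 0 then g (zv l v (i + 2)) else 0 := by
        have hne : zv l v i ≠ zv l v (i + 2) := fun e => by have := gr_zv_inj e; omega
        have h4 : ∀ y ∈ Λ, (if (OG O).Adj (zv l v (i + 1)) y then g y else 0)
            = (if y = zv l v i then g y else 0)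
              + if y = zv l v (i + 2) then (if k ≠ 0 then g y else 0) else 0 := by
          intro y _
          rw [gr_zone_adj hO (by omega)]
          by_cases e1 : y = zv l v i
          · have e2 : y ≠ zv l v (i + 2) := e1 ▸ hne
            rw [if_pos (Or.inl ⟨e1, by omega⟩), if_pos e1, if_neg e2, add_zero]
          · by_cases e2 : y = zv l v (i + 2)
            · by_cases hk : k = 0
              · rw [if_neg, if_neg e1, if_pos e2, if_neg (by simpa using hk), add_zero]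
                rintro (⟨h, -⟩ | ⟨-, -, h⟩)
                · exact e1 h
                · omega
              · rw [if_pos (Or.inr ⟨e2, by omega, by omega⟩), if_neg e1, if_pos e2, if_pos hk,
                  zero_add]
            · rw [if_neg, if_neg e1, if_neg e2, add_zero]
              rintro (⟨h, -⟩ | ⟨h, -⟩)
              · exact e1 h
              · exact e2 h
        rw [Finset.sum_congr rfl h4, Finset.sum_add_distrib, Finset.sum_ite_eq',
          if_pos (hΛ i (by omega)), Finset.sum_ite_eq']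
        by_cases hk : k = 0
        · simp [hk]
        · rw [if_pos (hΛ (i + 2) (by omega))]
      rw [Hop] at h2
      have h5 : x₀ * g (zv l v (i + 1))
          = g (zv l v i) + gr_tau x₀ k * g (zv l v (i + 1)) := by
        rw [← h1, ← h3]
        convert sub_eq_zero.1 h2
      have h6 : x₀ - gr_tau x₀ k ≠ 0 := by have := gr_tau_lt hx k; linarith
      rw [if_pos (by omega), gr_tau]
      field_simp
      linarith
  simpa [gr_zv_zero] using key t 0 (by omega)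

open Classical in
/-- the operator at a point outside the zones -/
theorem gr_split {Λ Q Z : Finset (V d)} {O : Sym2 (V d) → Prop} {x₀ : ℝ} (hx : 2 < x₀)
    {l : Fin d} {M : ℕ} {θ : V d → ℕ} (hθ : ∀ v ∈ Q, θ v < M)
    (hΛ : ∀ v ∈ Q, ∀ i ≤ M, zv l v i ∈ Λ)
    (hZ : ∀ y, y ∈ Z ↔ ∃ v ∈ Q, ∃ i, 1 ≤ i ∧ i ≤ M ∧ y = zv l v i)
    (hO : ∀ v ∈ Q, Zone O l M v (θ v)) {g : V d → ℝ}
    (hg : ∀ y ∈ Z, Hop Λ O x₀ g y = 0) {x : V d} (hxZ : x ∉ Z) :
    Hop Λ O x₀ g x = x₀ * g x - (∑ y ∈ Λ \ Z, if (OG O).Adj x y then g y else 0)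
      - if x ∈ Q then gr_tau x₀ (θ x) * g x else 0 := by
  have hsub : Z ⊆ Λ := fun y hy => by
    obtain ⟨v, hv, i, -, h2, rfl⟩ := (hZ y).1 hy
    exact hΛ v hv i h2
  rw [Hop, ← Finset.sum_sdiff hsub, sub_sub]
  congr 2
  have h1 : ∀ y ∈ Z, (OG O).Adj x y → x ∈ Q ∧ θ x ≠ 0 ∧ y = zv l x 1 := by
    intro y hy h
    obtain ⟨v, hv, i, h1, h2, rfl⟩ := (hZ y).1 hy
    obtain ⟨i, rfl⟩ : ∃ k, i = k + 1 := ⟨i - 1, by omega⟩
    rcases (gr_zone_adj (hO v hv) h2 x).1 h.symm with ⟨rfl, h3⟩ | ⟨rfl, h3, -⟩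
    · rcases Nat.eq_zero_or_pos i with rfl | hi
      · rw [gr_zv_zero]
        exact ⟨hv, h3.symm, rfl⟩
      · exact absurd ((hZ _).2 ⟨v, hv, i, hi, by omega, rfl⟩) hxZ
    · exact absurd ((hZ _).2 ⟨v, hv, i + 2, by omega, by omega, rfl⟩) hxZ
  split_ifs with hxQ
  · have hM := hθ x hxQ
    rw [← gr_pendant hx hM (hO x hxQ) (hΛ x hxQ)
      fun i h1 h2 => hg _ ((hZ _).2 ⟨x, hxQ, i, h1, h2, rfl⟩)]
    have hz : zv l x 1 ∈ Z := (hZ _).2 ⟨x, hxQ, 1, le_rfl, by omega, rfl⟩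
    rw [Finset.sum_eq_single_of_mem _ hz fun y hy hne => if_neg fun h => hne (h1 y hy h).2.2]
    refine if_congr ⟨fun h => (h1 _ hz h).2.1, fun h => ?_⟩ rfl rfl
    exact ((gr_zone_adj (hO x hxQ) (i := 0) (by omega) x).2
      (Or.inl ⟨(gr_zv_zero l x).symm, h.symm⟩)).symm
  · exact Finset.sum_eq_zero fun y hy => if_neg fun h => hxQ (h1 y hy h).1

theorem gr_consistent {Λ I W Q : Finset (V d)} {O O' : Sym2 (V d) → Prop} {x₀ : ℝ} (hx : 2 < x₀)
    {l : Fin d} {M : ℕ} {θ θ' : V d → ℕ} (hθ : ∀ v ∈ Q, θ v < M) (hθ' : ∀ v ∈ Q, θ' v < M)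
    (hΛ : ∀ v ∈ Q, ∀ i ≤ M, zv l v i ∈ Λ)
    (hinj : ∀ v ∈ Q, ∀ v' ∈ Q, ∀ i ≤ M, ∀ i' ≤ M, zv l v i = zv l v' i' → v = v')
    (hIW : ∀ v ∈ Q, ∀ i, 1 ≤ i → i ≤ M → zv l v i ∉ I ∧ zv l v i ∉ W)
    (hO : ∀ v ∈ Q, Zone O l M v (θ v)) (hO' : ∀ v ∈ Q, Zone O' l M v (θ' v))
    (hag : ∀ a b, (∀ v ∈ Q, ∀ i, 1 ≤ i → i ≤ M → a ≠ zv l v i ∧ b ≠ zv l v i) →
      (O s(a, b) ↔ O' s(a, b)))
    {q : V d} (hq : q ∈ Q) (hg : GP Λ I W Q O x₀ q) (hf : FP Λ I W O' x₀ q) : θ q = θ' q := by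
  classical
  obtain ⟨g, g1, g2, g3, g4⟩ := hg
  obtain ⟨f, f1, f2, f3⟩ := hf
  let Z : Finset (V d) := (Q ×ˢ Finset.Icc 1 M).image fun p => zv l p.1 p.2
  have hZ : ∀ y, y ∈ Z ↔ ∃ v ∈ Q, ∃ i, 1 ≤ i ∧ i ≤ M ∧ y = zv l v i := by
    intro y
    simp only [Z, Finset.mem_image, Finset.mem_product, Finset.mem_Icc, Prod.exists]
    constructor
    · rintro ⟨v, i, ⟨h1, h2, h3⟩, rfl⟩
      exact ⟨v, h1, i, h2, h3, rfl⟩
    · rintro ⟨v, h1, i, h2, h3, rfl⟩
      exact ⟨v, i, ⟨h1, h2, h3⟩, rfl⟩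
  have hgZ : ∀ y ∈ Z, Hop Λ O x₀ g y = 0 := fun y hy => by
    obtain ⟨v, hv, i, h1, h2, rfl⟩ := (hZ y).1 hy
    exact g1 _ (hΛ v hv i h2) (hIW v hv i h1 h2).2
  have hfZ : ∀ y ∈ Z, Hop Λ O' x₀ f y = 0 := fun y hy => by
    obtain ⟨v, hv, i, h1, h2, rfl⟩ := (hZ y).1 hy
    exact f1 _ (hΛ v hv i h2) (hIW v hv i h1 h2).1
  have hadj : ∀ a ∈ Λ \ Z, ∀ b ∈ Λ \ Z, ((OG O).Adj a b ↔ (OG O').Adj b a) := by
    intro a ha b hb
    rw [(OG O').adj_comm]
    refine and_congr_right fun _ => hag a b fun v hv i h1 h2 => ⟨fun e => ?_, fun e => ?_⟩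
    · exact (Finset.mem_sdiff.1 ha).2 ((hZ _).2 ⟨v, hv, i, h1, h2, e⟩)
    · exact (Finset.mem_sdiff.1 hb).2 ((hZ _).2 ⟨v, hv, i, h1, h2, e⟩)
  have hqm : q ∈ Λ \ Z := by
    refine Finset.mem_sdiff.2 ⟨by simpa [gr_zv_zero] using hΛ q hq 0 (Nat.zero_le _), fun h => ?_⟩
    obtain ⟨v, hv, i, h1, h2, h3⟩ := (hZ q).1 h
    have h4 : zv l q 0 = zv l v i := by rw [gr_zv_zero]; exact h3
    obtain rfl := hinj q hq v hv 0 (Nat.zero_le _) i h2 h4
    have := gr_zv_inj h4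
    omega
  have h0 : ∑ x ∈ Λ \ Z, (f x * Hop Λ O x₀ g x - Hop Λ O' x₀ f x * g x) = 0 := by
    refine Finset.sum_eq_zero fun x hx' => ?_
    have hxΛ := (Finset.mem_sdiff.1 hx').1
    have a1 : f x * Hop Λ O x₀ g x = 0 := by
      by_cases h : x ∈ W
      · rw [f2 x h, zero_mul]
      · rw [g1 x hxΛ h, mul_zero]
    have a2 : Hop Λ O' x₀ f x * g x = 0 := by
      by_cases h : x ∈ I
      · rw [g2 x h, mul_zero]
      · rw [f1 x hxΛ h, zero_mul]
    rw [a1, a2, sub_zero]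
  have h1 : ∀ x ∈ Λ \ Z, f x * Hop Λ O x₀ g x - Hop Λ O' x₀ f x * g x
      = ((∑ y ∈ Λ \ Z, if (OG O').Adj x y then f y * g x else 0)
        - ∑ y ∈ Λ \ Z, if (OG O).Adj x y then f x * g y else 0)
        + if x = q then (gr_tau x₀ (θ' q) - gr_tau x₀ (θ q)) * f q else 0 := by
    intro x hx'
    have hxZ := (Finset.mem_sdiff.1 hx').2
    rw [gr_split hx hθ hΛ hZ hO hgZ hxZ, gr_split hx hθ' hΛ hZ hO' hfZ hxZ]
    have e1 : (∑ y ∈ Λ \ Z, if (OG O').Adj x y then f y * g x else 0)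
        = (∑ y ∈ Λ \ Z, if (OG O').Adj x y then f y else 0) * g x := by
      rw [Finset.sum_mul]; simp only [ite_mul, zero_mul]
    have e2 : (∑ y ∈ Λ \ Z, if (OG O).Adj x y then f x * g y else 0)
        = f x * ∑ y ∈ Λ \ Z, if (OG O).Adj x y then g y else 0 := by
      rw [Finset.mul_sum]; simp only [mul_ite, mul_zero]
    rw [e1, e2]
    by_cases hxq : x = q
    · subst hxq
      rw [if_pos hq, if_pos hq, if_pos rfl, g3]
      ring
    · rw [if_neg hxq]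
      by_cases hxQ : x ∈ Q
      · rw [if_pos hxQ, if_pos hxQ, g4 x hxQ hxq]
        ring
      · rw [if_neg hxQ, if_neg hxQ]
        ring
  rw [Finset.sum_congr rfl h1, Finset.sum_add_distrib, Finset.sum_sub_distrib,
    Finset.sum_ite_eq', if_pos hqm, Finset.sum_comm] at h0
  have h2 : (∑ y ∈ Λ \ Z, ∑ x ∈ Λ \ Z, if (OG O').Adj x y then f y * g x else 0)
      = ∑ x ∈ Λ \ Z, ∑ y ∈ Λ \ Z, if (OG O).Adj x y then f x * g y else 0 :=
    Finset.sum_congr rfl fun x hx' => Finset.sum_congr rfl fun y hy =>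
      if_congr (hadj x hx' y hy).symm rfl rfl
  rw [h2, sub_self, zero_add] at h0
  exact ((gr_tau_mono hx).injective
    (sub_eq_zero.1 ((mul_eq_zero.1 h0).resolve_right f3))).symm

end Pool.Agent.P.MP_d74cc6_pr
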