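import Pool.Agent.P.MP_d74cc6_pr.Green2
import Pool.Agent.P.MP_d74cc6_pr.Green3

/-! Green function estimates and the consistency lemma. -/

open Matrix

namespace Pool.Agent.P.MP_d74cc6_pr

variable {d : ℕ}

theorem FP_of_alive {Λ I R W : Finset (V d)} {O : Sym2 (V d) → Prop} {x₀ : ℝ} (hx : 2 * d < x₀)
    {q : V d} (h : ¬ dead Λ I R O x₀ q) (hW : ∀ w ∈ W, dead Λ I R O x₀ w) :
    FP Λ I W O x₀ q :=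
  gr_FP hx h hW

theorem exists_GP {Λ I R : Finset (V d)} {O : Sym2 (V d) → Prop} {x₀ : ℝ} {D : ℕ}
    (hx : 2 * d + (2 * d) ^ (D + 1) < x₀) {τ : Type*} (T : Finset τ) (q w : τ → V d)
    (hwalk : ∀ t ∈ T, Wk O Λ D (q t) (w t))
    (hsep : ∀ t ∈ T, ∀ t' ∈ T, t ≠ t' → ∃ i, (D : ℤ) < |q t i - w t' i|)
    (hdead : ∀ t ∈ T, dead Λ I R O x₀ (w t)) :
    ∃ Q ⊆ T, T.card ≤ Q.card + rk Λ I R O x₀ ∧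
      ∀ t ∈ Q, GP Λ I (T.image w) (Q.image q) O x₀ (q t) :=
  gr_GP hx T q w hwalk hsep hdead

theorem consistent {Λ I W Q : Finset (V d)} {O O' : Sym2 (V d) → Prop} {x₀ : ℝ} (hx : 2 < x₀)
    {l : Fin d} {M : ℕ} {θ θ' : V d → ℕ} (hθ : ∀ v ∈ Q, θ v < M) (hθ' : ∀ v ∈ Q, θ' v < M)
    (hΛ : ∀ v ∈ Q, ∀ i ≤ M, zv l v i ∈ Λ)
    (hinj : ∀ v ∈ Q, ∀ v' ∈ Q, ∀ i ≤ M, ∀ i' ≤ M, zv l v i = zv l v' i' → v = v')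
    (hIW : ∀ v ∈ Q, ∀ i, 1 ≤ i → i ≤ M → zv l v i ∉ I ∧ zv l v i ∉ W)
    (hO : ∀ v ∈ Q, Zone O l M v (θ v)) (hO' : ∀ v ∈ Q, Zone O' l M v (θ' v))
    (hag : ∀ a b, (∀ v ∈ Q, ∀ i, 1 ≤ i → i ≤ M → a ≠ zv l v i ∧ b ≠ zv l v i) →
      (O s(a, b) ↔ O' s(a, b)))
    {q : V d} (hq : q ∈ Q) (hg : GP Λ I W Q O x₀ q) (hf : FP Λ I W O' x₀ q) : θ q = θ' q :=
  gr_consistent hx hθ hθ' hΛ hinj hIW hO hO' hag hq hg hf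

end Pool.Agent.P.MP_d74cc6_pr
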