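import Pool.Agent.P.MP_d74cc6_pr.Op

/-! Green function estimates: maximum principle, positivity, decay. -/

open Matrix

namespace Pool.Agent.P.MP_d74cc6_pr

variable {d : ℕ}

/-- extension by zero -/
noncomputable def gr_ext (Λ : Finset (V d)) (g : Λ → ℝ) : V d → ℝ :=
  fun x => if h : x ∈ Λ then g ⟨x, h⟩ else 0

theorem gr_ext_mem {Λ : Finset (V d)} (g : Λ → ℝ) {x : V d} (h : x ∈ Λ) :
    gr_ext Λ g x = g ⟨x, h⟩ := by simp [gr_ext, h]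

theorem gr_ext_not {Λ : Finset (V d)} (g : Λ → ℝ) {x : V d} (h : x ∉ Λ) :
    gr_ext Λ g x = 0 := by simp [gr_ext, h]

theorem gr_H_apply (Λ : Finset (V d)) (O : Sym2 (V d) → Prop) (x₀ : ℝ) (g : Λ → ℝ) (x : Λ) :
    ((x₀ • (1 : Matrix Λ Λ ℝ) - AM Λ O) *ᵥ g) x = x₀ * g x - ∑ y, AM Λ O x y * g y := by
  rw [sub_mulVec, smul_mulVec, one_mulVec]
  rfl

theorem gr_Hop_ext (Λ : Finset (V d)) (O : Sym2 (V d) → Prop) (x₀ : ℝ) (g : Λ → ℝ) {x : V d}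
    (h : x ∈ Λ) :
    Hop Λ O x₀ (gr_ext Λ g) x = ((x₀ • (1 : Matrix Λ Λ ℝ) - AM Λ O) *ᵥ g) ⟨x, h⟩ := by
  classical
  rw [gr_H_apply, Hop, gr_ext_mem g h, ← Finset.sum_coe_sort Λ]
  congr 1
  refine Finset.sum_congr rfl fun y _ => ?_
  simp only [AM, gr_ext_mem g y.2]
  split_ifs <;> simp

theorem gr_Hop_G (Λ : Finset (V d)) (O : Sym2 (V d) → Prop) {x₀ : ℝ} (hx : 2 * d < x₀)
    (φ : Λ → ℝ) {x : V d} (h : x ∈ Λ) :
    Hop Λ O x₀ (gr_ext Λ (Gm Λ O x₀ *ᵥ φ)) x = φ ⟨x, h⟩ := by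
  rw [gr_Hop_ext _ _ _ _ h, mulVec_mulVec, H_mul_Gm Λ O hx, one_mulVec]

theorem gr_Gm_symm (Λ : Finset (V d)) (O : Sym2 (V d) → Prop) (x₀ : ℝ) (x y : Λ) :
    Gm Λ O x₀ x y = Gm Λ O x₀ y x := by
  have h : (Gm Λ O x₀)ᵀ = Gm Λ O x₀ := by
    rw [Gm, transpose_nonsing_inv, transpose_sub, transpose_smul, transpose_one, (AM_symm Λ O).eq]
  exact (congrFun (congrFun h x) y).symm

/-- the equation satisfied by `G φ` -/
theorem gr_eq (Λ : Finset (V d)) (O : Sym2 (V d) → Prop) {x₀ : ℝ} (hx : 2 * d < x₀)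
    (φ : Λ → ℝ) (x : Λ) :
    x₀ * (Gm Λ O x₀ *ᵥ φ) x = φ x + ∑ y, AM Λ O x y * (Gm Λ O x₀ *ᵥ φ) y := by
  have := gr_H_apply Λ O x₀ (Gm Λ O x₀ *ᵥ φ) x
  rw [mulVec_mulVec, H_mul_Gm Λ O hx, one_mulVec] at this
  linarith

/-- maximum principle, upper form -/
theorem gr_max (Λ : Finset (V d)) (O : Sym2 (V d) → Prop) {x₀ : ℝ} (hx : 2 * d < x₀)
    (φ : Λ → ℝ) {b : ℝ} (hb : 0 ≤ b) (hφ : ∀ x, φ x ≤ b) (x : Λ) :
    (Gm Λ O x₀ *ᵥ φ) x ≤ b / (x₀ - 2 * d) := by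
  set u := Gm Λ O x₀ *ᵥ φ with hu
  obtain ⟨m, -, hm⟩ := Finset.exists_max_image Finset.univ u ⟨x, Finset.mem_univ _⟩
  refine (hm x (Finset.mem_univ _)).trans ?_
  have hpos : 0 < x₀ - 2 * d := by linarith
  by_cases h0 : u m ≤ 0
  · exact h0.trans (div_nonneg hb hpos.le)
  push Not at h0
  have h1 := gr_eq Λ O hx φ m
  rw [← hu] at h1
  have h2 : ∑ y, AM Λ O m y * u y ≤ ∑ y, AM Λ O m y * u m :=
    Finset.sum_le_sum fun y _ =>
      mul_le_mul_of_nonneg_left (hm y (Finset.mem_univ _)) (AM_nonneg Λ O m y)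
  rw [← Finset.sum_mul] at h2
  have h3 := mul_le_mul_of_nonneg_right (sum_AM_le Λ O m) h0.le
  rw [le_div_iff₀ hpos]
  have := hφ m
  nlinarith

theorem gr_nonneg (Λ : Finset (V d)) (O : Sym2 (V d) → Prop) {x₀ : ℝ} (hx : 2 * d < x₀)
    (φ : Λ → ℝ) (hφ : ∀ x, 0 ≤ φ x) (x : Λ) : 0 ≤ (Gm Λ O x₀ *ᵥ φ) x := by
  have := gr_max Λ O hx (-φ) le_rfl (fun x => by simpa using hφ x) x
  rw [mulVec_neg] at this
  simpa using this

theorem gr_col (Λ : Finset (V d)) (O : Sym2 (V d) → Prop) (x₀ : ℝ) (x y : Λ) :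
    (Gm Λ O x₀ *ᵥ Pi.single y 1) x = Gm Λ O x₀ x y := by
  simp

theorem gr_Gm_nonneg (Λ : Finset (V d)) (O : Sym2 (V d) → Prop) {x₀ : ℝ} (hx : 2 * d < x₀)
    (x y : Λ) : 0 ≤ Gm Λ O x₀ x y := by
  rw [← gr_col]
  exact gr_nonneg Λ O hx _ (fun z => by rw [Pi.single_apply]; split_ifs <;> norm_num) x

/-- lower bound along open walks -/
theorem gr_lower (Λ : Finset (V d)) (O : Sym2 (V d) → Prop) {x₀ : ℝ} (hx : 2 * d < x₀)
    {n : ℕ} {x y : V d} (h : Wk O Λ n x y) :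
    (max x₀ 1)⁻¹ ^ (n + 1) ≤ Gm Λ O x₀ ⟨x, h.mem_left⟩ ⟨y, h.mem_right⟩ := by
  have h0 : (0 : ℝ) ≤ 2 * d := by positivity
  have hx0 : 0 < x₀ := by linarith
  have hm : 0 < max x₀ 1 := lt_max_of_lt_right one_pos
  have hr0 : 0 < (max x₀ 1)⁻¹ := inv_pos.2 hm
  have hr1 : (max x₀ 1)⁻¹ ≤ 1 := inv_le_one_of_one_le₀ (le_max_right _ _)
  have hr2 : x₀ * (max x₀ 1)⁻¹ ≤ 1 := by
    rw [← div_eq_mul_inv, div_le_one hm]; exact le_max_left _ _
  have key : ∀ a b : Λ, x₀ * Gm Λ O x₀ a b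
      = (Pi.single b 1 : Λ → ℝ) a + ∑ z, AM Λ O a z * Gm Λ O x₀ z b := fun a b => by
    simpa only [gr_col] using gr_eq Λ O hx (Pi.single b 1) a
  induction h with
  | @nil n x h =>
    have h1 := key ⟨x, h⟩ ⟨x, h⟩
    rw [Pi.single_eq_same] at h1
    have h2 : 0 ≤ ∑ z, AM Λ O ⟨x, h⟩ z * Gm Λ O x₀ z ⟨x, h⟩ :=
      Finset.sum_nonneg fun z _ => mul_nonneg (AM_nonneg _ _ _ _) (gr_Gm_nonneg _ _ hx _ _)
    have h3 : (max x₀ 1)⁻¹ ^ (n + 1) ≤ (max x₀ 1)⁻¹ := by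
      rw [pow_succ]
      exact mul_le_of_le_one_left hr0.le (pow_le_one₀ hr0.le hr1)
    refine h3.trans (le_of_mul_le_mul_left ?_ hx0)
    linarith
  | @cons n x y z h1 h2 h3 h4 ih =>
    have h5 := key ⟨x, h1⟩ ⟨z, h4.mem_right⟩
    have h6 : AM Λ O ⟨x, h1⟩ ⟨y, h4.mem_left⟩ = 1 := by
      have : (OG O).Adj x y := ⟨h2, h3⟩
      simp [AM, this]
    have h7 := Finset.single_le_sum
      (f := fun w => AM Λ O ⟨x, h1⟩ w * Gm Λ O x₀ w ⟨z, h4.mem_right⟩)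
      (fun w _ => mul_nonneg (AM_nonneg _ _ _ _) (gr_Gm_nonneg _ _ hx _ _))
      (Finset.mem_univ ⟨y, h4.mem_left⟩)
    simp only [h6, one_mul] at h7
    have h8 : (0 : ℝ) ≤ (Pi.single ⟨z, h4.mem_right⟩ 1 : Λ → ℝ) ⟨x, h1⟩ := by
      rw [Pi.single_apply]; split_ifs <;> norm_num
    refine le_of_mul_le_mul_left ?_ hx0
    have h9 : x₀ * (max x₀ 1)⁻¹ ^ (n + 1 + 1) ≤ (max x₀ 1)⁻¹ ^ (n + 1) := by
      rw [pow_succ' _ (n + 1), ← mul_assoc]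
      exact mul_le_of_le_one_left (pow_nonneg hr0.le _) hr2
    linarith

/-- decay away from the sources -/
theorem gr_decay (Λ : Finset (V d)) (O : Sym2 (V d) → Prop) {x₀ : ℝ} (hx : 2 * d < x₀)
    (φ : Λ → ℝ) (hφ1 : ∀ x, φ x ≤ 1) (n : ℕ) (x : Λ)
    (hsep : ∀ w : Λ, φ w ≠ 0 → ∃ i, (n : ℤ) ≤ |x.1 i - w.1 i|) :
    (Gm Λ O x₀ *ᵥ φ) x ≤ (2 * d / x₀) ^ n * (1 / (x₀ - 2 * d)) := by
  have h0 : (0 : ℝ) ≤ 2 * d := by positivity
  have hx0 : 0 < x₀ := by linarith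
  have hpos : 0 < x₀ - 2 * d := by linarith
  induction n generalizing x with
  | zero => simpa using gr_max Λ O hx φ zero_le_one hφ1 x
  | succ n ih =>
    have h1 := gr_eq Λ O hx φ x
    have h2 : φ x = 0 := by
      by_contra h
      obtain ⟨i, hi⟩ := hsep x h
      simp only [sub_self, abs_zero] at hi
      omega
    set B := (2 * d / x₀) ^ n * (1 / (x₀ - 2 * d)) with hB
    have hB0 : 0 ≤ B := by positivity
    have h3 : ∑ y, AM Λ O x y * (Gm Λ O x₀ *ᵥ φ) y ≤ ∑ y, AM Λ O x y * B := by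
      refine Finset.sum_le_sum fun y _ => ?_
      by_cases h : AM Λ O x y = 0
      · simp [h]
      refine mul_le_mul_of_nonneg_left (ih y fun w hw => ?_) (AM_nonneg _ _ _ _)
      obtain ⟨i, hi⟩ := hsep w hw
      refine ⟨i, ?_⟩
      have h4 := abs_sub_le_one_of_adj (AM_ne_zero h) i
      have h5 := abs_sub_le (x.1 i) (y.1 i) (w.1 i)
      rw [abs_sub_comm (x.1 i) (y.1 i)] at h5
      push_cast at hi
      omega
    rw [← Finset.sum_mul] at h3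
    have h4 := mul_le_mul_of_nonneg_right (sum_AM_le Λ O x) hB0
    refine le_of_mul_le_mul_left ?_ hx0
    have h5 : x₀ * ((2 * d / x₀) ^ (n + 1) * (1 / (x₀ - 2 * d))) = 2 * d * B := by
      rw [hB, pow_succ]; field_simp
    linarith

/-- a subspace of functions contains a dual family to a large set of coordinates -/
theorem gr_extract {ι : Type*} [Fintype ι] [DecidableEq ι] (N : Submodule ℝ (ι → ℝ)) :
    ∃ Q : Finset ι, Module.finrank ℝ N ≤ Q.card ∧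
      ∀ t ∈ Q, ∃ n ∈ N, ∀ t' ∈ Q, n t' = if t' = t then 1 else 0 := by
  classical
  let P : Finset ι → Prop := fun Q => ∀ t ∈ Q, ∃ n ∈ N, ∀ t' ∈ Q, n t' = if t' = t then 1 else 0
  obtain ⟨Q, hQ, hmax⟩ := Finset.exists_max_image (Finset.univ.filter P) Finset.card
    ⟨∅, by simp [P]⟩
  have hP : P Q := (Finset.mem_filter.1 hQ).2
  refine ⟨Q, ?_, hP⟩
  let ρ : N →ₗ[ℝ] (Q → ℝ) := (LinearMap.funLeft ℝ ℝ (fun t : Q => t.1)).comp N.subtype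
  have hinj : Function.Injective ρ := by
    rw [injective_iff_map_eq_zero]
    intro n hn
    have hn0 : ∀ t ∈ Q, n.1 t = 0 := fun t ht => congrFun hn ⟨t, ht⟩
    by_contra hne
    obtain ⟨s, hs⟩ : ∃ s, n.1 s ≠ 0 := by
      by_contra hall
      push Not at hall
      exact hne (Subtype.ext (funext hall))
    have hsQ : s ∉ Q := fun h => hs (hn0 s h)
    have hP' : P (insert s Q) := by
      intro t ht
      rcases Finset.mem_insert.1 ht with rfl | htQ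
      · refine ⟨(n.1 t)⁻¹ • n.1, N.smul_mem _ n.2, fun t' ht' => ?_⟩
        rcases Finset.mem_insert.1 ht' with rfl | ht'
        · simp [hs]
        · have : t' ≠ t := fun e => hsQ (e ▸ ht')
          simp [this, hn0 t' ht']
      · obtain ⟨m, hm, hm'⟩ := hP t htQ
        refine ⟨m - (m s * (n.1 s)⁻¹) • n.1, N.sub_mem hm (N.smul_mem _ n.2), fun t' ht' => ?_⟩
        rcases Finset.mem_insert.1 ht' with rfl | ht'
        · have : t' ≠ t := fun e => hsQ (by rw [e]; exact htQ)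
          simp [this, hs]
        · simp [hn0 t' ht', hm' t' ht']
    have := hmax _ (Finset.mem_filter.2 ⟨Finset.mem_univ _, hP'⟩)
    rw [Finset.card_insert_of_notMem hsQ] at this
    omega
  simpa using LinearMap.finrank_le_finrank_of_injective hinj

end Pool.Agent.P.MP_d74cc6_pr
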