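import Pool.Agent.P.MP_d74cc6_pr.Green1

/-! Construction of the two kinds of solutions. -/

open Matrix

namespace Pool.Agent.P.MP_d74cc6_pr

variable {d : ℕ}

theorem gr_gam_off {Λ I : Finset (V d)} {O : Sym2 (V d) → Prop} {x₀ : ℝ} (v : V d) {x : Λ}
    (h : x.1 ∉ I) : gam Λ I O x₀ v x = 0 := by simp [gam, h]

theorem gr_gam_on {Λ I : Finset (V d)} {O : Sym2 (V d) → Prop} {x₀ : ℝ} {v : V d} (hv : v ∈ Λ)
    {x : Λ} (h : x.1 ∈ I) : gam Λ I O x₀ v x = Gm Λ O x₀ x ⟨v, hv⟩ := by simp [gam, h, hv]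

theorem gr_FP {Λ I R W : Finset (V d)} {O : Sym2 (V d) → Prop} {x₀ : ℝ} (hx : 2 * d < x₀)
    {q : V d} (h : ¬ dead Λ I R O x₀ q) (hW : ∀ w ∈ W, dead Λ I R O x₀ w) :
    FP Λ I W O x₀ q := by
  classical
  obtain ⟨L, hL, hL'⟩ := Submodule.exists_dual_map_eq_bot_of_notMem h inferInstance
  have hL0 : ∀ g ∈ Gam Λ I R O x₀, L g = 0 := fun g hg => by
    have : L g ∈ (Gam Λ I R O x₀).map L := Submodule.mem_map_of_mem hg
    rwa [hL', Submodule.mem_bot] at this
  let φ : Λ → ℝ := fun x => if x.1 ∈ I then L (Pi.single x 1) else 0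
  have key : ∀ v, gr_ext Λ (Gm Λ O x₀ *ᵥ φ) v = L (gam Λ I O x₀ v) := by
    intro v
    by_cases hv : v ∈ Λ
    · rw [gr_ext_mem _ hv, LinearMap.pi_apply_eq_sum_univ L]
      simp only [mulVec, dotProduct]
      refine Finset.sum_congr rfl fun x _ => ?_
      have e : (fun j => if x = j then (1 : ℝ) else 0) = Pi.single x 1 := by
        ext j; rw [Pi.single_apply]; simp only [eq_comm]
      by_cases hI : x.1 ∈ I
      · rw [gr_gam_on hv hI, e, gr_Gm_symm]
        simp [φ, hI]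
      · rw [gr_gam_off v hI]
        simp [φ, hI]
    · have : gam Λ I O x₀ v = 0 := by ext x; simp [gam, hv]
      rw [gr_ext_not _ hv, this, map_zero]
  refine ⟨gr_ext Λ (Gm Λ O x₀ *ᵥ φ), fun x hx' hI => ?_, fun w hw => ?_, ?_⟩
  · rw [gr_Hop_G Λ O hx φ hx']
    simp [φ, hI]
  · rw [key]; exact hL0 _ (hW w hw)
  · rw [key]; exact hL

theorem gr_numeric {x₀ : ℝ} {D : ℕ} (hx : 2 * d + (2 * d) ^ (D + 1) < x₀) :
    (2 * d / x₀) ^ (D + 1) * (1 / (x₀ - 2 * d)) < (max x₀ 1)⁻¹ ^ (D + 1) := by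
  have h0 : (0 : ℝ) ≤ 2 * d := by positivity
  have h1 : (0 : ℝ) ≤ (2 * d) ^ (D + 1) := by positivity
  have hpos : 0 < x₀ - 2 * d := by linarith
  have hx0 : 0 < x₀ := by linarith
  rcases Nat.eq_zero_or_pos d with rfl | hd
  · have : 0 < max x₀ 1 := lt_max_of_lt_right one_pos
    simp only [Nat.cast_zero, mul_zero, zero_div, ne_eq, Nat.add_eq_zero_iff, one_ne_zero,
      and_false, not_false_eq_true, zero_pow, zero_mul]
    positivity
  · have h2 : (1 : ℝ) ≤ d := by exact_mod_cast hd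
    rw [max_eq_left (by linarith), div_eq_mul_inv, mul_pow, mul_right_comm]
    refine mul_lt_of_lt_one_left (by positivity) ?_
    rw [mul_one_div, div_lt_one hpos]
    linarith

theorem gr_GP {Λ I R : Finset (V d)} {O : Sym2 (V d) → Prop} {x₀ : ℝ} {D : ℕ}
    (hx : 2 * d + (2 * d) ^ (D + 1) < x₀) {τ : Type*} (T : Finset τ) (q w : τ → V d)
    (hwalk : ∀ t ∈ T, Wk O Λ D (q t) (w t))
    (hsep : ∀ t ∈ T, ∀ t' ∈ T, t ≠ t' → ∃ i, (D : ℤ) < |q t i - w t' i|)
    (hdead : ∀ t ∈ T, dead Λ I R O x₀ (w t)) :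
    ∃ Q ⊆ T, T.card ≤ Q.card + rk Λ I R O x₀ ∧
      ∀ t ∈ Q, GP Λ I (T.image w) (Q.image q) O x₀ (q t) := by
  classical
  have h1 : (0 : ℝ) ≤ (2 * d) ^ (D + 1) := by positivity
  have hx' : 2 * d < x₀ := by linarith
  let qq : T → Λ := fun t => ⟨q t, (hwalk t t.2).mem_left⟩
  let ww : T → Λ := fun t => ⟨w t, (hwalk t t.2).mem_right⟩
  have hww : Function.Injective ww := fun t t' h => by
    by_contra hne
    obtain ⟨i, hi⟩ := hsep t t.2 t' t'.2 fun e => hne (Subtype.ext e)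
    have h2 := (hwalk t t.2).abs_sub_le i
    have h3 : w t = w t' := congrArg Subtype.val h
    rw [← h3, abs_sub_comm] at hi
    omega
  -- the matrix of the values
  let K : Matrix T T ℝ := fun t t' => Gm Λ O x₀ (qq t) (ww t')
  have hK : K.det ≠ 0 := by
    refine det_ne_zero_of_sum_row_lt_diag fun t => ?_
    let φ : Λ → ℝ := ∑ t' ∈ Finset.univ.erase t, Pi.single (ww t') 1
    have hφ : ∀ x, φ x = if ∃ t' ∈ Finset.univ.erase t, ww t' = x then 1 else 0 := by
      intro x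
      simp only [φ, Finset.sum_apply]
      split_ifs with h
      · obtain ⟨t', ht', rfl⟩ := h
        rw [Finset.sum_eq_single_of_mem t' ht']
        · simp
        · intro b _ hb
          rw [Pi.single_eq_of_ne (hww.ne hb.symm)]
      · refine Finset.sum_eq_zero fun b hb => ?_
        rw [Pi.single_eq_of_ne fun e => h ⟨b, hb, e.symm⟩]
    have h2 := gr_decay Λ O hx' φ (fun x => by rw [hφ]; split_ifs <;> norm_num) (D + 1) (qq t)
      (fun x hx0 => by
        rw [hφ] at hx0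
        split_ifs at hx0 with h
        · obtain ⟨t', ht', rfl⟩ := h
          obtain ⟨i, hi⟩ := hsep t t.2 t' t'.2
            fun e => (Finset.ne_of_mem_erase ht') (Subtype.ext e.symm)
          exact ⟨i, by push_cast; exact hi⟩
        · exact absurd rfl hx0)
    have h3 : (Gm Λ O x₀ *ᵥ φ) (qq t) = ∑ t' ∈ Finset.univ.erase t, ‖K t t'‖ := by
      simp only [φ, mulVec_sum, Finset.sum_apply, gr_col]
      refine Finset.sum_congr rfl fun t' _ => ?_
      rw [Real.norm_eq_abs, abs_of_nonneg (gr_Gm_nonneg Λ O hx' _ _)]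
    have h4 := gr_lower Λ O hx' (hwalk t t.2)
    rw [← h3, Real.norm_eq_abs, abs_of_nonneg (gr_Gm_nonneg Λ O hx' _ _)]
    exact (h2.trans_lt (gr_numeric hx)).trans_le h4
  have hKinj : Function.Injective K.mulVecLin := by
    rw [injective_iff_map_eq_zero]
    exact fun c hc => eq_zero_of_mulVec_eq_zero hK hc
  let Φ : (T → ℝ) →ₗ[ℝ] (Λ → ℝ) := Fintype.linearCombination ℝ fun t : T => gam Λ I O x₀ (w t)
  have hΦ : LinearMap.range Φ ≤ Gam Λ I R O x₀ := by
    rw [Fintype.range_linearCombination, Submodule.span_le]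
    rintro _ ⟨t, rfl⟩
    exact hdead t t.2
  have hdim := LinearMap.finrank_range_add_finrank_ker Φ
  have hle := Submodule.finrank_mono hΦ
  obtain ⟨Q, hQ, hQ'⟩ := gr_extract ((LinearMap.ker Φ).map K.mulVecLin)
  rw [← (Submodule.equivMapOfInjective _ hKinj (LinearMap.ker Φ)).finrank_eq] at hQ
  refine ⟨Q.map (Function.Embedding.subtype _), fun t ht => ?_, ?_, fun t ht => ?_⟩
  · obtain ⟨s, -, rfl⟩ := Finset.mem_map.1 ht
    exact s.2
  · rw [Finset.card_map]
    simp only [Module.finrank_fintype_fun_eq_card, Fintype.card_coe] at hdim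
    unfold rk
    omega
  · obtain ⟨s, hs, rfl⟩ := Finset.mem_map.1 ht
    obtain ⟨_, ⟨c, hc, rfl⟩, hn⟩ := hQ' s hs
    have hc0 : Φ c = 0 := hc
    let φ : Λ → ℝ := ∑ t', c t' • Pi.single (ww t') 1
    have hG : ∀ x, (Gm Λ O x₀ *ᵥ φ) x = ∑ t', c t' * Gm Λ O x₀ x (ww t') := fun x => by
      simp only [φ, mulVec_sum, Finset.sum_apply, mulVec_smul, Pi.smul_apply, gr_col, smul_eq_mul]
    have hq : ∀ t' : T, gr_ext Λ (Gm Λ O x₀ *ᵥ φ) (q t') = K.mulVecLin c t' := fun t' => by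
      rw [gr_ext_mem _ (hwalk t' t'.2).mem_left, hG]
      simp only [mulVecLin_apply, mulVec, dotProduct, K, mul_comm]
      rfl
    refine ⟨gr_ext Λ (Gm Λ O x₀ *ᵥ φ), fun x hxΛ hxW => ?_, fun x hxI => ?_, ?_, ?_⟩
    · rw [gr_Hop_G Λ O hx' φ hxΛ]
      simp only [φ, Finset.sum_apply]
      refine Finset.sum_eq_zero fun t' _ => ?_
      rw [Pi.smul_apply, Pi.single_eq_of_ne, smul_zero]
      intro e
      exact hxW (Finset.mem_image.2 ⟨t', t'.2, (congrArg Subtype.val e).symm⟩)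
    · by_cases hxΛ : x ∈ Λ
      · rw [gr_ext_mem _ hxΛ, hG]
        have := congrFun hc0 ⟨x, hxΛ⟩
        simp only [Φ, Fintype.linearCombination_apply, Finset.sum_apply, Pi.smul_apply,
          smul_eq_mul, Pi.zero_apply] at this
        rw [← this]
        refine Finset.sum_congr rfl fun t' _ => ?_
        rw [gr_gam_on (hwalk t' t'.2).mem_right hxI]
      · exact gr_ext_not _ hxΛ
    · have := hn s hs
      rw [if_pos rfl] at this
      exact (hq s).trans this
    · intro q' hq' hne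
      obtain ⟨t', ht', rfl⟩ := Finset.mem_image.1 hq'
      obtain ⟨s', hs', rfl⟩ := Finset.mem_map.1 ht'
      have := hn s' hs'
      rw [if_neg fun e => hne (by rw [e])] at this
      exact (hq s').trans this

end Pool.Agent.P.MP_d74cc6_pr
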