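import Pool.Agent.P.MP_d74cc6_pr.Prob

/-! The cubic lattice, boxes and open walks. -/

namespace Pool.Agent.P.MP_d74cc6_pr

/-- vertices of the cubic lattice -/
abbrev V (d : ℕ) := Fin d → ℤ

variable {d : ℕ}

/-- unit vector -/
def ev (i : Fin d) : V d := Pi.single i 1

/-- the cubic lattice -/
def lat (d : ℕ) : SimpleGraph (V d) := SimpleGraph.fromRel fun x y => ∃ i, y = x + ev i

theorem ev_apply (i j : Fin d) : ev i j = if j = i then 1 else 0 := by
  simp [ev, Pi.single_apply]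

@[simp] theorem ev_self (i : Fin d) : ev i i = 1 := by simp [ev]

theorem ev_ne {i j : Fin d} (h : j ≠ i) : ev i j = 0 := by simp [ev, h]

theorem lat_adj {x y : V d} : (lat d).Adj x y ↔ ∃ i, y = x + ev i ∨ y = x - ev i := by
  simp only [lat, SimpleGraph.fromRel_adj]
  constructor
  · rintro ⟨-, ⟨i, h⟩ | ⟨i, h⟩⟩
    · exact ⟨i, Or.inl h⟩
    · exact ⟨i, Or.inr (by rw [h]; abel)⟩
  · rintro ⟨i, h | h⟩
    · refine ⟨fun e => ?_, Or.inl ⟨i, h⟩⟩
      have := congrFun (e.trans h) i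
      simp at this
    · refine ⟨fun e => ?_, Or.inr ⟨i, by rw [h]; abel⟩⟩
      have := congrFun (e.trans h) i
      simp only [Pi.sub_apply, ev_self] at this
      omega

theorem lat_adj_add (x : V d) (i : Fin d) : (lat d).Adj x (x + ev i) := lat_adj.2 ⟨i, Or.inl rfl⟩
theorem lat_adj_sub (x : V d) (i : Fin d) : (lat d).Adj x (x - ev i) := lat_adj.2 ⟨i, Or.inr rfl⟩

theorem abs_sub_le_one_of_adj {x y : V d} (h : (lat d).Adj x y) (i : Fin d) : |y i - x i| ≤ 1 := by
  obtain ⟨j, rfl | rfl⟩ := lat_adj.1 h <;>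
    simp only [Pi.add_apply, Pi.sub_apply, ev_apply] <;> split_ifs <;> simp

/-- the lattice neighbours of a vertex -/
def nbr (x : V d) : Finset (V d) :=
  Finset.univ.image (fun i => x + ev i) ∪ Finset.univ.image (fun i => x - ev i)

theorem mem_nbr {x y : V d} : y ∈ nbr x ↔ (lat d).Adj x y := by
  simp only [nbr, Finset.mem_union, Finset.mem_image, Finset.mem_univ, true_and, lat_adj,
    exists_or, eq_comm]

theorem card_nbr_le (x : V d) : (nbr x).card ≤ 2 * d := by
  refine (Finset.card_union_le _ _).trans ?_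
  have h1 := Finset.card_image_le (s := Finset.univ) (f := fun i : Fin d => x + ev i)
  have h2 := Finset.card_image_le (s := Finset.univ) (f := fun i : Fin d => x - ev i)
  simp only [Finset.card_univ, Fintype.card_fin] at h1 h2
  omega

/-- the box of radius `n` around `c` -/
noncomputable def box (c : V d) (n : ℕ) : Finset (V d) :=
  Fintype.piFinset fun i => Finset.Icc (c i - n) (c i + n)

theorem mem_box {c y : V d} {n : ℕ} : y ∈ box c n ↔ ∀ i, |y i - c i| ≤ n := by
  simp only [box, Fintype.mem_piFinset, Finset.mem_Icc, abs_le]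
  exact forall_congr' fun i => by constructor <;> rintro ⟨h1, h2⟩ <;> constructor <;> omega

theorem card_box (c : V d) (n : ℕ) : (box c n).card = (2 * n + 1) ^ d := by
  simp only [box, Fintype.card_piFinset, Int.card_Icc]
  rw [Finset.prod_congr rfl (g := fun _ => 2 * n + 1) fun i _ => by omega]
  simp

theorem self_mem_box (c : V d) (n : ℕ) : c ∈ box c n := mem_box.2 fun i => by simp

theorem box_subset {c c' : V d} {n n' : ℕ} (h : ∀ i, |c i - c' i| + n ≤ n') :
    box c n ⊆ box c' n' := fun y hy => mem_box.2 fun i => by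
  have h1 := mem_box.1 hy i
  have h2 := h i
  have := abs_sub_le (y i) (c i) (c' i)
  omega

theorem box_mono (c : V d) {n n' : ℕ} (h : n ≤ n') : box c n ⊆ box c n' :=
  box_subset fun i => by simpa using h

theorem box_disjoint {c c' : V d} {n n' : ℕ} (i : Fin d) (h : (n : ℤ) + n' < |c i - c' i|) :
    Disjoint (box c n : Set (V d)) (box c' n') := by
  rw [Set.disjoint_left]
  intro y h1 h2
  have h1 := mem_box.1 h1 i
  have h2 := mem_box.1 h2 i
  have := abs_sub_le (c i) (y i) (c' i)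
  rw [abs_sub_comm (c i) (y i)] at this
  omega

/-- pairs inside a set of vertices -/
def EIn (R : Set (V d)) : Set (Sym2 (V d)) := {e | ∀ v ∈ e, v ∈ R}

/-- lattice edges touching a set of vertices -/
def ETo (C : Set (V d)) : Set (Sym2 (V d)) := {e | e ∈ (lat d).edgeSet ∧ ∃ v ∈ e, v ∈ C}

@[simp] theorem mk_mem_EIn {R : Set (V d)} {x y : V d} : s(x, y) ∈ EIn R ↔ x ∈ R ∧ y ∈ R := by
  simp [EIn]

@[simp] theorem mk_mem_ETo {C : Set (V d)} {x y : V d} :
    s(x, y) ∈ ETo C ↔ (lat d).Adj x y ∧ (x ∈ C ∨ y ∈ C) := by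
  simp [ETo]

theorem EIn_mono {R R' : Set (V d)} (h : R ⊆ R') : EIn R ⊆ EIn R' := fun _ he v hv => h (he v hv)

theorem ETo_mono {C C' : Set (V d)} (h : C ⊆ C') : ETo C ⊆ ETo C' :=
  fun _ ⟨he, v, hv, h'⟩ => ⟨he, v, hv, h h'⟩

theorem EIn_finite {R : Set (V d)} (h : R.Finite) : (EIn R).Finite := by
  refine ((h.prod h).image fun p => s(p.1, p.2)).subset fun e he => ?_
  induction e using Sym2.ind with
  | _ x y => exact ⟨(x, y), mk_mem_EIn.1 he, rfl⟩

theorem ETo_finite {C : Set (V d)} (h : C.Finite) : (ETo C).Finite := by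
  refine (h.biUnion fun x _ => (nbr x).finite_toSet.image fun y => s(x, y)).subset fun e he => ?_
  induction e using Sym2.ind with
  | _ x y =>
    obtain ⟨h1, h2 | h2⟩ := mk_mem_ETo.1 he
    · exact Set.mem_biUnion h2 ⟨y, mem_nbr.2 h1, rfl⟩
    · exact Set.mem_biUnion h2 ⟨x, mem_nbr.2 h1.symm, Sym2.eq_swap⟩

theorem EIn_disjoint {R R' : Set (V d)} (h : Disjoint R R') : Disjoint (EIn R) (EIn R') := by
  rw [Set.disjoint_left] at h ⊢
  intro e h1 h2
  induction e using Sym2.ind with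
  | _ x y => exact h (mk_mem_EIn.1 h1).1 (mk_mem_EIn.1 h2).1

theorem EIn_ETo_disjoint {R C : Set (V d)} (h : Disjoint R C) : Disjoint (EIn R) (ETo C) := by
  rw [Set.disjoint_left] at h ⊢
  rintro e h1 ⟨-, v, hv, h2⟩
  exact h (h1 v hv) h2

/-- `Wk O R n x y`: there is a lattice walk from `x` to `y` with at most `n` steps, all vertices
in `R`, all edges in `O` -/
inductive Wk (O : Sym2 (V d) → Prop) (R : Set (V d)) : ℕ → V d → V d → Prop
  | nil (n : ℕ) {x : V d} : x ∈ R → Wk O R n x x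
  | cons {n : ℕ} {x y z : V d} :
      x ∈ R → (lat d).Adj x y → O s(x, y) → Wk O R n y z → Wk O R (n + 1) x z

/-- open connection inside `R` -/
def Cn (O : Sym2 (V d) → Prop) (R : Set (V d)) (x y : V d) : Prop := ∃ n, Wk O R n x y

/-- open connection inside `R` between two sets -/
def SCn (O : Sym2 (V d) → Prop) (R A B : Set (V d)) : Prop := ∃ x ∈ A, ∃ y ∈ B, Cn O R x y

/-- the open pairs of a configuration -/
def op {ι : Type*} (ω : ι → Bool) : ι → Prop := fun e => ω e = true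

section Walks

variable {O O' : Sym2 (V d) → Prop} {R R' : Set (V d)} {n m : ℕ} {x y z : V d}

theorem Wk.mem_left (h : Wk O R n x y) : x ∈ R := by cases h <;> assumption

theorem Wk.mem_right (h : Wk O R n x y) : y ∈ R := by
  induction h with
  | nil _ h => exact h
  | cons _ _ _ _ ih => exact ih

theorem Wk.mono_len (h : Wk O R n x y) (hn : n ≤ m) : Wk O R m x y := by
  induction h generalizing m with
  | nil _ h => exact .nil _ h
  | cons h1 h2 h3 _ ih =>
    obtain ⟨m, rfl⟩ : ∃ k, m = k + 1 := ⟨m - 1, by omega⟩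
    exact .cons h1 h2 h3 (ih (by omega))

/-- only lattice edges inside `R` matter -/
theorem Wk.mono (h : Wk O R n x y) (hR : R ⊆ R')
    (hO : ∀ a b, a ∈ R → b ∈ R → (lat d).Adj a b → O s(a, b) → O' s(a, b)) : Wk O' R' n x y := by
  induction h with
  | nil _ h => exact .nil _ (hR h)
  | cons h1 h2 h3 h4 ih => exact .cons (hR h1) h2 (hO _ _ h1 h4.mem_left h2 h3) ih

theorem Wk.mono_set (h : Wk O R n x y) (hR : R ⊆ R') : Wk O R' n x y :=
  h.mono hR fun _ _ _ _ _ h => h

theorem Wk.trans (h : Wk O R n x y) (h' : Wk O R m y z) : Wk O R (n + m) x z := by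
  induction h with
  | nil _ h => exact h'.mono_len (by omega)
  | cons h1 h2 h3 _ ih => exact (Wk.cons h1 h2 h3 (ih h')).mono_len (by omega)

theorem Wk.single (hx : x ∈ R) (hy : y ∈ R) (h : (lat d).Adj x y) (hO : O s(x, y)) :
    Wk O R 1 x y := .cons hx h hO (.nil 0 hy)

theorem Wk.snoc (h : Wk O R n x y) (hz : z ∈ R) (h2 : (lat d).Adj y z) (h3 : O s(y, z)) :
    Wk O R (n + 1) x z := h.trans (.single h.mem_right hz h2 h3)

theorem Wk.symm (h : Wk O R n x y) : Wk O R n y x := by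
  induction h with
  | nil _ h => exact .nil _ h
  | cons h1 h2 h3 _ ih => exact ih.snoc h1 h2.symm (by rwa [Sym2.eq_swap])

theorem Wk.abs_sub_le (h : Wk O R n x y) (i : Fin d) : |y i - x i| ≤ n := by
  induction h with
  | nil _ h => simp
  | @cons n x y z h1 h2 h3 _ ih =>
    have := abs_sub_le_one_of_adj h2 i
    have := _root_.abs_sub_le (z i) (y i) (x i)
    omega

theorem Wk.cn (h : Wk O R n x y) : Cn O R x y := ⟨n, h⟩
theorem Cn.refl (h : x ∈ R) : Cn O R x x := ⟨0, .nil 0 h⟩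
theorem Cn.mem_left (h : Cn O R x y) : x ∈ R := let ⟨_, h⟩ := h; h.mem_left
theorem Cn.mem_right (h : Cn O R x y) : y ∈ R := let ⟨_, h⟩ := h; h.mem_right
theorem Cn.symm (h : Cn O R x y) : Cn O R y x := let ⟨n, h⟩ := h; ⟨n, h.symm⟩
theorem Cn.trans (h : Cn O R x y) (h' : Cn O R y z) : Cn O R x z :=
  let ⟨_, h⟩ := h; let ⟨_, h'⟩ := h'; ⟨_, h.trans h'⟩
theorem Cn.single (hx : x ∈ R) (hy : y ∈ R) (h : (lat d).Adj x y) (hO : O s(x, y)) :
    Cn O R x y := ⟨1, .single hx hy h hO⟩
theorem Cn.mono (h : Cn O R x y) (hR : R ⊆ R')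
    (hO : ∀ a b, a ∈ R → b ∈ R → (lat d).Adj a b → O s(a, b) → O' s(a, b)) : Cn O' R' x y :=
  let ⟨n, h⟩ := h; ⟨n, h.mono hR hO⟩
theorem Cn.mono_set (h : Cn O R x y) (hR : R ⊆ R') : Cn O R' x y :=
  let ⟨n, h⟩ := h; ⟨n, h.mono_set hR⟩

theorem SCn.mono {A A' B B' : Set (V d)} (h : SCn O R A B) (hR : R ⊆ R') (hA : A ⊆ A')
    (hB : B ⊆ B') (hO : ∀ a b, a ∈ R → b ∈ R → (lat d).Adj a b → O s(a, b) → O' s(a, b)) :
    SCn O' R' A' B' :=
  let ⟨x, hx, y, hy, h⟩ := h; ⟨x, hA hx, y, hB hy, h.mono hR hO⟩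

theorem SCn.symm {A B : Set (V d)} (h : SCn O R A B) : SCn O R B A :=
  let ⟨x, hx, y, hy, h⟩ := h; ⟨y, hy, x, hx, h.symm⟩

/-- a walk ending outside `C` either avoids `C` or leaves it a last time -/
theorem Wk.last_exit (h : Wk O R n x y) {C : Set (V d)} (hy : y ∉ C) :
    Wk O (R \ C) n x y ∨ ∃ a ∈ C, ∃ b, b ∉ C ∧ a ∈ R ∧ (lat d).Adj a b ∧ O s(a, b) ∧
      Cn O R x a ∧ Wk O (R \ C) n b y := by
  induction h with
  | nil _ h => exact Or.inl (.nil _ ⟨h, hy⟩)
  | @cons n x y z h1 h2 h3 h4 ih =>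
    rcases ih hy with h | ⟨a, ha, b, hb, h5, h6, h7, h8, h9⟩
    · by_cases hx : x ∈ C
      · exact Or.inr ⟨x, hx, y, h.mem_left.2, h1, h2, h3, .refl h1, h.mono_len (by omega)⟩
      · exact Or.inl (.cons ⟨h1, hx⟩ h2 h3 h)
    · exact Or.inr ⟨a, ha, b, hb, h5, h6, h7, (Cn.single h1 h4.mem_left h2 h3).trans h8,
        h9.mono_len (by omega)⟩

theorem Cn.last_exit (h : Cn O R x y) {C : Set (V d)} (hx : x ∈ C) (hy : y ∉ C) :
    ∃ a ∈ C, ∃ b, b ∉ C ∧ a ∈ R ∧ (lat d).Adj a b ∧ O s(a, b) ∧ Cn O R x a ∧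
      Cn O (R \ C) b y := by
  obtain ⟨n, h⟩ := h
  rcases h.last_exit hy with h | ⟨a, ha, b, hb, h5, h6, h7, h8, h9⟩
  · exact absurd hx h.mem_left.2
  · exact ⟨a, ha, b, hb, h5, h6, h7, h8, h9.cn⟩

theorem Cn.first_exit (h : Cn O R x y) {B : Set (V d)} (hx : x ∈ B) (hy : y ∉ B) :
    ∃ a ∈ B, ∃ b, b ∉ B ∧ b ∈ R ∧ (lat d).Adj a b ∧ O s(a, b) ∧ Cn O (R ∩ B) x a := by
  obtain ⟨b, hb, a, ha, h1, h2, h3, -, h5⟩ := h.symm.last_exit (C := Bᶜ) hy (by simpa using hx)
  refine ⟨a, by simpa using ha, b, hb, h1, h2.symm, by rwa [Sym2.eq_swap], ?_⟩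
  simpa [Set.sdiff_eq] using h5.symm

/-- loop erasure -/
theorem Cn.wk_card {R : Finset (V d)} (h : Cn O R x y) : Wk O R R.card x y := by
  classical
  induction R using Finset.strongInduction generalizing x with
  | _ R ih =>
    by_cases hxy : y = x
    · subst hxy; exact .nil _ h.mem_left
    have hx : x ∈ R := h.mem_left
    obtain ⟨a, ha, b, -, h1, h2, h3, -, h5⟩ := h.last_exit (C := {x}) rfl hxy
    obtain rfl : a = x := ha
    have := ih (R.erase a) (Finset.erase_ssubset hx) (x := b) (by simpa using h5)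
    rw [← Finset.card_erase_add_one hx]
    exact .cons h1 h2 h3 (this.mono_set (by simp))

/-- inside a fully open box all points are joined -/
theorem wk_of_open_box {c : V d} {n : ℕ}
    (hO : ∀ a b, a ∈ box c n → b ∈ box c n → (lat d).Adj a b → O s(a, b)) (hx : x ∈ box c n) :
    Wk O (box c n) (d * n) x c := by
  have key : ∀ (k : ℕ) (x : V d), x ∈ box c n → ∑ i, |x i - c i| ≤ k → Wk O (box c n) k x c := by
    intro k
    induction k with
    | zero =>
      intro x hx h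
      have : x = c := funext fun i => by
        have := Finset.single_le_sum (f := fun i => |x i - c i|) (fun i _ => abs_nonneg _)
          (Finset.mem_univ i)
        have h2 : |x i - c i| ≤ 0 := by simpa using this.trans h
        have := abs_nonpos_iff.1 h2
        omega
      subst this
      exact .nil _ hx
    | succ k ih =>
      intro x hx h
      by_cases hxc : x = c
      · subst hxc; exact .nil _ hx
      obtain ⟨i, hi⟩ := Function.ne_iff.1 hxc
      obtain ⟨y, h1, h2, h3⟩ : ∃ y, (lat d).Adj x y ∧ |y i - c i| + 1 = |x i - c i| ∧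
          ∀ j, j ≠ i → y j = x j := by
        rcases lt_or_gt_of_ne hi with h' | h'
        · refine ⟨x + ev i, lat_adj_add _ _, ?_, fun j hj => by simp [ev_ne hj]⟩
          simp only [Pi.add_apply, ev_self]
          rw [abs_of_nonpos (by omega), abs_of_nonpos (by omega)]; ring
        · refine ⟨x - ev i, lat_adj_sub _ _, ?_, fun j hj => by simp [ev_ne hj]⟩
          simp only [Pi.sub_apply, ev_self]
          rw [abs_of_nonneg (by omega), abs_of_nonneg (by omega)]; ring
      have hy : y ∈ box c n := mem_box.2 fun j => by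
        have := mem_box.1 hx j
        by_cases hj : j = i
        · subst hj; omega
        · rwa [h3 j hj]
      refine .cons hx h1 (hO _ _ hx hy h1) (ih y hy ?_)
      rw [← Finset.add_sum_erase _ _ (Finset.mem_univ i)] at h ⊢
      rw [Finset.sum_congr rfl (g := fun j => |x j - c j|)
        fun j hj => by rw [h3 j (Finset.ne_of_mem_erase hj)]]
      push_cast at h
      omega
  refine key _ x hx ?_
  refine (Finset.sum_le_sum fun i _ => mem_box.1 hx i).trans ?_
  simp

theorem wk_of_open_box' {c : V d} {n : ℕ}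
    (hO : ∀ a b, a ∈ box c n → b ∈ box c n → (lat d).Adj a b → O s(a, b)) (hx : x ∈ box c n)
    (hy : y ∈ box c n) : Wk O (box c n) (2 * d * n) x y :=
  ((wk_of_open_box hO hx).trans (wk_of_open_box hO hy).symm).mono_len (le_of_eq (by ring))

/-- transport along a graph homomorphism of the lattice -/
theorem Wk.map {φ : V d → V d} (hφ : ∀ a b, (lat d).Adj a b → (lat d).Adj (φ a) (φ b))
    (h : Wk (fun e => O (e.map φ)) (φ ⁻¹' R) n x y) : Wk O R n (φ x) (φ y) := by
  induction h with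
  | nil _ h => exact .nil _ h
  | cons h1 h2 h3 _ ih => exact .cons h1 (hφ _ _ h2) (by simpa using h3) ih

theorem dep_Wk (R : Set (V d)) (n : ℕ) (x y : V d) : Dep {ω | Wk (op ω) R n x y} (EIn R) :=
  fun _ _ hω h => Wk.mono h subset_rfl fun a b ha hb _ h' =>
    (hω s(a, b) (mk_mem_EIn.2 ⟨ha, hb⟩)).symm.trans h'

theorem dep_SCn (R A B : Set (V d)) : Dep {ω | SCn (op ω) R A B} (EIn R) :=
  fun _ _ hω h => SCn.mono h subset_rfl subset_rfl subset_rfl fun a b ha hb _ h' =>
    (hω s(a, b) (mk_mem_EIn.2 ⟨ha, hb⟩)).symm.trans h'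

theorem loc_SCn {R : Set (V d)} (hR : R.Finite) (A B : Set (V d)) : Loc {ω | SCn (op ω) R A B} :=
  (dep_SCn R A B).loc (EIn_finite hR)

theorem isUpperSet_SCn (R A B : Set (V d)) : IsUpperSet {ω : Sym2 (V d) → Bool | SCn (op ω) R A B} :=
  fun _ _ hω h => SCn.mono h subset_rfl subset_rfl subset_rfl fun _ _ _ _ _ h' =>
    Bool.eq_true_of_true_le (h' ▸ hω _)

end Walks

/-- the open subgraph of the lattice -/
def OG (O : Sym2 (V d) → Prop) : SimpleGraph (V d) where
  Adj x y := (lat d).Adj x y ∧ O s(x, y)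
  symm := ⟨fun _ _ h => ⟨h.1.symm, by rw [Sym2.eq_swap]; exact h.2⟩⟩
  loopless := ⟨fun _ h => h.1.ne rfl⟩

end Pool.Agent.P.MP_d74cc6_pr
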