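import Pool.Agent.P.MP_d74cc6_pr.LinkDefs

/-! Abstract sprinkled exploration: independence of failures and lengths of walks. -/

namespace Pool.Agent.P.MP_d74cc6_pr

variable {d : ℕ} {κ : Type}

theorem lk_grow_congr {C R : Set (V d)} {a : κ} {ω ω' : Sym2 (V d) × Option κ → Bool}
    (h1 : ∀ e ∈ EIn R, (∀ v ∈ e, v ∉ C) → (∃ v ∈ e, v ∈ grow C R a ω) →
      ω (e, none) = ω' (e, none))
    (h2 : ∀ e ∈ EIn R, ω (e, some a) = ω' (e, some a)) : grow C R a ω' = grow C R a ω := by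
  have key : ∀ x y, x ∈ grow C R a ω → x ∈ R → y ∈ R →
      (OC C a ω s(x, y) ↔ OC C a ω' s(x, y)) := by
    intro x y hx hxR hyR
    have he : s(x, y) ∈ EIn R := mk_mem_EIn.2 ⟨hxR, hyR⟩
    unfold OC
    rw [h2 _ he]
    refine or_congr_left (and_congr_left fun h => ?_)
    rw [h1 _ he h ⟨x, by simp, hx⟩]
  have step : ∀ x y, x ∈ grow C R a ω → y ∈ R → (lat d).Adj x y → OC C a ω s(x, y) →
      y ∈ grow C R a ω := by
    rintro x y ⟨z, hz, h⟩ hy hadj hO
    exact ⟨z, hz, h.trans (.single h.mem_right hy hadj hO)⟩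
  apply Set.Subset.antisymm
  · rintro y ⟨x, hx, n, h⟩
    have hx' : x ∈ grow C R a ω := ⟨x, hx, .refl h.mem_left⟩
    clear hx
    induction h with
    | nil _ _ => exact hx'
    | cons g1 g2 g3 g4 ih =>
      exact ih (step _ _ hx' g4.mem_left g2 ((key _ _ hx' g1 g4.mem_left).2 g3))
  · rintro y ⟨x, hx, n, h⟩
    refine ⟨x, hx, n, ?_⟩
    have hx' : x ∈ grow C R a ω := ⟨x, hx, .refl h.mem_left⟩
    clear hx
    induction h with
    | nil _ h => exact .nil _ h
    | cons g1 g2 g3 g4 ih =>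
      exact .cons g1 g2 ((key _ _ hx' g1 g4.mem_left).1 g3) (ih (step _ _ hx' g4.mem_left g2 g3))

/-- the explored set at time `t` -/
def lk_expl (C₀ : Set (V d)) (R : ℕ → Finset (V d)) (col : ℕ → κ)
    (ω : Sym2 (V d) × Option κ → Bool) : ℕ → Set (V d)
  | 0 => C₀
  | t + 1 => lk_expl C₀ R col ω t ∪ grow (lk_expl C₀ R col ω t) (R t) (col t) ω

/-- the set added at time `t` -/
def lk_new (C₀ : Set (V d)) (R : ℕ → Finset (V d)) (col : ℕ → κ)
    (ω : Sym2 (V d) × Option κ → Bool) (t : ℕ) : Set (V d) :=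
  grow (lk_expl C₀ R col ω t) (R t) (col t) ω

variable {C₀ : Set (V d)} {R : ℕ → Finset (V d)} {col : ℕ → κ}

theorem lk_expl_mono (ω : Sym2 (V d) × Option κ → Bool) : Monotone (lk_expl C₀ R col ω) :=
  monotone_nat_of_le_succ fun _ => Set.subset_union_left

theorem lk_new_subset (ω : Sym2 (V d) × Option κ → Bool) {s t : ℕ} (h : s < t) :
    lk_new C₀ R col ω s ⊆ lk_expl C₀ R col ω t :=
  Set.Subset.trans (Set.subset_union_right (s := lk_expl C₀ R col ω s)) (lk_expl_mono ω h)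

theorem lk_expl_congr {ω ω' : Sym2 (V d) × Option κ → Bool} {n : ℕ}
    (h1 : ∀ s < n, ∀ e ∈ EIn (R s : Set (V d)), (∃ v ∈ e, v ∈ lk_expl C₀ R col ω n) →
      ω (e, none) = ω' (e, none))
    (h2 : ∀ s < n, ∀ e ∈ EIn (R s : Set (V d)), ω (e, some (col s)) = ω' (e, some (col s))) :
    (∀ s ≤ n, lk_expl C₀ R col ω' s = lk_expl C₀ R col ω s) ∧
      ∀ s < n, lk_new C₀ R col ω' s = lk_new C₀ R col ω s := by
  have k1 : ∀ s < n, lk_expl C₀ R col ω' s = lk_expl C₀ R col ω s →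
      lk_new C₀ R col ω' s = lk_new C₀ R col ω s := by
    intro s hs h
    unfold lk_new
    rw [h]
    exact lk_grow_congr (fun e he _ ⟨v, hv, hv'⟩ => h1 s hs e he ⟨v, hv, lk_new_subset ω hs hv'⟩)
      (h2 s hs)
  have k2 : ∀ s ≤ n, lk_expl C₀ R col ω' s = lk_expl C₀ R col ω s := by
    intro s
    induction s with
    | zero => exact fun _ => rfl
    | succ s ih =>
      intro hs
      have e1 := ih (by omega)
      have e2 := k1 s (by omega) e1
      change lk_expl C₀ R col ω' s ∪ lk_new C₀ R col ω' s =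
        lk_expl C₀ R col ω s ∪ lk_new C₀ R col ω s
      rw [e1, e2]
  exact ⟨k2, fun s hs => k1 s hs (k2 s hs.le)⟩

/-- failure at time `t` -/
def lk_Fail (C₀ : Set (V d)) (R : ℕ → Finset (V d)) (col : ℕ → κ) (G G' : ℕ → Set (V d) → Prop)
    (t : ℕ) (ω : Sym2 (V d) × Option κ → Bool) : Prop :=
  G t (lk_expl C₀ R col ω t) ∧ ¬ G' t (lk_new C₀ R col ω t)

theorem lk_fail_le (π : Sym2 (V d) × Option κ → unitInterval) {G G' : ℕ → Set (V d) → Prop}
    (hd : ∀ s t, s < t → col s = col t → Disjoint (R s : Set (V d)) (R t)) {η : ℝ} (h0 : 0 ≤ η)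
    (hη : ∀ t C, G t C → Pr π {ω | ¬ G' t (grow C (R t) (col t) ω)} ≤ η) (T : Finset ℕ) :
    Pr π {ω | ∀ t ∈ T, lk_Fail C₀ R col G G' t ω} ≤ η ^ T.card := by
  induction T using Finset.induction_on_max with
  | empty => simp
  | insert n T hT ih =>
    have hn : n ∉ T := fun h => lt_irrefl _ (hT n h)
    rw [Finset.card_insert_of_notMem hn, pow_succ']
    set X : (Sym2 (V d) × Option κ → Bool) → Set (V d) × Prop :=
      fun ω => (lk_expl C₀ R col ω n, ∀ t ∈ T, lk_Fail C₀ R col G G' t ω) with hX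
    have cg : ∀ ω ω' : Sym2 (V d) × Option κ → Bool,
        (∀ s < n, ∀ e ∈ EIn (R s : Set (V d)), (∃ v ∈ e, v ∈ lk_expl C₀ R col ω n) →
          ω (e, none) = ω' (e, none)) →
        (∀ s < n, ∀ e ∈ EIn (R s : Set (V d)), ω (e, some (col s)) = ω' (e, some (col s))) →
        X ω' = X ω := by
      intro ω ω' h1 h2
      obtain ⟨k1, k2⟩ := lk_expl_congr (C₀ := C₀) h1 h2
      refine Prod.ext (k1 n le_rfl) (propext (forall₂_congr fun t ht => ?_))
      unfold lk_Fail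
      rw [k1 t (hT t ht).le, k2 t (hT t ht)]
    have fin : ∀ s, (EIn (R s : Set (V d)) ×ˢ ({none, some (col s)} : Set (Option κ))).Finite :=
      fun s => (EIn_finite (R s).finite_toSet).prod (Set.toFinite _)
    have lX : LocF X := by
      refine ⟨⋃ s ∈ Set.Iio n, EIn (R s : Set (V d)) ×ˢ ({none, some (col s)} : Set (Option κ)),
        (Set.finite_lt_nat n).biUnion fun s _ => fin s, fun ω ω' hω => (cg ω ω' ?_ ?_).symm⟩
      · exact fun s hs e he _ => hω _ (Set.mem_biUnion hs ⟨he, Or.inl rfl⟩)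
      · exact fun s hs e he => hω _ (Set.mem_biUnion hs ⟨he, Or.inr rfl⟩)
    have dA : ∀ (C : Set (V d)) (S : Set (Sym2 (V d) × Option κ)),
        (∀ e ∈ EIn (R n : Set (V d)), (∀ v ∈ e, v ∉ C) → (e, none) ∈ S) →
        (∀ e ∈ EIn (R n : Set (V d)), (e, some (col n)) ∈ S) →
        Dep {ω | ¬ G' n (grow C (R n) (col n) ω)} S := by
      intro C S h1 h2 ω ω' hω h
      rw [Set.mem_ofPred_eq, lk_grow_congr (ω := ω) (fun e he h _ => hω _ (h1 e he h))
        fun e he => hω _ (h2 e he)]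
      exact h
    have key := Pr_cond_le π lX {c | c.2 ∧ G n c.1}
      (A := fun c => {ω | ¬ G' n (grow c.1 (R n) (col n) ω)})
      (S := fun c => {z | (z.2 = none ∧ ∃ v ∈ z.1, v ∈ c.1) ∨
        ∃ s < n, z.2 = some (col s) ∧ z.1 ∈ EIn (R s : Set (V d))})
      (T := fun c => {z | (z.2 = none ∧ ∀ v ∈ z.1, v ∉ c.1) ∨
        (z.2 = some (col n) ∧ z.1 ∈ EIn (R n : Set (V d)))})
      (fun c _ => ⟨_, fin n, dA c.1 _ (fun e he _ => ⟨he, Or.inl rfl⟩)
        fun e he => ⟨he, Or.inr rfl⟩⟩)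
      (fun c _ ω ω' hω h => by
        rw [Set.mem_ofPred_eq] at h ⊢
        subst h
        exact cg ω ω' (fun s _ e _ h => hω _ (Or.inl ⟨rfl, h⟩))
          fun s hs e he => hω _ (Or.inr ⟨s, hs, rfl, he⟩))
      (fun c _ => dA c.1 _ (fun e _ h => Or.inl ⟨rfl, h⟩) fun e he => Or.inr ⟨rfl, he⟩)
      (fun c _ => by
        rw [Set.disjoint_left]
        rintro ⟨e, o⟩ (⟨h1, v, h2, h3⟩ | ⟨s, hs, h1, h2⟩) (⟨h4, h5⟩ | ⟨h4, h5⟩)
        · exact h5 v h2 h3
        · simp only at h1 h4; rw [h1] at h4; cases h4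
        · simp only at h1 h4; rw [h1] at h4; cases h4
        · simp only at h1 h4
          rw [h1] at h4
          exact Set.disjoint_left.1 (EIn_disjoint (hd s n hs (Option.some.inj h4))) h2 h5)
      (κ := η) fun c hc => hη n c.1 hc.2
    refine le_trans (Pr_mono fun ω hω => ?_) (key.trans (mul_le_mul_of_nonneg_left
      (le_trans (Pr_mono fun ω hω => hω.1) ih) h0))
    have h1 := hω n (Finset.mem_insert_self _ _)
    exact ⟨⟨fun t ht => hω t (Finset.mem_insert_of_mem ht), h1.1⟩, h1.2⟩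

theorem lk_length [Fintype κ] {lev : ℕ → ℕ} {r N : ℕ} {U : Set (V d)}
    (hlev : ∀ s t, s < t → ¬ Disjoint (R s : Set (V d)) (R t) → lev s < lev t)
    (hr : ∀ t, (R t).card ≤ r) (hU : ∀ s < N, (R s : Set (V d)) ⊆ U)
    (ω : Sym2 (V d) × Option κ → Bool) {t : ℕ} (ht : t ≤ N) {y : V d}
    (hy : y ∈ lk_expl C₀ R col ω t) :
    y ∈ C₀ ∨ ∃ s < t, y ∈ R s ∧ ∃ x ∈ C₀, Wk (op (orMap ω)) U (r * (lev s + 1)) x y := by
  induction t generalizing y with
  | zero => exact Or.inl hy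
  | succ t ih =>
    rcases hy with hy | ⟨x, hx, h⟩
    · rcases ih (by omega) hy with h | ⟨s, hs, h⟩
      · exact Or.inl h
      · exact Or.inr ⟨s, by omega, h⟩
    · have w : Wk (op (orMap ω)) U r x y := by
        refine (h.wk_card.mono_len (hr t)).mono (hU t (by omega)) fun a b _ _ _ hO => ?_
        rcases hO with hO | hO
        · exact orMap_eq_true.2 ⟨_, hO.1⟩
        · exact orMap_eq_true.2 ⟨_, hO⟩
      refine Or.inr ⟨t, by omega, h.mem_right, ?_⟩
      rcases ih (by omega) hx with h1 | ⟨s, hs, h1, z, hz, h2⟩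
      · exact ⟨x, h1, w.mono_len (Nat.le_mul_of_pos_right _ (by omega))⟩
      · have := hlev s t hs fun h' => Set.disjoint_left.1 h' h1 h.mem_left
        refine ⟨z, hz, (h2.trans w).mono_len ?_⟩
        rw [← Nat.mul_succ]
        exact Nat.mul_le_mul_left _ (by omega)

end Pool.Agent.P.MP_d74cc6_pr
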