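import Mathlib

/-! Lipschitz curves avoiding a closed set of sites of the plane, or else a costly witness. -/

namespace Pool.Agent.P.MP_d74cc6_pr

/-- sites reachable from below the base line `b` by up steps onto closed sites and free
down diagonal steps -/
inductive Reach (X : Set (ℤ × ℤ)) (b : ℤ) : ℤ × ℤ → Prop
  | base {x h : ℤ} : h < b → Reach X b (x, h)
  | up {x h : ℤ} : Reach X b (x, h - 1) → (x, h) ∈ X → Reach X b (x, h)
  | left {x h : ℤ} : Reach X b (x + 1, h + 1) → Reach X b (x, h)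
  | right {x h : ℤ} : Reach X b (x - 1, h + 1) → Reach X b (x, h)

theorem Reach.le_bound {X : Set (ℤ × ℤ)} {b B : ℤ} (hb : b ≤ B) (hX : ∀ z ∈ X, z.2 < B) {z : ℤ × ℤ}
    (h : Reach X b z) : z.2 < B := by
  induction h with
  | base h => exact h.trans_le hb
  | up _ h _ => exact hX _ h
  | left _ ih => simp only at ih ⊢; omega
  | right _ ih => simp only at ih ⊢; omega

/-- the lowest Lipschitz curve avoiding the closed sites -/
theorem exists_curve {X : Set (ℤ × ℤ)} (hX : X.Finite) (b : ℤ) :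
    ∃ F : ℤ → ℤ, (∀ x, b ≤ F x) ∧ (∀ x, (x, F x) ∉ X) ∧ (∀ x, |F (x + 1) - F x| ≤ 1) ∧
      ∀ x h, ¬ Reach X b (x, h) → F x ≤ h := by
  classical
  obtain ⟨B, hB⟩ := (hX.image fun z => z.2).bddAbove
  have hne : ∀ x : ℤ, ∃ h, ¬ Reach X b (x, h) := fun x =>
    ⟨max b (B + 1), fun h => lt_irrefl _ (h.le_bound (le_max_left b (B + 1)) fun z hz =>
      lt_of_lt_of_le (Int.lt_add_one_of_le (hB ⟨z, hz, rfl⟩)) (le_max_right _ _))⟩
  have hlow : ∀ x h : ℤ, ¬ Reach X b (x, h) → b ≤ h := fun x h h1 =>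
    not_lt.1 fun h2 => h1 (.base h2)
  have : ∀ x : ℤ, ∃ m, ¬ Reach X b (x, m) ∧ ∀ h, ¬ Reach X b (x, h) → m ≤ h := fun x =>
    Int.exists_least_of_bdd ⟨b, hlow x⟩ (hne x)
  choose F h1 h2 using this
  have h3 : ∀ x h, h < F x → Reach X b (x, h) := fun x h h' =>
    by_contra fun h4 => absurd (h2 x h h4) (not_le.2 h')
  refine ⟨F, fun x => hlow x _ (h1 x), fun x h => h1 x (.up (h3 _ _ (by omega)) h), fun x => ?_, h2⟩
  rw [abs_le]
  constructor
  · by_contra h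
    refine h1 (x + 1) (.right ?_)
    rw [add_sub_cancel_right]
    exact h3 _ _ (by omega)
  · by_contra h
    exact h1 x (.left (h3 _ _ (by omega)))

/-- witness families -/
def Wit (b : ℤ) : ℕ → ℤ × ℤ → Finset (Finset (ℤ × ℤ))
  | 0, z => if z.2 < b then {∅} else ∅
  | n + 1, z => if z.2 < b then {∅} else
      ((Wit b n (z.1, z.2 - 1)).filter (z ∉ ·)).image (insert z) ∪ Wit b n (z.1 + 1, z.2 + 1) ∪
        Wit b n (z.1 - 1, z.2 + 1)

theorem Wit_of_lt {b : ℤ} {z : ℤ × ℤ} (h : z.2 < b) (n : ℕ) : Wit b n z = {∅} := by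
  cases n <;> simp [Wit, h]

theorem Wit_succ {b : ℤ} {z : ℤ × ℤ} (h : ¬ z.2 < b) (n : ℕ) : Wit b (n + 1) z =
    ((Wit b n (z.1, z.2 - 1)).filter (z ∉ ·)).image (insert z) ∪ Wit b n (z.1 + 1, z.2 + 1) ∪
        Wit b n (z.1 - 1, z.2 + 1) := by
  simp [Wit, h]

theorem Wit_subset_succ (b : ℤ) (n : ℕ) (z : ℤ × ℤ) : Wit b n z ⊆ Wit b (n + 1) z := by
  induction n generalizing z with
  | zero =>
    by_cases h : z.2 < b
    · rw [Wit_of_lt h, Wit_of_lt h]
    · simp [Wit, h]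
  | succ n ih =>
    by_cases h : z.2 < b
    · rw [Wit_of_lt h, Wit_of_lt h]
    · rw [Wit_succ h, Wit_succ h]
      exact Finset.union_subset_union (Finset.union_subset_union
        (Finset.image_subset_image (Finset.filter_subset_filter _ (ih _))) (ih _)) (ih _)

theorem Wit_mono (b : ℤ) (z : ℤ × ℤ) : Monotone fun n => Wit b n z :=
  monotone_nat_of_le_succ fun n => Wit_subset_succ b n z

theorem Wit_initial {b : ℤ} {n : ℕ} {y z : ℤ × ℤ} {T : Finset (ℤ × ℤ)} (hT : T ∈ Wit b n y)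
    (hz : z ∈ T) : ∃ T' ⊆ T, T' ∈ Wit b n z := by
  induction n generalizing y T with
  | zero =>
    by_cases h : y.2 < b
    · rw [Wit_of_lt h, Finset.mem_singleton] at hT
      simp [hT] at hz
    · simp [Wit, h] at hT
  | succ n ih =>
    by_cases h : y.2 < b
    · rw [Wit_of_lt h, Finset.mem_singleton] at hT
      simp [hT] at hz
    · have hT' := hT
      rw [Wit_succ h, Finset.mem_union, Finset.mem_union] at hT
      rcases hT with (hT | hT) | hT
      · obtain ⟨T₀, h0, rfl⟩ := Finset.mem_image.1 hT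
        rcases Finset.mem_insert.1 hz with rfl | hz
        · exact ⟨_, subset_rfl, hT'⟩
        · obtain ⟨T', h1, h2⟩ := ih (Finset.mem_filter.1 h0).1 hz
          exact ⟨T', h1.trans (Finset.subset_insert _ _), Wit_subset_succ _ _ _ h2⟩
      · obtain ⟨T', h1, h2⟩ := ih hT hz
        exact ⟨T', h1, Wit_subset_succ _ _ _ h2⟩
      · obtain ⟨T', h1, h2⟩ := ih hT hz
        exact ⟨T', h1, Wit_subset_succ _ _ _ h2⟩

theorem Reach.exists_wit {X : Set (ℤ × ℤ)} {b : ℤ} {z : ℤ × ℤ} (h : Reach X b z) :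
    ∃ n, ∃ T ∈ Wit b n z, (T : Set (ℤ × ℤ)) ⊆ X := by
  induction h with
  | base h => exact ⟨0, ∅, by rw [Wit_of_lt h]; simp, by simp⟩
  | @up x h _ hX ih =>
    obtain ⟨n, T, h1, h2⟩ := ih
    by_cases hb : h < b
    · exact ⟨0, ∅, by rw [Wit_of_lt hb]; simp, by simp⟩
    by_cases hz : (x, h) ∈ T
    · obtain ⟨T', h3, h4⟩ := Wit_initial h1 hz
      exact ⟨n, T', h4, (Finset.coe_subset.2 h3).trans h2⟩
    · refine ⟨n + 1, insert (x, h) T, ?_, by simp [Set.insert_subset_iff, hX, h2]⟩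
      rw [Wit_succ hb]
      exact Finset.mem_union_left _ (Finset.mem_union_left _
        (Finset.mem_image_of_mem _ (Finset.mem_filter.2 ⟨h1, hz⟩)))
  | @left x h _ ih =>
    obtain ⟨n, T, h1, h2⟩ := ih
    by_cases hb : h < b
    · exact ⟨0, ∅, by rw [Wit_of_lt hb]; simp, by simp⟩
    refine ⟨n + 1, T, ?_, h2⟩
    rw [Wit_succ hb]
    exact Finset.mem_union_left _ (Finset.mem_union_right _ h1)
  | @right x h _ ih =>
    obtain ⟨n, T, h1, h2⟩ := ih
    by_cases hb : h < b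
    · exact ⟨0, ∅, by rw [Wit_of_lt hb]; simp, by simp⟩
    refine ⟨n + 1, T, ?_, h2⟩
    rw [Wit_succ hb]
    exact Finset.mem_union_right _ h1

theorem sum_Wit_le {η : ℝ} (h0 : 0 ≤ η) (h1 : η ≤ 1 / 8) (b : ℤ) (n : ℕ) (z : ℤ × ℤ) :
    ∑ T ∈ Wit b n z, η ^ T.card ≤ (2 * η) ^ (z.2 - b + 1).toNat := by
  induction n generalizing z with
  | zero =>
    by_cases h : z.2 < b
    · rw [Wit_of_lt h, show (z.2 - b + 1).toNat = 0 by omega]; simp
    · simp only [Wit, h, if_false, Finset.sum_empty]; positivity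
  | succ n ih =>
    by_cases h : z.2 < b
    · rw [Wit_of_lt h, show (z.2 - b + 1).toNat = 0 by omega]; simp
    rw [Wit_succ h]
    have nn : ∀ T : Finset (ℤ × ℤ), 0 ≤ η ^ T.card := fun T => by positivity
    have hu : ∀ A B : Finset (Finset (ℤ × ℤ)), ∑ T ∈ A ∪ B, η ^ T.card ≤
        ∑ T ∈ A, η ^ T.card + ∑ T ∈ B, η ^ T.card := fun A B => by
      rw [← Finset.sum_union_inter]
      exact le_add_of_nonneg_right (Finset.sum_nonneg fun T _ => nn T)
    have a1 : ∑ T ∈ ((Wit b n (z.1, z.2 - 1)).filter (z ∉ ·)).image (insert z), η ^ T.card ≤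
        η * ∑ T ∈ Wit b n (z.1, z.2 - 1), η ^ T.card := by
      refine (Finset.sum_image_le_of_nonneg fun T _ => nn T).trans ?_
      rw [Finset.mul_sum]
      refine le_trans (le_of_eq (Finset.sum_congr rfl fun T hT => ?_))
        (Finset.sum_le_sum_of_subset_of_nonneg (Finset.filter_subset (z ∉ ·) _)
          fun T _ _ => mul_nonneg h0 (nn T))
      rw [Finset.card_insert_of_notMem (Finset.mem_filter.1 hT).2, pow_succ']
    obtain ⟨k, hk⟩ : ∃ k : ℕ, z.2 - b = k := ⟨(z.2 - b).toNat, by omega⟩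
    have a2 := ih (z.1, z.2 - 1)
    have a3 := ih (z.1 + 1, z.2 + 1)
    have a4 := ih (z.1 - 1, z.2 + 1)
    simp only at a2 a3 a4
    rw [show (z.2 - 1 - b + 1).toNat = k by omega] at a2
    rw [show (z.2 + 1 - b + 1).toNat = k + 2 by omega] at a3 a4
    rw [show (z.2 - b + 1).toNat = k + 1 by omega]
    refine (hu _ _).trans ((add_le_add ((hu _ _).trans (add_le_add
      (a1.trans (mul_le_mul_of_nonneg_left a2 h0)) a3)) a4).trans ?_)
    have : 0 ≤ (2 * η) ^ k := by positivity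
    have h2 : 0 ≤ (2 * η) ^ k * (η * (1 - 8 * η)) :=
      mul_nonneg this (mul_nonneg h0 (by linarith))
    simp only [pow_succ]
    nlinarith

/-- Peierls estimate: a finite family of witnesses with small total weight -/
theorem exists_witnesses (D : Finset (ℤ × ℤ)) (b : ℤ) (z : ℤ × ℤ) :
    ∃ 𝒯 : Finset (Finset (ℤ × ℤ)), (∀ T ∈ 𝒯, T ⊆ D) ∧
      (∀ X : Set (ℤ × ℤ), X ⊆ D → Reach X b z → ∃ T ∈ 𝒯, (T : Set (ℤ × ℤ)) ⊆ X) ∧
      ∀ η : ℝ, 0 ≤ η → η ≤ 1 / 8 → ∑ T ∈ 𝒯, η ^ T.card ≤ (2 * η) ^ (z.2 - b + 1).toNat := by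
  classical
  have : ∀ X : Finset (ℤ × ℤ), ∃ n, Reach X b z → ∃ T ∈ Wit b n z, T ⊆ X := fun X => by
    by_cases h : Reach X b z
    · obtain ⟨n, T, h1, h2⟩ := h.exists_wit
      exact ⟨n, fun _ => ⟨T, h1, Finset.coe_subset.1 h2⟩⟩
    · exact ⟨0, fun h' => absurd h' h⟩
  choose n hn using this
  refine ⟨(Wit b (D.powerset.sup n) z).filter (· ⊆ D), fun T hT => (Finset.mem_filter.1 hT).2,
    fun X hX h => ?_, fun η h0 h1 => le_trans (Finset.sum_le_sum_of_subset_of_nonneg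
      (Finset.filter_subset _ _) fun T _ _ => by positivity) (sum_Wit_le h0 h1 _ _ _)⟩
  lift X to Finset (ℤ × ℤ) using D.finite_toSet.subset hX
  obtain ⟨T, h1, h2⟩ := hn X h
  have hX' : X ⊆ D := Finset.coe_subset.1 hX
  exact ⟨T, Finset.mem_filter.2 ⟨Wit_mono b z (Finset.le_sup (Finset.mem_powerset.2 hX')) h1,
    h2.trans hX'⟩, Finset.coe_subset.2 h2⟩

end Pool.Agent.P.MP_d74cc6_pr
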