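import Pool.Agent.P.MP_d74cc6_pr.Glue
import Pool.Agent.P.MP_d74cc6_pr.Peierls
import Pool.Agent.P.MP_d74cc6_pr.Link1

/-! Dynamic exploration: short open walks along sheared strips. -/

namespace Pool.Agent.P.MP_d74cc6_pr

variable {d : ℕ}

/-- the time at which the `u`-th move at the coarse site `(x, h)` is made -/
def lk_tau (t x h u : ℕ) : ℕ := ((x * 9 + h % 9) * 3 + u) * t + h / 9

/-- the centre of the region explored at level `a` and sublevel `b` -/
def lk_cen (k l : Fin d) (c : V d) (L : ℕ) (σ : ℕ → ℤ) (a b : ℕ) : V d :=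
  pt k l c L ((a / 27 + if a % 3 = 2 then 1 else 0 : ℕ) : ℤ)
    (σ (a / 27 + if a % 3 = 0 then 0 else 1) + ((9 * b + a / 3 % 9 : ℕ) : ℤ))

theorem lk_tau_div {t x h u : ℕ} (hh : h < 9 * t) :
    lk_tau t x h u / t = (x * 9 + h % 9) * 3 + u := by
  have h1 : h / 9 < t := by omega
  unfold lk_tau
  rw [add_comm, Nat.add_mul_div_right _ _ (by omega), Nat.div_eq_of_lt h1, zero_add]

theorem lk_tau_mod {t x h u : ℕ} (hh : h < 9 * t) : lk_tau t x h u % t = h / 9 := by
  have h1 : h / 9 < t := by omega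
  unfold lk_tau
  rw [add_comm, Nat.add_mul_mod_self_right, Nat.mod_eq_of_lt h1]

theorem lk_tau_inj {t x h u x' h' u' : ℕ} (hh : h < 9 * t) (hh' : h' < 9 * t) (hu : u < 3)
    (hu' : u' < 3) (e : lk_tau t x h u = lk_tau t x' h' u') : x = x' ∧ h = h' := by
  have e1 := lk_tau_div (x := x) (u := u) hh
  have e2 := lk_tau_mod (x := x) (u := u) hh
  rw [e, lk_tau_div hh'] at e1
  rw [e, lk_tau_mod hh'] at e2
  omega

theorem lk_pt_k {k l : Fin d} (hkl : k ≠ l) (c : V d) (L : ℕ) (x y : ℤ) :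
    pt k l c L x y k = c k + L * x := by
  simp [pt, ev_ne hkl]

theorem lk_pt_l {k l : Fin d} (hkl : k ≠ l) (c : V d) (L : ℕ) (x y : ℤ) :
    pt k l c L x y l = c l + L * y := by
  simp [pt, ev_ne hkl.symm]

theorem lk_pt_other {k l i : Fin d} (hk : i ≠ k) (hl : i ≠ l) (c : V d) (L : ℕ) (x y : ℤ) :
    pt k l c L x y i = c i := by
  simp [pt, ev_ne hk, ev_ne hl]

theorem lk_abs_mul_le {L : ℕ} {s : ℤ} (hs : |s| ≤ 1) : |(L : ℤ) * s| ≤ L := by
  rw [abs_mul, Nat.abs_cast]
  exact mul_le_of_le_one_right (Nat.cast_nonneg _) hs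

theorem lk_pt_dist {k l : Fin d} (hkl : k ≠ l) (c : V d) (L : ℕ) {x y x' y' : ℤ}
    (hx : |x - x'| ≤ 1) (hy : |y - y'| ≤ 1) (i : Fin d) :
    |pt k l c L x y i - pt k l c L x' y' i| ≤ L := by
  by_cases h1 : i = k
  · subst h1
    rw [lk_pt_k hkl, lk_pt_k hkl, add_sub_add_left_eq_sub, ← mul_sub]
    exact lk_abs_mul_le hx
  by_cases h2 : i = l
  · subst h2
    rw [lk_pt_l hkl, lk_pt_l hkl, add_sub_add_left_eq_sub, ← mul_sub]
    exact lk_abs_mul_le hy
  · simp [lk_pt_other h1 h2]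

theorem lk_slab {c c' : V d} {L : ℕ} {i : Fin d} (h1 : ∀ j, j ≠ i → c j = c' j)
    (h2 : |c i - c' i| ≤ L) :
    {y | y ∈ box c (2 * L) ∧ |y i - c i| ≤ L} ⊆ (box c' (2 * L) : Set (V d)) := by
  rintro y ⟨h3, h4⟩
  refine mem_box.2 fun j => ?_
  by_cases hj : j = i
  · subst hj
    have := abs_sub_le (y j) (c j) (c' j)
    push_cast
    omega
  · rw [← h1 j hj]
    exact mem_box.1 h3 j

theorem lk_far {L : ℕ} (hL : 1 ≤ L) {a b : ℤ} (h : 9 ≤ |a - b|) (z : ℤ) :
    ((4 * L : ℕ) : ℤ) + (4 * L : ℕ) < |z + L * a - (z + L * b)| := by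
  rw [add_sub_add_left_eq_sub, ← mul_sub, abs_mul, Nat.abs_cast]
  have : (L : ℤ) * 9 ≤ L * |a - b| := mul_le_mul_of_nonneg_left h (Nat.cast_nonneg _)
  push_cast
  omega

theorem lk_disj_same {k l : Fin d} (hkl : k ≠ l) (c : V d) {L : ℕ} (hL : 1 ≤ L) (σ : ℕ → ℤ)
    (a : ℕ) {b b' : ℕ} (h : b ≠ b') :
    Disjoint (box (lk_cen k l c L σ a b) (4 * L) : Set (V d))
      (box (lk_cen k l c L σ a b') (4 * L)) := by
  refine box_disjoint l ?_
  unfold lk_cen
  rw [lk_pt_l hkl, lk_pt_l hkl]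
  refine lk_far hL ?_ _
  rw [le_abs]
  omega

theorem lk_disj_col {k l : Fin d} (hkl : k ≠ l) (c : V d) {L : ℕ} (hL : 1 ≤ L) (σ : ℕ → ℤ)
    {a a' : ℕ} (h : a ≠ a') (h' : a % 243 = a' % 243) (b b' : ℕ) :
    Disjoint (box (lk_cen k l c L σ a b) (4 * L) : Set (V d))
      (box (lk_cen k l c L σ a' b') (4 * L)) := by
  refine box_disjoint k ?_
  unfold lk_cen
  rw [lk_pt_k hkl, lk_pt_k hkl]
  refine lk_far hL ?_ _
  rw [le_abs]
  split_ifs <;> omega

theorem lk_cen_sub {k l : Fin d} (hkl : k ≠ l) (c : V d) (L : ℕ) (σ : ℕ → ℤ) {K t a b : ℕ}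
    (ha : a < 27 * K) (hb : b < t) :
    (box (lk_cen k l c L σ a b) (4 * L) : Set (V d)) ⊆ linkReg k l c L K (9 * t) σ := by
  intro y hy
  refine ⟨a / 27 + if a % 3 = 0 then 0 else 1, by split_ifs <;> omega, 9 * b + a / 3 % 9,
    by omega, box_subset (fun i => ?_) hy⟩
  have := lk_pt_dist hkl c L (x := ((a / 27 + if a % 3 = 2 then 1 else 0 : ℕ) : ℤ))
    (x' := ((a / 27 + if a % 3 = 0 then 0 else 1 : ℕ) : ℤ))
    (y := σ (a / 27 + if a % 3 = 0 then 0 else 1) + ((9 * b + a / 3 % 9 : ℕ) : ℤ))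
    (y' := σ (a / 27 + if a % 3 = 0 then 0 else 1) + ((9 * b + a / 3 % 9 : ℕ) : ℤ))
    (by rw [abs_le]; split_ifs <;> omega) (by simp) i
  unfold lk_cen
  omega

theorem lk_cen_tau {k l : Fin d} (c : V d) (L : ℕ) (σ : ℕ → ℤ) {t x h u : ℕ} (hh : h < 9 * t)
    (hu : u < 3) : lk_cen k l c L σ (lk_tau t x h u / t) (lk_tau t x h u % t) =
      pt k l c L ((x + if u = 2 then 1 else 0 : ℕ) : ℤ) (σ (x + if u = 0 then 0 else 1) + h) := by
  rw [lk_tau_div hh, lk_tau_mod hh]
  unfold lk_cen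
  have e1 : ((x * 9 + h % 9) * 3 + u) / 27 = x := by omega
  have e2 : ((x * 9 + h % 9) * 3 + u) % 3 = u := by omega
  have e3 : 9 * (h / 9) + ((x * 9 + h % 9) * 3 + u) / 3 % 9 = h := by omega
  rw [e1, e2, e3]

theorem lk_sep_box (k : Fin d) (c : V d) {L m j : ℕ} (h : j * (2 * m + 1) ≤ L) :
    Sep j m (box c (2 * L) : Set (V d)) := by
  classical
  have inj : Function.Injective fun i : ℕ => c + ((i : ℤ) * (2 * m + 1)) • ev k := by
    intro a b hab
    have := congrFun hab k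
    simp only [Pi.add_apply, Pi.smul_apply, ev_self, smul_eq_mul, mul_one, add_right_inj] at this
    exact_mod_cast mul_right_cancel₀ (by positivity) this
  refine ⟨(Finset.range j).image fun i : ℕ => c + ((i : ℤ) * (2 * m + 1)) • ev k, ?_, ?_, ?_⟩
  · intro y hy
    obtain ⟨i, hi, rfl⟩ := Finset.mem_image.1 hy
    refine mem_box.2 fun a => ?_
    have h1 : i * (2 * m + 1) ≤ L :=
      le_trans (Nat.mul_le_mul_right _ (Finset.mem_range.1 hi).le) h
    have h2 : (i : ℤ) * (2 * m + 1) ≤ L := by exact_mod_cast h1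
    have h3 : 0 ≤ (i : ℤ) * (2 * m + 1) := by positivity
    simp only [Pi.add_apply, Pi.smul_apply, ev_apply, smul_eq_mul, add_sub_cancel_left]
    rw [abs_le]
    split_ifs <;> constructor <;> push_cast <;> omega
  · rw [Finset.card_image_of_injective _ inj, Finset.card_range]
  · intro x hx y hy hxy
    obtain ⟨a, -, rfl⟩ := Finset.mem_image.1 hx
    obtain ⟨b, -, rfl⟩ := Finset.mem_image.1 hy
    have hab : a ≠ b := fun e => hxy (by rw [e])
    refine ⟨k, ?_⟩
    simp only [Pi.add_apply, Pi.smul_apply, ev_self, smul_eq_mul, mul_one,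
      add_sub_add_left_eq_sub]
    rw [← sub_mul, abs_mul, abs_of_nonneg (a := 2 * (m : ℤ) + 1) (by positivity)]
    have h1 : 1 ≤ |(a : ℤ) - b| := by rw [le_abs]; omega
    nlinarith [Nat.cast_nonneg (α := ℤ) m]

/-- from independent failures in time to independent closed sites -/
theorem lk_sites {ι : Type*} (π : ι → unitInterval) {Fail : ℕ → (ι → Bool) → Prop} {η : ℝ}
    (hF : ∀ T : Finset ℕ, Pr π {ω | ∀ s ∈ T, Fail s ω} ≤ η ^ T.card) {t : ℕ}
    (T : Finset (ℤ × ℤ)) (hT : ∀ z ∈ T, 0 ≤ z.1 ∧ 0 ≤ z.2 ∧ z.2 < 9 * t) :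
    Pr π {ω | ∀ z ∈ T, ∃ u < 3, Fail (lk_tau t z.1.toNat z.2.toNat u) ω} ≤ (3 * η) ^ T.card := by
  classical
  set f : (T → Fin 3) → T → ℕ := fun u z => lk_tau t z.1.1.toNat z.1.2.toNat (u z) with hf
  have inj : ∀ u, Function.Injective (f u) := by
    intro u z z' e
    obtain ⟨a1, a2, a3⟩ := hT _ z.2
    obtain ⟨b1, b2, b3⟩ := hT _ z'.2
    have := lk_tau_inj (by omega) (by omega) (u z).2 (u z').2 e
    exact Subtype.ext (Prod.ext (by omega) (by omega))
  refine le_trans (Pr_mono (B := {ω | ∃ u ∈ (Finset.univ : Finset (T → Fin 3)),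
    ω ∈ {ω | ∀ s ∈ Finset.univ.image (f u), Fail s ω}}) fun ω hω => ?_)
    ((Pr_exists_le π _ _).trans ?_)
  · have : ∀ z : T, ∃ u : Fin 3, Fail (lk_tau t z.1.1.toNat z.1.2.toNat u) ω := fun z =>
      let ⟨u, h1, h2⟩ := hω z.1 z.2; ⟨⟨u, h1⟩, h2⟩
    choose u hu using this
    refine ⟨u, Finset.mem_univ _, fun s hs => ?_⟩
    obtain ⟨z, -, rfl⟩ := Finset.mem_image.1 hs
    exact hu z
  · refine (Finset.sum_le_sum fun u _ => hF _).trans (le_of_eq ?_)
    simp only [Finset.card_image_of_injective _ (inj _), Finset.card_univ, Fintype.card_coe,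
      Finset.sum_const, Fintype.card_fun, Fintype.card_fin, nsmul_eq_mul, mul_pow]
    push_cast
    rfl

theorem lk_reach {ι : Type*} (π : ι → unitInterval) (D : Finset (ℤ × ℤ))
    {X : (ι → Bool) → Set (ℤ × ℤ)} (hX : ∀ ω, X ω ⊆ D) {η : ℝ} (h0 : 0 ≤ η) (h1 : η ≤ 1 / 8)
    (h : ∀ T ⊆ D, Pr π {ω | (T : Set (ℤ × ℤ)) ⊆ X ω} ≤ η ^ T.card) (z : ℤ × ℤ) :
    Pr π {ω | Reach (X ω) 0 z} ≤ (2 * η) ^ (z.2 + 1).toNat := by
  obtain ⟨W, h2, h3, h4⟩ := exists_witnesses D 0 z
  have h5 := h4 η h0 h1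
  rw [sub_zero] at h5
  refine le_trans (Pr_mono (B := {ω | ∃ T ∈ W, ω ∈ {ω | (T : Set (ℤ × ℤ)) ⊆ X ω}})
    fun ω hω => h3 _ (hX ω) hω) ((Pr_exists_le π _ _).trans ?_)
  exact (Finset.sum_le_sum fun T hT => h T (h2 T hT)).trans h5

theorem lk_eps {q p : unitInterval} (hqp : (q : ℝ) < p) :
    ∃ ε : unitInterval, 0 < (ε : ℝ) ∧ 1 - (p : ℝ) = (1 - q) * (1 - ε) ^ 243 := by
  have hq : 0 < 1 - (q : ℝ) := by linarith [p.2.2]
  have h0 : 0 ≤ (1 - (p : ℝ)) / (1 - q) := div_nonneg (sub_nonneg.2 p.2.2) hq.le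
  have h1 : (1 - (p : ℝ)) / (1 - q) < 1 := (div_lt_one hq).2 (by linarith)
  have h2 := Real.rpow_lt_one h0 h1 (z := ((243 : ℕ) : ℝ)⁻¹) (by positivity)
  have h3 := Real.rpow_nonneg h0 ((243 : ℕ) : ℝ)⁻¹
  refine ⟨⟨1 - ((1 - (p : ℝ)) / (1 - q)) ^ ((243 : ℕ) : ℝ)⁻¹, by linarith, by linarith⟩,
    by simpa using h2, ?_⟩
  simp only [sub_sub_cancel]
  rw [Real.rpow_inv_natCast_pow h0 (by norm_num), mul_div_cancel₀ _ hq.ne']

theorem link {k l : Fin d} (hkl : k ≠ l) {q p : unitInterval} (hqp : (q : ℝ) < p) {θ : ℝ}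
    (hθ : 0 < θ) (hR : Perc d q θ) {δ : ℝ} (hδ : 0 < δ) :
    ∃ L ρ : ℕ, 1 ≤ L ∧ ∀ (c : V d) (K t : ℕ) (σ : ℕ → ℤ), 1 ≤ t → σ 0 = 0 →
      (∀ x, |σ (x + 1) - σ x| ≤ 1) →
      Pr (fun _ => p) {ω : Sym2 (V d) → Bool | ¬ Link k l c L K (9 * t) ρ σ (op ω)} ≤
        δ + (K + 1) * (1 / 2) ^ (9 * t) := by
  classical
  obtain ⟨ε, hε, hp⟩ := lk_eps hqp
  set η : ℝ := min (δ / 4) (1 / 8) with hη
  have η0 : 0 < η := lt_min (by positivity) (by norm_num)
  have η1 : η ≤ δ / 4 := min_le_left _ _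
  have η2 : η ≤ 1 / 8 := min_le_right _ _
  obtain ⟨L, m, j, hj, hL, hstep⟩ := rich_step (d := d) (hqp.trans_le p.2.2) hε hθ hR
    (δ := η / 3) (by positivity)
  have L1 : 1 ≤ L := le_trans (Nat.mul_pos hj (by omega)) hL
  refine ⟨L, 27 * (2 * (4 * L) + 1) ^ d, L1, fun c K t σ ht σ0 hσ => ?_⟩
  set cen : ℕ → V d := fun n => lk_cen k l c L σ (n / t) (n % t) with hcen
  set R : ℕ → Finset (V d) := fun n => box (cen n) (4 * L) with hRdef
  set col : ℕ → Fin 243 := fun n => ⟨n / t % 243, Nat.mod_lt _ (by norm_num)⟩ with hcol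
  set dir : ℕ → Fin d := fun n => if n / t % 3 = 1 then k else l with hdir
  set G : ℕ → Set (V d) → Prop := fun n C => Sep j m (C ∩ box (cen n) (2 * L)) with hG
  set G' : ℕ → Set (V d) → Prop := fun n C =>
    Sep j m (C ∩ {y | y ∈ box (cen n) (2 * L) ∧ |y (dir n) - cen n (dir n)| ≤ L}) with hG'
  set C₀ : Set (V d) := ((box c (2 * L) : Finset (V d)) : Set (V d)) with hC₀
  have same : ∀ s n, s < n → s / t = n / t → Disjoint (R s : Set (V d)) (R n) := by
    intro s n hs e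
    simp only [hRdef, hcen, e]
    refine lk_disj_same hkl c L1 σ _ fun e' => ?_
    have a1 := Nat.div_add_mod s t
    have a2 := Nat.div_add_mod n t
    rw [e, e'] at a1
    omega
  have hF := lk_fail_le (C₀ := C₀) (R := R) (col := col) (lay q ε) (G := G) (G' := G')
    (fun s n hs e => by
      by_cases e' : s / t = n / t
      · exact same s n hs e'
      · exact lk_disj_col hkl c L1 σ e' (congrArg Fin.val e) _ _)
    (η := η / 3) (by positivity) fun n C hC => hstep _ _ C _ _ hC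
  set D : Finset (ℤ × ℤ) := Finset.Ico (0 : ℤ) K ×ˢ Finset.Ico (0 : ℤ) (9 * t) with hD
  set X : (Sym2 (V d) × Option (Fin 243) → Bool) → Set (ℤ × ℤ) := fun ω =>
    {z | z ∈ D ∧ ∃ u < 3, lk_Fail C₀ R col G G' (lk_tau t z.1.toNat z.2.toNat u) ω} with hX
  have hXD : ∀ ω, X ω ⊆ D := fun ω z hz => hz.1
  have hReach := lk_reach (lay q ε) D hXD η0.le η2 fun T hT => by
    have := lk_sites (lay q ε) hF (t := t) T fun z hz => by
      have := hT hz
      simp only [hD, Finset.mem_product, Finset.mem_Ico] at this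
      omega
    rw [mul_div_cancel₀ _ (by norm_num)] at this
    refine le_trans (Pr_mono ?_) this
    exact fun ω hω z hz => (hω hz).2
  have lE : Loc {ω : Sym2 (V d) → Bool |
      ¬ Link k l c L K (9 * t) (27 * (2 * (4 * L) + 1) ^ d) σ (op ω)} :=
    ((dep_Link k l c L K (9 * t) _ σ).loc (EIn_finite (linkReg_finite _ _ _ _ _ _ _))).compl
  rw [← Pr_orMap (lay (κ := Fin 243) q ε) (fun _ => p) (fun e => by
    rw [Fintype.prod_option, hp]; simp [lay]) lE]
  have incl : {ω : Sym2 (V d) × Option (Fin 243) → Bool | orMap ω ∈ {ω : Sym2 (V d) → Bool |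
      ¬ Link k l c L K (9 * t) (27 * (2 * (4 * L) + 1) ^ d) σ (op ω)}} ⊆
      ({ω | Reach (X ω) 0 (0, 0)} ∪ {ω | Reach (X ω) 0 (K, 0)}) ∪
        {ω | ∃ x ∈ Finset.range (K + 1), ω ∈ {ω | Reach (X ω) 0 (x, 9 * t - 1)}} := by
    intro ω hω
    by_contra hbad
    apply hω
    simp only [Set.mem_union, Set.mem_ofPred_eq, not_or, not_exists, not_and,
      Finset.mem_range] at hbad
    obtain ⟨⟨b1, b2⟩, b3⟩ := hbad
    obtain ⟨F, f1, f2, f3, f4⟩ := exists_curve (D.finite_toSet.subset (hXD ω)) 0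
    have F0 : F 0 = 0 := le_antisymm (f4 _ _ b1) (f1 _)
    have FK : F K = 0 := le_antisymm (f4 _ _ b2) (f1 _)
    have main : ∀ x ≤ K, Sep j m (lk_expl C₀ R col ω (27 * x * t) ∩
        box (pt k l c L x (σ x + F x)) (2 * L)) := by
      intro x
      induction x with
      | zero =>
        intro _
        refine (lk_sep_box k c hL).mono ?_
        simp [F0, σ0, pt, lk_expl, hC₀]
      | succ x ih =>
        intro hx
        have g0 := ih (by omega)
        obtain ⟨h, hh⟩ := Int.eq_ofNat_of_zero_le (f1 x)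
        have hlt : h < 9 * t := by have := f4 _ _ (b3 x (by omega)); omega
        have nf : ∀ u < 3, G (lk_tau t x h u) (lk_expl C₀ R col ω (lk_tau t x h u)) →
            G' (lk_tau t x h u) (lk_new C₀ R col ω (lk_tau t x h u)) := by
          intro u hu h1
          by_contra h2
          refine f2 x ⟨?_, u, hu, ?_⟩
          · simp only [hD, Finset.mem_product, Finset.mem_Ico]
            omega
          · simp only [hh, Int.toNat_natCast]
            exact ⟨h1, h2⟩
        have ce : ∀ u < 3, cen (lk_tau t x h u) = pt k l c L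
            ((x + if u = 2 then 1 else 0 : ℕ) : ℤ) (σ (x + if u = 0 then 0 else 1) + h) :=
          fun u hu => lk_cen_tau c L σ hlt hu
        have di : ∀ u < 3, dir (lk_tau t x h u) = if u = 1 then k else l := fun u hu => by
          have : ((x * 9 + h % 9) * 3 + u) % 3 = u := by omega
          simp only [hdir, lk_tau_div hlt, this]
        have t0 : 27 * x * t ≤ lk_tau t x h 0 :=
          le_trans (Nat.mul_le_mul_right _ (by omega)) (Nat.le_add_right _ _)
        have t1 : ∀ u, lk_tau t x h u < lk_tau t x h (u + 1) := fun u => by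
          unfold lk_tau
          rw [← add_assoc, Nat.succ_mul]
          omega
        have t3 : lk_tau t x h 2 < 27 * (x + 1) * t := by
          have a1 : h / 9 < t := by omega
          have a2 : ((x * 9 + h % 9) * 3 + 2 + 1) * t ≤ 27 * (x + 1) * t :=
            Nat.mul_le_mul_right _ (by omega)
          rw [Nat.succ_mul] at a2
          unfold lk_tau
          omega
        have g1 := nf 0 (by omega) (by
          simp only [hG, ce 0 (by omega)]
          rw [hh] at g0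
          exact g0.mono (Set.inter_subset_inter_left _ (lk_expl_mono ω t0)))
        have g2 := nf 1 (by omega) (by
          simp only [hG', ce 0 (by omega), di 0 (by omega)] at g1
          simp only [hG, ce 1 (by omega)]
          refine g1.mono (Set.inter_subset_inter (lk_new_subset ω (t1 0)) (lk_slab ?_ ?_))
          · intro i hi
            simp [pt, ev_ne (show i ≠ l from hi)]
          · refine lk_pt_dist hkl c L (by simp) ?_ _
            rw [abs_sub_comm]
            simpa using hσ x)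
        have g3 := nf 2 (by omega) (by
          simp only [hG', ce 1 (by omega), di 1 (by omega)] at g2
          simp only [hG, ce 2 (by omega)]
          refine g2.mono (Set.inter_subset_inter (lk_new_subset ω (t1 1)) (lk_slab ?_ ?_))
          · intro i hi
            simp [pt, ev_ne (show i ≠ k from hi)]
          · exact lk_pt_dist hkl c L (by simp) (by simp) _)
        simp only [hG', ce 2 (by omega), di 2 (by omega)] at g3
        refine g3.mono (Set.inter_subset_inter (lk_new_subset ω t3) (lk_slab ?_ ?_))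
        · intro i hi
          simp [pt, ev_ne (show i ≠ l from hi)]
        · refine lk_pt_dist hkl c L (by simp) ?_ _
          rw [abs_sub_comm, ← hh]
          simpa using f3 x
    obtain ⟨s, s1, s2, -⟩ := main K le_rfl
    obtain ⟨y, hy⟩ := Finset.card_pos.1 (lt_of_lt_of_le hj s2)
    obtain ⟨y1, y2⟩ := s1 hy
    rw [FK, add_zero] at y2
    rcases lk_length (lev := fun n => n / t) (r := (2 * (4 * L) + 1) ^ d) (N := 27 * K * t)
      (U := linkReg k l c L K (9 * t) σ)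
      (fun s n hs hn => lt_of_le_of_ne (Nat.div_le_div_right hs.le) fun e => hn (same s n hs e))
      (fun n => (card_box _ _).le)
      (fun n hn => lk_cen_sub hkl c L σ ((Nat.div_lt_iff_lt_mul ht).2 hn) (Nat.mod_lt _ ht))
      ω le_rfl y1 with h | ⟨n, hn, -, z, hz, h⟩
    · refine ⟨y, h, y, y2, .nil _ ⟨0, Nat.zero_le _, 0, by omega, ?_⟩⟩
      simpa [pt, σ0] using box_mono c (by omega : 2 * L ≤ 5 * L) h
    · refine ⟨z, hz, y, y2, h.mono_len ?_⟩
      have := (Nat.div_lt_iff_lt_mul ht).2 hn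
      rw [mul_comm 27, mul_assoc]
      exact Nat.mul_le_mul_left _ this
  refine (Pr_mono incl).trans ((Pr_union_le _ _ _).trans (add_le_add
    ((Pr_union_le _ _ _).trans ?_) ((Pr_exists_le _ _ _).trans ?_)))
  · have a1 := hReach (0, 0)
    have a2 := hReach (K, 0)
    simp only [zero_add, Int.toNat_one, pow_one] at a1 a2
    linarith
  · refine (Finset.sum_le_sum (g := fun _ => (1 / 2 : ℝ) ^ (9 * t)) fun x _ => ?_).trans (by simp)
    refine (hReach _).trans ?_
    have : ((9 * t - 1 : ℤ) + 1).toNat = 9 * t := by omega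
    simp only [this]
    exact pow_le_pow_left₀ (by positivity) (by linarith) _

end Pool.Agent.P.MP_d74cc6_pr
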