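import Pool.Agent.P.MP_d74cc6_pr.Lat

/-! Definitions for the sprinkled exploration. -/

namespace Pool.Agent.P.MP_d74cc6_pr

variable {d : ℕ}

/-- the origin is joined to the boundary of every box with probability at least `θ` -/
def Perc (d : ℕ) (q : unitInterval) (θ : ℝ) : Prop :=
  ∀ n : ℕ, θ ≤ Pr (fun _ => q)
    {ω : Sym2 (V d) → Bool | SCn (op ω) (box (0 : V d) n) {0} {y | ∃ i, |y i| = n}}

/-- a base layer with parameter `q` and sprinkling layers with parameter `ε` -/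
def lay {κ : Type} (q ε : unitInterval) : Sym2 (V d) × Option κ → unitInterval :=
  fun p => p.2.elim q fun _ => ε

/-- base edges away from `C` and sprinkled edges of colour `a` -/
def OC {κ : Type} (C : Set (V d)) (a : κ) (ω : Sym2 (V d) × Option κ → Bool) (e : Sym2 (V d)) :
    Prop :=
  (ω (e, none) = true ∧ ∀ v ∈ e, v ∉ C) ∨ ω (e, some a) = true

/-- the points of `R` reached from `C` -/
def grow {κ : Type} (C R : Set (V d)) (a : κ) (ω : Sym2 (V d) × Option κ → Bool) : Set (V d) :=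
  {y | ∃ x ∈ C, Cn (OC C a ω) R x y}

/-- `A` contains `j` points whose boxes of radius `m` are disjoint -/
def Sep (j m : ℕ) (A : Set (V d)) : Prop :=
  ∃ s : Finset (V d), (s : Set (V d)) ⊆ A ∧ j ≤ s.card ∧
    ∀ x ∈ s, ∀ y ∈ s, x ≠ y → ∃ i, 2 * (m : ℤ) < |x i - y i|

theorem Sep.mono {j m : ℕ} {A B : Set (V d)} (h : Sep j m A) (hAB : A ⊆ B) : Sep j m B :=
  let ⟨s, h1, h2⟩ := h; ⟨s, h1.trans hAB, h2⟩

/-- points of a coarse planar lattice -/
def pt (k l : Fin d) (c : V d) (L : ℕ) (x y : ℤ) : V d := c + (L * x) • ev k + (L * y) • ev l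

/-- a sheared strip of coarse boxes -/
def linkReg (k l : Fin d) (c : V d) (L K H : ℕ) (σ : ℕ → ℤ) : Set (V d) :=
  {y | ∃ x ≤ K, ∃ h < H, y ∈ box (pt k l c L x (σ x + h)) (5 * L)}

/-- a short open walk along the strip -/
def Link (k l : Fin d) (c : V d) (L K H ρ : ℕ) (σ : ℕ → ℤ) (O : Sym2 (V d) → Prop) : Prop :=
  ∃ y ∈ box c (2 * L), ∃ y' ∈ box (pt k l c L K (σ K)) (2 * L),
    Wk O (linkReg k l c L K H σ) (ρ * K) y y'

theorem linkReg_finite (k l : Fin d) (c : V d) (L K H : ℕ) (σ : ℕ → ℤ) :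
    (linkReg k l c L K H σ).Finite := by
  refine ((Set.finite_le_nat K).biUnion fun x _ => (Set.finite_lt_nat H).biUnion fun h _ =>
    (box (pt k l c L x (σ x + h)) (5 * L)).finite_toSet).subset ?_
  rintro y ⟨x, hx, h, hh, hy⟩
  exact Set.mem_biUnion hx (Set.mem_biUnion hh hy)

theorem dep_Link (k l : Fin d) (c : V d) (L K H ρ : ℕ) (σ : ℕ → ℤ) :
    Dep {ω | Link k l c L K H ρ σ (op ω)} (EIn (linkReg k l c L K H σ)) :=
  fun _ _ hω ⟨y, hy, y', hy', h⟩ => ⟨y, hy, y', hy', dep_Wk _ _ _ _ hω h⟩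

end Pool.Agent.P.MP_d74cc6_pr
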