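import Pool.Agent.P.MP_d74cc6_pr.Rank4
import Pool.Agent.P.MP_d74cc6_pr.Peierls

/-! The Peierls argument in all planar slices. -/

namespace Pool.Agent.P.MP_d74cc6_pr

variable {d : ℕ}

theorem card_slab (n : ℕ) (i : Fin d) (S : Finset ℤ) :
    ((box (0 : V d) n).filter fun y => y i ∈ S).card * (2 * n + 1) ≤ S.card * (2 * n + 1) ^ d := by
  have h1 : ((box (0 : V d) n).filter fun y => y i ∈ S) ⊆
      Fintype.piFinset (Function.update (fun _ => Finset.Icc (-(n : ℤ)) n) i S) := fun y hy => by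
    obtain ⟨h1, h2⟩ := Finset.mem_filter.1 hy
    refine Fintype.mem_piFinset.2 fun j => ?_
    by_cases hj : j = i
    · subst hj; simpa using h2
    · rw [Function.update_of_ne hj, Finset.mem_Icc, ← abs_le]
      simpa using mem_box.1 h1 j
  have h2 := Finset.card_le_card h1
  rw [Fintype.card_piFinset, ← Finset.mul_prod_erase _ _ (Finset.mem_univ i), Function.update_self,
    Finset.prod_congr rfl (g := fun _ => 2 * n + 1) fun j hj => by
      rw [Function.update_of_ne (Finset.ne_of_mem_erase hj), Int.card_Icc]; omega,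
    Finset.prod_const, Finset.card_erase_of_mem (Finset.mem_univ i), Finset.card_univ,
    Fintype.card_fin] at h2
  refine (Nat.mul_le_mul_right _ h2).trans (le_of_eq ?_)
  rw [mul_assoc, ← pow_succ, Nat.sub_add_cancel i.pos]

namespace Par

variable (P : Par d) (K : ℕ)

/-- the big box -/
noncomputable def Lam : Finset (V d) := box 0 (P.s * (3 * K + 5))

/-- the initial set -/
noncomputable def II : Finset (V d) := (box 0 (P.s * (K + 1))).filter
  fun y => 0 ≤ y P.k ∧ y P.k ≤ P.s ∧ (P.s : ℤ) ∣ y P.l + 5 * P.L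

/-- the final set -/
noncomputable def RR : Finset (V d) := (P.Lam K).filter fun y =>
  (∃ i, |y i| = (P.s * (3 * K + 5) : ℕ)) ∨ (3 * (P.s * K) ≤ y P.k ∧ y P.k ≤ 3 * (P.s * K) + P.s)

/-- the planar slices -/
noncomputable def Sl : Finset (V d) :=
  Fintype.piFinset fun i => if i = P.k ∨ i = P.l then {0} else Finset.Icc (-(K : ℤ)) K

/-- the cells of a slice -/
def cell (σ : V d) (z : ℤ × ℤ) : V d := pt P.k P.l σ 1 z.1 z.2

variable {K}

theorem mem_Sl {σ : V d} (h : σ ∈ P.Sl K) : σ P.k = 0 ∧ σ P.l = 0 ∧ ∀ i, |σ i| ≤ K := by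
  have h1 := Fintype.mem_piFinset.1 h
  refine ⟨by simpa using h1 P.k, by simpa using h1 P.l, fun i => ?_⟩
  have := h1 i
  split_ifs at this
  · simp [Finset.mem_singleton.1 this]
  · exact abs_le.2 (Finset.mem_Icc.1 this)

theorem cell_k {σ : V d} (h : σ ∈ P.Sl K) (z : ℤ × ℤ) : P.cell σ z P.k = z.1 := by
  simp [cell, pt_k, (P.mem_Sl h).1]
theorem cell_l {σ : V d} (h : σ ∈ P.Sl K) (z : ℤ × ℤ) : P.cell σ z P.l = z.2 := by
  simp [cell, pt_l, (P.mem_Sl h).2.1]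
theorem cell_ne (σ : V d) (z : ℤ × ℤ) {i : Fin d} (h : i ≠ P.k) (h' : i ≠ P.l) :
    P.cell σ z i = σ i := P.pt_ne _ _ _ _ h h'

theorem cell_inj {σ σ' : V d} (h : σ ∈ P.Sl K) (h' : σ' ∈ P.Sl K) {z z' : ℤ × ℤ}
    (e : P.cell σ z = P.cell σ' z') : σ = σ' ∧ z = z' := by
  refine ⟨funext fun i => ?_, Prod.ext ?_ ?_⟩
  · by_cases hk : i = P.k
    · rw [hk, (P.mem_Sl h).1, (P.mem_Sl h').1]
    by_cases hl : i = P.l
    · rw [hl, (P.mem_Sl h).2.1, (P.mem_Sl h').2.1]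
    · rw [← P.cell_ne σ z hk hl, e, P.cell_ne σ' z' hk hl]
  · rw [← P.cell_k h z, e, P.cell_k h']
  · rw [← P.cell_l h z, e, P.cell_l h']

theorem card_Sl (K : ℕ) : (2 * K + 1) ^ 2 * (P.Sl K).card = (2 * K + 1) ^ d := by
  have e : (2 * K + 1) ^ 2 = ∏ _i ∈ ({P.k, P.l} : Finset (Fin d)), (2 * K + 1) := by
    rw [Finset.prod_const, Finset.card_pair P.hkl]
  rw [Sl, Fintype.card_piFinset, e, ← Finset.prod_ite_mem_eq, ← Finset.prod_mul_distrib,
    Finset.prod_congr rfl (g := fun _ => 2 * K + 1) fun i _ => ?_]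
  · simp
  · by_cases h : i = P.k ∨ i = P.l
    · simp [h]
    · simp only [Finset.mem_insert, Finset.mem_singleton, h, if_false, Int.card_Icc]; omega

theorem cell_valid {σ : V d} (h : σ ∈ P.Sl K) {z : ℤ × ℤ} (h1 : |z.1| ≤ K) (h2 : |z.2| ≤ 2 * K) :
    box (P.pos (P.cell σ z)) (5 * P.s) ⊆ P.Lam K := by
  refine box_subset fun i => ?_
  have e : ((P.s * (3 * K + 5) : ℕ) : ℤ) = 3 * (P.s * K) + 5 * P.s := by push_cast; ring
  have h0 : (0 : ℤ) ≤ P.s * K := by positivity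
  rw [e, Pi.zero_apply, sub_zero]
  by_cases hk : i = P.k
  · subst hk
    have := P.s_mul_sub_le (a := z.1) (b := 0) (c := K) (by simpa using h1)
    rw [pos_k, P.cell_k h, abs_mul, show |(3 : ℤ)| = 3 from rfl]
    rw [mul_zero, sub_zero] at this
    omega
  rw [P.pos_ne _ hk]
  by_cases hl : i = P.l
  · subst hl
    have := P.s_mul_sub_le (a := z.2) (b := 0) (c := 2 * K) (by simpa using h2)
    rw [mul_zero, sub_zero, mul_left_comm] at this
    rw [P.cell_l h]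
    omega
  · have := P.s_mul_sub_le (a := σ i) (b := 0) (c := K) (by simpa using (P.mem_Sl h).2.2 i)
    rw [mul_zero, sub_zero] at this
    rw [P.cell_ne _ _ hk hl]
    omega

theorem nb_cell {σ : V d} (h : σ ∈ P.Sl K) (x y u : ℤ) :
    P.nb (P.cell σ (x, y)) u = P.cell σ (x + 1, y + u) := funext fun i => by
  by_cases hk : i = P.k
  · rw [hk, nb_k, P.cell_k h, P.cell_k h]
  by_cases hl : i = P.l
  · rw [hl, nb_l, P.cell_l h, P.cell_l h]
  · rw [P.nb_ne _ _ hk hl, P.cell_ne _ _ hk hl, P.cell_ne _ _ hk hl]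

/-- the rectangle of sites -/
noncomputable def DD (K : ℕ) : Finset (ℤ × ℤ) := Finset.Ico (0 : ℤ) K ×ˢ Finset.Icc (-(K : ℤ)) (2 * K)

theorem reach (hK : 1 ≤ K) (x₀ : ℝ) (ω : Om d) {σ : V d} (hσ : σ ∈ P.Sl K) :
    Reach {z | z ∈ DD K ∧ P.Closed (P.Lam K) (P.II K) (P.RR K) x₀ ω (P.cell σ z)} (-K) (0, K) := by
  by_contra hr
  obtain ⟨F, h1, h2, h3, h4⟩ := exists_curve
    (X := {z | z ∈ DD K ∧ P.Closed (P.Lam K) (P.II K) (P.RR K) x₀ ω (P.cell σ z)})
    ((DD K).finite_toSet.subset fun z hz => hz.1) (-K)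
  obtain ⟨f1, f2, f3, f4, f5⟩ := P.facts
  have h5 : ∀ x : ℕ, F x ≤ K + x := fun x => by
    induction x with
    | zero => simpa using h4 _ _ hr
    | succ x ih =>
      have := (abs_le.1 (h3 x)).2
      push_cast; omega
  have h6 : ∀ x : ℕ, x < K →
      ¬ P.Closed (P.Lam K) (P.II K) (P.RR K) x₀ ω (P.cell σ (x, F x)) := fun x hx h => by
    refine h2 x ⟨Finset.mem_product.2 ⟨Finset.mem_Ico.2 ⟨?_, ?_⟩, Finset.mem_Icc.2 ⟨h1 _, ?_⟩⟩, h⟩
    · positivity
    · exact Int.ofNat_lt.2 hx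
    · have := h5 x
      simp only []; omega
  have h7 : ∀ x : ℕ, x ≤ K → P.sv ω (P.cell σ (x, F x)) ∈ P.Lam K ∧
      P.lo (P.Spec ω) (P.cell σ (x, F x)) < P.t ∧ ¬ dead (P.Lam K) (P.II K) (P.RR K)
        (op (orMap ω)) x₀ (P.sv ω (P.cell σ (x, F x))) := fun x hx => by
    induction x with
    | zero =>
      have g1 := P.lo_lt_of_not_Bad fun h => h6 0 hK (Or.inl h)
      have g2 := P.Lj_le g1
      have g3 : P.sv ω (P.cell σ ((0 : ℕ), F (0 : ℕ))) ∈ P.II K := by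
        have e : ((P.s * (K + 1) : ℕ) : ℤ) = P.s * K + P.s := by push_cast; ring
        have h0 : (0 : ℤ) ≤ P.s * K := by positivity
        have g4 : P.sv ω (P.cell σ ((0 : ℕ), F (0 : ℕ))) P.k =
            11 * (P.L * P.lo (P.Spec ω) (P.cell σ ((0 : ℕ), F (0 : ℕ)))) := by
          rw [sv, P.vp_ne _ _ P.hkl, cand_k, P.cell_k hσ]; simp
        refine Finset.mem_filter.2 ⟨mem_box.2 fun i => ?_, by omega, by omega, P.dvd_vp _ _⟩
        rw [e, Pi.zero_apply, sub_zero]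
        by_cases hk : i = P.k
        · rw [hk, g4, abs_le]; omega
        by_cases hl : i = P.l
        · have := P.s_mul_sub_le (a := F (0 : ℕ)) (b := 0) (c := K) (by
            have := h5 0; have := h1 (0 : ℕ); rw [abs_le]; omega)
          rw [abs_le] at this
          rw [hl, sv, vp_l, P.cell_l hσ, abs_le]
          simp only []
          omega
        · have := P.s_mul_sub_le (a := σ i) (b := 0) (c := K)
            (by simpa using (P.mem_Sl hσ).2.2 i)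
          rw [mul_zero, sub_zero] at this
          rw [sv, P.vp_ne _ _ hl, P.cand_ne _ _ hk, P.cell_ne _ _ hk hl]
          omega
      exact ⟨box_mono _ (Nat.mul_le_mul_left _ (by omega)) (Finset.mem_filter.1 g3).1, g1,
        fun h => h6 0 hK (Or.inr ⟨3, h, Or.inr g3⟩)⟩
    | succ x ih =>
      obtain ⟨-, -, g1⟩ := ih (by omega)
      have g2 := P.wk_of_not_Bad (fun h => h6 x hx (Or.inl h)) (h3 x)
      have g3 := abs_le.1 (h3 x)
      have e : P.nb (P.cell σ (x, F x)) (F (x + 1) - F x) = P.cell σ ((x + 1 : ℕ), F (x + 1 : ℕ)) := by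
        rw [P.nb_cell hσ]; push_cast; congr 2; ring
      rw [e] at g2
      refine ⟨P.cell_valid hσ (z := (x, F x)) ?_ ?_ g2.2.mem_right, g2.1, fun h =>
        h6 x hx (Or.inr ⟨⟨(F (x + 1) - F x + 1).toNat, by omega⟩, ?_, Or.inl g1⟩)⟩
      · rw [abs_le]; simp only []; omega
      · have := h5 x; have := h1 x
        rw [abs_le]; simp only []; omega
      · rw [par, if_neg (fun h' => by have := congrArg Fin.val h'; simp only at this; omega),
          show (((F (x + 1) - F x + 1).toNat : ℕ) : ℤ) - 1 = F (x + 1) - F x by omega, e]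
        exact h
  obtain ⟨g1, g2, g3⟩ := h7 K le_rfl
  refine g3 (dead_of_mem (Finset.mem_filter.2 ⟨g1, Or.inr ?_⟩))
  have g4 := P.Lj_le g2
  rw [sv, P.vp_ne _ _ P.hkl, cand_k, P.cell_k hσ]
  simp only []
  omega

theorem Pr_rk_le {π : Sym2 (V d) × Bool → unitInterval} {ε : unitInterval}
    (hπ : ∀ e, π (e, true) = ε) {x₀ : ℝ} (hx : 2 < x₀)
    (hx' : 2 * d + (2 * d) ^ ((d + 4 * P.ρ) * P.s + 1) < x₀)
    (hB : ∀ T : Finset (V d), Pr π {ω | ∀ a ∈ T, P.Bad ω a} ≤ (1 / 64) ^ T.card)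
    (hM : (1 : ℝ) ≤ P.M * (1 / 64) ^ (4 * (d + 4 * P.ρ + 11) ^ d)) (hK : 1 ≤ K) (r₀ : ℕ) :
    Pr π {ω | rk (P.Lam K) (P.II K) (P.RR K) (op (orMap ω)) x₀ ≤ r₀} ≤
      4 * P.M ^ r₀ * (1 / 4) ^ ((2 * K + 1) * (P.Sl K).card) := by
  classical
  obtain ⟨𝒯, h1, h2, h3⟩ := exists_witnesses (DD K) (-K) (0, K)
  let TT : (P.Sl K → Finset (ℤ × ℤ)) → Finset (V d) := fun τ =>
    Finset.univ.biUnion fun σ => (τ σ).image (P.cell σ)
  refine le_trans (Pr_mono (B := ⋃ τ ∈ Fintype.piFinset fun _ : P.Sl K => 𝒯,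
    {ω | (∀ a ∈ TT τ, P.Closed (P.Lam K) (P.II K) (P.RR K) x₀ ω a) ∧
      rk (P.Lam K) (P.II K) (P.RR K) (op (orMap ω)) x₀ ≤ r₀}) fun ω hω => ?_)
    ((Pr_biUnion_le π _ _).trans ((Finset.sum_le_sum
      (g := fun τ => 4 * (P.M : ℝ) ^ r₀ * ∏ σ, (1 / 8 : ℝ) ^ (τ σ).card) fun τ hτ => ?_).trans ?_))
  · choose τ h4 h5 using fun σ : P.Sl K => h2 _ (fun z hz => hz.1) (P.reach hK x₀ ω σ.2)
    refine Set.mem_biUnion (x := τ) (Finset.mem_coe.2 (Fintype.mem_piFinset.2 h4))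
      ⟨fun a ha => ?_, hω⟩
    obtain ⟨σ, -, ha⟩ := Finset.mem_biUnion.1 ha
    obtain ⟨z, hz, rfl⟩ := Finset.mem_image.1 ha
    exact (h5 σ hz).2
  · refine (P.Pr_closed_le hπ hx hx' (fun y hy => (Finset.mem_filter.1 hy).2.2.2) (by norm_num)
      (by norm_num) hB hM r₀ (TT τ) fun a ha => ?_).trans (le_of_eq ?_)
    · obtain ⟨σ, -, ha⟩ := Finset.mem_biUnion.1 ha
      obtain ⟨z, hz, rfl⟩ := Finset.mem_image.1 ha
      have := Finset.mem_product.1 (h1 _ (Fintype.mem_piFinset.1 hτ σ) hz)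
      rw [Finset.mem_Ico, Finset.mem_Icc] at this
      exact P.cell_valid σ.2 (by rw [abs_le]; omega) (by rw [abs_le]; omega)
    · rw [Finset.prod_pow_eq_pow_sum, Finset.card_biUnion, Finset.sum_congr rfl fun σ _ =>
        Finset.card_image_of_injective _ fun z z' h => (P.cell_inj σ.2 σ.2 h).2]
      · norm_num
      · intro σ _ σ' _ hne
        rw [Function.onFun, Finset.disjoint_left]
        intro a ha ha'
        obtain ⟨z, -, rfl⟩ := Finset.mem_image.1 ha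
        obtain ⟨z', -, h⟩ := Finset.mem_image.1 ha'
        exact hne (Subtype.ext (P.cell_inj σ'.2 σ.2 h).1.symm)
  · rw [← Finset.mul_sum, ← Finset.prod_univ_sum (fun _ : P.Sl K => 𝒯)
      fun _ T => (1 / 8 : ℝ) ^ T.card, Finset.prod_const, Finset.card_univ, Fintype.card_coe, pow_mul]
    refine mul_le_mul_of_nonneg_left (pow_le_pow_left₀
      (Finset.sum_nonneg fun T _ => by positivity) ?_ _) (by positivity)
    refine (h3 _ (by norm_num) le_rfl).trans (le_of_eq ?_)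
    rw [show ((((0 : ℤ), (K : ℤ)).2 - -(K : ℤ) + 1).toNat) = 2 * K + 1 by simp only []; omega]
    norm_num

theorem nbr_subset (K : ℕ) : ∀ x ∈ P.Lam K, x ∉ P.RR K → nbr x ⊆ P.Lam K := by
  intro x hx hR y hy
  refine mem_box.2 fun i => ?_
  have h1 := mem_box.1 hx i
  have h2 : ¬ |x i| = (P.s * (3 * K + 5) : ℕ) := fun h =>
    hR (Finset.mem_filter.2 ⟨hx, Or.inl ⟨i, h⟩⟩)
  have h3 := abs_sub_le_one_of_adj (mem_nbr.1 hy) i
  have h4 := abs_sub_le (y i) (x i) 0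
  rw [Pi.zero_apply, sub_zero] at h1 ⊢
  rw [sub_zero, sub_zero] at h4
  omega

theorem card_RR (K : ℕ) :
    (P.RR K).card * (2 * (P.s * (3 * K + 5)) + 1) ≤ (2 * d + P.s + 1) * (P.Lam K).card := by
  classical
  set n := P.s * (3 * K + 5) with hn
  have h1 : P.RR K ⊆ (Finset.univ.biUnion fun i => (box (0 : V d) n).filter
      fun y => y i ∈ ({(n : ℤ), -(n : ℤ)} : Finset ℤ)) ∪ (box (0 : V d) n).filter
      fun y => y P.k ∈ Finset.Icc (3 * ((P.s : ℤ) * K)) (3 * (P.s * K) + P.s) := fun y hy => by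
    obtain ⟨h1, ⟨i, h2⟩ | h2⟩ := Finset.mem_filter.1 hy
    · refine Finset.mem_union_left _ (Finset.mem_biUnion.2 ⟨i, Finset.mem_univ _,
        Finset.mem_filter.2 ⟨h1, ?_⟩⟩)
      rw [Finset.mem_insert, Finset.mem_singleton]
      exact eq_or_eq_neg_of_abs_eq h2
    · exact Finset.mem_union_right _ (Finset.mem_filter.2 ⟨h1, Finset.mem_Icc.2 h2⟩)
  have h2 := (Finset.card_le_card h1).trans
    ((Finset.card_union_le _ _).trans (Nat.add_le_add_right Finset.card_biUnion_le _))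
  refine (Nat.mul_le_mul_right _ h2).trans ?_
  rw [add_mul, Finset.sum_mul, Lam, card_box, ← hn, add_assoc, add_mul]
  refine add_le_add ((Finset.sum_le_card_nsmul _ _ (2 * (2 * n + 1) ^ d) fun i _ =>
    (card_slab n i _).trans (Nat.mul_le_mul_right _ Finset.card_le_two)).trans (le_of_eq ?_))
    ((card_slab n _ _).trans (le_of_eq ?_))
  · simp only [Finset.card_univ, Fintype.card_fin, smul_eq_mul]; ring
  · rw [Int.card_Icc]; congr 1; omega

theorem II_RR_sep (hK : 1 ≤ K) :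
    ∀ v ∈ P.II K, ∀ w ∈ P.RR K, ∃ i, ((P.s * K : ℕ) : ℤ) ≤ |v i - w i| := by
  intro v hv w hw
  obtain ⟨h1, h2, h3, -⟩ := Finset.mem_filter.1 hv
  have h4 : (P.s : ℤ) * 1 ≤ P.s * K :=
    mul_le_mul_of_nonneg_left (by exact_mod_cast hK) (Nat.cast_nonneg _)
  obtain ⟨-, ⟨i, h5⟩ | h5⟩ := Finset.mem_filter.1 hw
  · refine ⟨i, ?_⟩
    have h6 := mem_box.1 h1 i
    have h7 := abs_sub_abs_le_abs_sub (w i) (v i)
    rw [Pi.zero_apply, sub_zero, show ((P.s * (K + 1) : ℕ) : ℤ) = P.s * K + P.s by push_cast; ring]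
      at h6
    rw [show ((P.s * (3 * K + 5) : ℕ) : ℤ) = 3 * (P.s * K) + 5 * P.s by push_cast; ring] at h5
    rw [abs_sub_comm]
    push_cast
    omega
  · refine ⟨P.k, ?_⟩
    rw [le_abs']
    push_cast
    omega

end Par

end Pool.Agent.P.MP_d74cc6_pr
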