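import Pool.Agent.P.MP_d74cc6_pr.Link
import Pool.Agent.P.MP_d74cc6_pr.Rank5

/-! The transfer rank is of surface order. -/

open MeasureTheory

namespace Pool.Agent.P.MP_d74cc6_pr

variable {d : ℕ}

theorem exists_scale {r δ : ℝ} (hr : 0 < r) (hr1 : r ≤ 1) (hδ : 0 < δ) (N : ℕ) :
    ∃ t : ℕ, N ≤ t ∧ (1 - r) ^ t ≤ δ ∧ (71 * t + 1 : ℝ) * (1 / 2) ^ (9 * t) ≤ δ := by
  obtain ⟨t₁, h1⟩ := exists_pow_lt_of_lt_one hδ (show 1 - r < 1 by linarith)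
  obtain ⟨t₂, h2⟩ := exists_pow_lt_of_lt_one (show 0 < δ / 72 by positivity)
    (show (1 / 2 : ℝ) < 1 by norm_num)
  refine ⟨N + t₁ + t₂, by omega, (pow_le_pow_of_le_one (by linarith) (by linarith)
    (by omega)).trans h1.le, ?_⟩
  generalize ht : N + t₁ + t₂ = t
  have h3 : (t : ℝ) + 1 ≤ 2 ^ t := by exact_mod_cast Nat.lt_two_pow_self
  have h4 : (1 / 2 : ℝ) ^ (9 * t) ≤ (1 / 2) ^ t * (1 / 2) ^ t₂ := by
    rw [← pow_add]; exact pow_le_pow_of_le_one (by norm_num) (by norm_num) (by omega)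
  have h5 : (2 : ℝ) ^ t * (1 / 2) ^ t = 1 := by rw [← mul_pow]; norm_num
  calc (71 * t + 1 : ℝ) * (1 / 2) ^ (9 * t) ≤ (72 * 2 ^ t) * ((1 / 2) ^ t * (1 / 2) ^ t₂) :=
        mul_le_mul (by linarith [Nat.cast_nonneg (α := ℝ) t]) h4 (by positivity) (by positivity)
    _ = 72 * (2 ^ t * (1 / 2) ^ t) * (1 / 2) ^ t₂ := by ring
    _ ≤ δ := by rw [h5]; linarith

theorem le_integral_of_Pr {ι : Type*} (π : ι → unitInterval) {f : (ι → Bool) → ℕ} (hf : LocF f)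
    (r₀ : ℕ) (h : Pr π {ω | f ω ≤ r₀} ≤ 1 / 2) : ((r₀ : ℝ) + 1) / 2 ≤ ∫ ω, (f ω : ℝ) ∂PM π := by
  have l : Loc {ω | f ω ≤ r₀} := hf.loc {n | n ≤ r₀}
  have h1 : ∫ ω, {ω | f ω ≤ r₀}ᶜ.indicator (fun _ => (r₀ : ℝ) + 1) ω ∂PM π ≤ ∫ ω, (f ω : ℝ) ∂PM π := by
    refine integral_mono ((l.compl.locF_indicator _).integrable π)
      ((hf.comp fun n => (n : ℝ)).integrable π) fun ω => ?_
    by_cases hω : ω ∈ {ω | f ω ≤ r₀}ᶜ
    · rw [Set.indicator_of_mem hω]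
      have : r₀ < f ω := not_le.1 (show ¬ f ω ≤ r₀ from hω)
      exact_mod_cast this
    · rw [Set.indicator_of_notMem hω]
      exact Nat.cast_nonneg _
  rw [integral_indicator_const' π l.compl, Pr_compl π l] at h1
  nlinarith [Nat.cast_nonneg (α := ℝ) r₀]

theorem rank_lower {k l : Fin d} (hkl : k ≠ l) {q p : unitInterval} (hqp : (q : ℝ) < p)
    (hp : (p : ℝ) < 1) {θ : ℝ} (hθ : 0 < θ) (hR : Perc d q θ) :
    ∃ c : ℝ, 0 < c ∧ ∀ ε : ℝ, 0 < ε → ∃ (Λ I R : Finset (V d)) (x₀ : ℝ) (ℓ : ℕ),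
      Λ.Nonempty ∧ (∀ x ∈ Λ, x ∉ R → nbr x ⊆ Λ) ∧ (R.card : ℝ) ≤ ε * Λ.card ∧ 2 * d < x₀ ∧
      (∀ v ∈ I, ∀ w ∈ R, ∃ i, (ℓ : ℤ) ≤ |v i - w i|) ∧
      c * Λ.card ≤ ℓ * ∫ ω, (rk Λ I R (op ω) x₀ : ℝ) ∂PM fun _ => p := by
  have q0 : (0 : ℝ) ≤ q := q.2.1
  let p₁ : unitInterval := ⟨(q + p) / 2, by linarith, by linarith⟩
  have e1 : (p₁ : ℝ) = (q + p) / 2 := rfl
  have a1 : (0 : ℝ) < 1 - p₁ := by linarith
  have a2 : 0 < (1 - (p : ℝ)) / (1 - p₁) := div_pos (by linarith) a1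
  have a3 : (1 - (p : ℝ)) / (1 - p₁) < 1 := (div_lt_one a1).2 (by linarith)
  let ε : unitInterval := ⟨1 - (1 - p) / (1 - p₁), by linarith, by linarith⟩
  have e2 : (ε : ℝ) = 1 - (1 - p) / (1 - p₁) := rfl
  let π : Sym2 (V d) × Bool → unitInterval := fun x => cond x.2 ε p₁
  have hπ : ∀ e : Sym2 (V d), 1 - ((fun _ => p) e : ℝ) = ∏ b, (1 - (π (e, b) : ℝ)) := fun e => by
    rw [Fintype.prod_bool]
    change 1 - (p : ℝ) = (1 - ε) * (1 - p₁)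
    rw [e2, sub_sub_cancel, div_mul_cancel₀ _ a1.ne']
  obtain ⟨κ, κ0, κ1, hκ⟩ : ∃ κ : ℝ, 0 < κ ∧ κ ≤ 1 ∧ ∀ x b, κ ≤ wt (π x) b := by
    refine ⟨min (min p₁ (1 - p₁)) (min ε (1 - ε)), lt_min (lt_min (by linarith) a1)
      (lt_min (by linarith) (by linarith)), (min_le_left _ _).trans
        ((min_le_left _ _).trans p₁.2.2), ?_⟩
    rintro ⟨e, _ | _⟩ (_ | _)
    · exact (min_le_left _ _).trans (min_le_right _ _)
    · exact (min_le_left _ _).trans (min_le_left _ _)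
    · exact (min_le_right _ _).trans (min_le_right _ _)
    · exact (min_le_right _ _).trans (min_le_left _ _)
  set δ : ℝ := (1 / 64) ^ 11 ^ d with hδ
  have δ0 : 0 < δ := by positivity
  obtain ⟨L, ρ, hL, hlink⟩ := link hkl (q := q) (p := p₁) (by linarith) hθ hR
    (show 0 < δ / 10 by positivity)
  set b := 6 * (4 * (d + 4 * ρ + 11) ^ d) with hb
  have b0 : 0 < b := by positivity
  obtain ⟨t, ht, ht1, ht2⟩ := exists_scale
    (r := κ ^ ((10 * L + 1) ^ d * (10 * L + 1) ^ d + 4 * d * 2 ^ b)) (by positivity)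
    (pow_le_one₀ κ0.le κ1) (show 0 < δ / 10 by positivity) (2 ^ b + 10)
  let P : Par d := ⟨k, l, hkl, L, 2 ^ b, t, ρ, hL, Nat.one_le_two_pow, ht⟩
  have hBad : ∀ a, Pr π {ω | P.Bad ω a} ≤ δ := fun a => by
    refine (P.Pr_Bad_le (p := p₁) (fun _ => rfl) (δ := δ / 10 + δ / 10) (by positivity)
      (fun a j hj => P.le_Pr_Spec κ0.le κ1 hκ a hj) (fun a u j j' hu hj hj' => ?_) a).trans ?_
    · refine (hlink _ _ t _ (le_trans (by norm_num) (le_trans (Nat.le_add_left 10 _) ht)) (P.sig_zero u hj) (P.sig_step hu j)).trans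
        (add_le_add le_rfl (le_trans ?_ ht2))
      refine mul_le_mul_of_nonneg_right ?_ (by positivity)
      exact_mod_cast Nat.succ_le_succ (P.KK_le j hj')
    · change 4 * (1 - κ ^ ((10 * L + 1) ^ d * (10 * L + 1) ^ d + 4 * d * 2 ^ b)) ^ t + _ ≤ _
      linarith
  have s0 : 0 < P.s := by
    have := P.facts
    omega
  have s0' : (0 : ℝ) < P.s := by exact_mod_cast s0
  have b0' : (0 : ℝ) < b := by exact_mod_cast b0
  refine ⟨P.s / (6 * b * (11 * P.s) ^ d), by positivity, fun ε' hε' => ?_⟩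
  obtain ⟨K, hK⟩ := exists_nat_ge ((2 * d + P.s + 1) / ε')
  have K0 : (0 : ℝ) < K := lt_of_lt_of_le (by positivity) hK
  have K1 : 1 ≤ K := by exact_mod_cast K0
  have x1 : (0 : ℝ) ≤ (2 * d) ^ ((d + 4 * P.ρ) * P.s + 1) := by positivity
  have d0 : (0 : ℝ) ≤ d := Nat.cast_nonneg d
  refine ⟨P.Lam K, P.II K, P.RR K, 2 * d + (2 * d) ^ ((d + 4 * P.ρ) * P.s + 1) + 3, P.s * K,
    ⟨0, self_mem_box _ _⟩, P.nbr_subset K, ?_, by linarith, P.II_RR_sep K1, ?_⟩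
  · have h1 : ((P.RR K).card : ℝ) * (2 * (P.s * (3 * K + 5)) + 1) ≤
        (2 * d + P.s + 1) * (P.Lam K).card := by exact_mod_cast P.card_RR K
    rw [div_le_iff₀ hε'] at hK
    have h2 : (K : ℝ) ≤ 2 * (P.s * (3 * K + 5)) + 1 := by
      have : (1 : ℝ) ≤ P.s := by exact_mod_cast s0
      nlinarith
    refine le_of_mul_le_mul_right (a := (K : ℝ)) ?_ K0
    calc ((P.RR K).card : ℝ) * K ≤ (P.RR K).card * (2 * (P.s * (3 * K + 5)) + 1) :=
          mul_le_mul_of_nonneg_left h2 (Nat.cast_nonneg _)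
      _ ≤ (K * ε') * (P.Lam K).card := h1.trans (mul_le_mul_of_nonneg_right hK (Nat.cast_nonneg _))
      _ = _ := by ring
  set m := (2 * K + 1) * (P.Sl K).card with hm
  have hm1 : (2 * K + 1) * m = (2 * K + 1) ^ d := by rw [← P.card_Sl K, hm]; ring
  have hm3 : 3 ≤ m := by
    have : (P.Sl K).card ≠ 0 := fun h => by
      have := P.card_Sl K
      rw [h, mul_zero] at this
      exact absurd this.symm (by positivity)
    exact le_trans (by omega) (Nat.le_mul_of_pos_right _ (Nat.pos_of_ne_zero this))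
  have h1 := P.Pr_rk_le (π := π) (ε := ε) (fun _ => rfl)
    (x₀ := 2 * d + (2 * d) ^ ((d + 4 * P.ρ) * P.s + 1) + 3) (by linarith) (by linarith)
    (P.Pr_forall_Bad_le (by norm_num) (by norm_num) hBad) (le_of_eq (by
      change (1 : ℝ) = ((2 ^ b : ℕ) : ℝ) * (1 / 64) ^ (4 * (d + 4 * ρ + 11) ^ d)
      push_cast
      rw [hb, pow_mul, ← mul_pow]; norm_num)) K1 (m / b)
  rw [← hm, show {ω : Om d | rk (P.Lam K) (P.II K) (P.RR K) (op (orMap ω)) _ ≤ m / b} =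
    {ω | orMap ω ∈ {ω | rk (P.Lam K) (P.II K) (P.RR K) (op ω) _ ≤ m / b}} from rfl,
    Pr_orMap π (fun _ => p) hπ (A := {ω | rk (P.Lam K) (P.II K) (P.RR K) (op ω) _ ≤ m / b})
      ((locF_rk _ _ _ _).loc {n | n ≤ m / b})] at h1
  have h2 := le_integral_of_Pr _ (locF_rk _ _ _ _) (m / b) (h1.trans (by
    change 4 * ((2 ^ b : ℕ) : ℝ) ^ (m / b) * (1 / 4) ^ m ≤ 1 / 2
    push_cast
    rw [← pow_mul]
    have g1 : (2 : ℝ) ^ (b * (m / b)) ≤ 2 ^ m := pow_le_pow_right₀ (by norm_num) (Nat.mul_div_le m b)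
    have g2 : (2 : ℝ) ^ m * (1 / 4) ^ m = (1 / 2) ^ m := by rw [← mul_pow]; norm_num
    have g3 : (1 / 2 : ℝ) ^ m ≤ (1 / 2) ^ 3 := pow_le_pow_of_le_one (by norm_num) (by norm_num) hm3
    have g4 := mul_le_mul_of_nonneg_right g1 (show (0 : ℝ) ≤ (1 / 4) ^ m by positivity)
    linarith))
  have h3 : (m : ℝ) ≤ b * ((m / b : ℕ) + 1) := by exact_mod_cast (Nat.lt_mul_div_succ m b0).le
  have h4 : ((P.Lam K).card : ℝ) ≤ (11 * P.s) ^ d * ((2 * K + 1) * m) := by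
    have : (P.Lam K).card ≤ (11 * P.s) ^ d * ((2 * K + 1) * m) := by
      rw [hm1, ← mul_pow, Par.Lam, card_box]
      exact Nat.pow_le_pow_left (by nlinarith) _
    exact_mod_cast this
  have K1' : (1 : ℝ) ≤ K := by exact_mod_cast K1
  refine le_trans ?_ (mul_le_mul_of_nonneg_left h2 (Nat.cast_nonneg _))
  rw [div_mul_eq_mul_div, div_le_iff₀ (by positivity)]
  calc (P.s : ℝ) * (P.Lam K).card ≤ P.s * ((11 * P.s) ^ d * ((3 * K) * (b * ((m / b : ℕ) + 1)))) := by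
        refine mul_le_mul_of_nonneg_left (h4.trans (mul_le_mul_of_nonneg_left
          (mul_le_mul (by linarith) h3 (Nat.cast_nonneg _) (by positivity)) (by positivity))) s0'.le
    _ = _ := by push_cast; ring

end Pool.Agent.P.MP_d74cc6_pr
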