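import Pool.Agent.P.MP_d74cc6_pr.Green

/-! Pendant paths of random length: at most one choice of the lengths is compatible with the
existence of the dual families of solutions. -/

namespace Pool.Agent.P.MP_d74cc6_pr

variable {d : ℕ}

/-- two layer configurations -/
abbrev Om (d : ℕ) := Sym2 (V d) × Bool → Bool

theorem zv_apply_self (l : Fin d) (v : V d) (i : ℕ) : zv l v i l = v l - i := by simp [zv]

theorem zv_apply_ne {l j : Fin d} (h : j ≠ l) (v : V d) (i : ℕ) : zv l v i j = v j := by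
  simp [zv, ev_ne h]

theorem zv_inj {l : Fin d} {v : V d} {i j : ℕ} (h : zv l v i = zv l v j) : i = j := by
  have := congrFun h l
  rw [zv_apply_self, zv_apply_self] at this
  omega

@[simp] theorem zv_zero (l : Fin d) (v : V d) : zv l v 0 = v := by simp [zv]

theorem zv_adj (l : Fin d) (v : V d) (i : ℕ) : (lat d).Adj (zv l v (i + 1)) (zv l v i) :=
  lat_adj.2 ⟨l, Or.inl (by simp only [zv, Nat.cast_add, Nat.cast_one, add_smul, one_smul]; abel)⟩

/-- the vertices of the hanging segment -/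
def zoneSet (l : Fin d) (M : ℕ) (v : V d) : Set (V d) := {y | ∃ i, 1 ≤ i ∧ i ≤ M ∧ y = zv l v i}

theorem zoneSet_finite (l : Fin d) (M : ℕ) (v : V d) : (zoneSet l M v).Finite :=
  ((Set.finite_le_nat M).image (zv l v)).subset fun _ ⟨i, _, h2, h3⟩ => ⟨i, h2, h3.symm⟩

/-- the edges of the hanging segment -/
def seg (l : Fin d) (v : V d) (i : ℕ) : Sym2 (V d) := s(zv l v (i + 1), zv l v i)

/-- the hanging segment is isolated and exactly one of its edges is closed -/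
def ZS (l : Fin d) (M : ℕ) (ω : Om d) (v : V d) : Prop :=
  (∀ e ∈ ETo (zoneSet l M v), ω (e, false) = false) ∧
    ∃ t < M, Zone (fun e => ω (e, true) = true) l M v t

/-- the coordinates carrying the types -/
noncomputable def segJ (l : Fin d) (M : ℕ) (Q : Finset (V d)) : Finset (Sym2 (V d) × Bool) :=
  (Q ×ˢ Finset.range M).image fun p => (seg l p.1 p.2, true)

theorem mem_segJ {l : Fin d} {M : ℕ} {Q : Finset (V d)} {x : Sym2 (V d) × Bool} :
    x ∈ segJ l M Q ↔ ∃ v ∈ Q, ∃ i < M, x = (seg l v i, true) := by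
  simp only [segJ, Finset.mem_image, Finset.mem_product, Finset.mem_range, Prod.exists]
  constructor
  · rintro ⟨v, i, ⟨h1, h2⟩, h3⟩; exact ⟨v, h1, i, h2, h3.symm⟩
  · rintro ⟨v, h1, i, h2, h3⟩; exact ⟨v, i, ⟨h1, h2⟩, h3.symm⟩

theorem dep_ZS (l : Fin d) (M : ℕ) (v : V d) :
    Dep {ω | ZS l M ω v} (ETo (zoneSet l M v) ×ˢ Set.univ) := by
  rintro ω ω' hω ⟨h1, t, ht, h2⟩
  refine ⟨fun e he => (hω (e, false) ⟨he, trivial⟩).symm.trans (h1 e he), t, ht,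
    fun i i1 iM x hx => ?_⟩
  rw [← h2 i i1 iM x hx]
  simp only []
  rw [hω (s(zv l v i, x), true) ⟨mk_mem_ETo.2 ⟨hx, Or.inl ⟨i, i1, iM, rfl⟩⟩, trivial⟩]

theorem Zone.seg_iff {O : Sym2 (V d) → Prop} {l : Fin d} {M : ℕ} {v : V d} {t : ℕ}
    (h : Zone O l M v t) {i : ℕ} (hi : i < M) : O (seg l v i) ↔ i ≠ t := by
  rw [seg, h (i + 1) (by omega) hi _ (zv_adj l v i)]
  constructor
  · rintro (⟨-, h⟩ | ⟨h, -⟩)
    · exact h
    · have := zv_inj h; omega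
  · exact fun h => Or.inl ⟨rfl, h⟩

theorem ZS.zone {l : Fin d} {M : ℕ} {ω : Om d} {v : V d} (h : ZS l M ω v) {t : ℕ}
    (ht : ∀ i < M, ω (seg l v i, true) = true ↔ i ≠ t) : Zone (op (orMap ω)) l M v t := by
  obtain ⟨h1, t', ht', h2⟩ := h
  have : t' = t := by
    by_contra hne
    exact (h2.seg_iff ht').1 ((ht t' ht').2 hne) rfl
  subst this
  intro i i1 iM x hx
  rw [← h2 i i1 iM x hx, op, orMap_eq_true, Bool.exists_bool,
    h1 _ (mk_mem_ETo.2 ⟨hx, Or.inl ⟨i, i1, iM, rfl⟩⟩)]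
  simp

section Pattern

variable {l : Fin d} {M : ℕ} {Q : Finset (V d)}
  (hinj : ∀ v ∈ Q, ∀ v' ∈ Q, ∀ i ≤ M, ∀ i' ≤ M, zv l v i = zv l v' i' → v = v')
include hinj

theorem seg_inj {v v' : V d} (hv : v ∈ Q) (hv' : v' ∈ Q) {i i' : ℕ} (hi : i < M) (hi' : i' < M)
    (h : seg l v i = seg l v' i') : v = v' ∧ i = i' := by
  rcases Sym2.eq_iff.1 h with ⟨h1, h2⟩ | ⟨h1, h2⟩
  · obtain rfl := hinj v hv v' hv' i hi.le i' hi'.le h2
    exact ⟨rfl, zv_inj h2⟩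
  · obtain rfl := hinj v hv v' hv' (i + 1) hi i' hi'.le h1
    have := zv_inj h1
    have := zv_inj h2
    omega

open Classical in
omit hinj in
/-- the pattern closing the edge number `θ v` of the segment at `v` -/
noncomputable def pat (l : Fin d) {M : ℕ} {Q : Finset (V d)} (θ : Q → Fin M)
    (x : Sym2 (V d) × Bool) : Bool :=
  decide (∀ v : Q, x.1 ≠ seg l v (θ v))

theorem pat_seg (θ : Q → Fin M) (v : Q) {i : ℕ} (hi : i < M) (b : Bool) :
    pat l θ (seg l v i, b) = true ↔ i ≠ θ v := by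
  simp only [pat, decide_eq_true_eq]
  constructor
  · rintro h rfl
    exact h v rfl
  · intro h v' h'
    obtain ⟨h1, h2⟩ := seg_inj hinj v.2 v'.2 hi (θ v').2 h'
    obtain rfl := Subtype.ext h1
    exact h h2

theorem ZS.overwrite {ω : Om d} (θ : Q → Fin M) {v : V d} (hv : v ∈ Q) (h : ZS l M ω v) :
    ZS l M (ow (segJ l M Q) (pat l θ) ω) v := by
  obtain ⟨h1, t, ht, h2⟩ := h
  refine ⟨fun e he => ?_, θ ⟨v, hv⟩, (θ _).2, fun i i1 iM x hx => ?_⟩
  · rw [ow_of_notMem (by simp [mem_segJ]), h1 e he]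
  simp only []
  by_cases hx1 : x = zv l v (i - 1)
  · obtain ⟨i, rfl⟩ : ∃ j, i = j + 1 := ⟨i - 1, by omega⟩
    subst hx1
    rw [Nat.add_sub_cancel]
    change ow _ _ _ (seg l v i, true) = true ↔ _
    rw [ow_of_mem (mem_segJ.2 ⟨v, hv, i, iM, rfl⟩), pat_seg hinj θ ⟨v, hv⟩ iM]
    constructor
    · exact fun h => Or.inl ⟨rfl, h⟩
    · rintro (⟨-, h⟩ | ⟨h, -⟩)
      · exact h
      · have := zv_inj h; omega
  by_cases hx2 : x = zv l v (i + 1) ∧ i < M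
  · obtain ⟨rfl, hi⟩ := hx2
    rw [Sym2.eq_swap]
    change ow _ _ _ (seg l v i, true) = true ↔ _
    rw [ow_of_mem (mem_segJ.2 ⟨v, hv, i, hi, rfl⟩), pat_seg hinj θ ⟨v, hv⟩ hi]
    simp [hx1, hi]
  have h5 : ω (s(zv l v i, x), true) = true ↔ _ := h2 i i1 iM x hx
  rw [ow_of_notMem, h5]
  · constructor <;> rintro (⟨h, -⟩ | ⟨h, h', -⟩) <;> tauto
  rw [mem_segJ]
  rintro ⟨v', hv', i', hi', h⟩
  rcases Sym2.eq_iff.1 (Prod.ext_iff.1 h).1 with ⟨h3, h4⟩ | ⟨h3, h4⟩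
  · obtain rfl := hinj v hv v' hv' i iM (i' + 1) hi' h3
    obtain rfl := zv_inj h3
    exact hx1 h4
  · obtain rfl := hinj v hv v' hv' i iM i' hi'.le h3
    obtain rfl := zv_inj h3
    exact hx2 ⟨h4, hi'⟩

theorem pattern_bound {π : Sym2 (V d) × Bool → unitInterval} {ε : unitInterval}
    (hπ : ∀ e, π (e, true) = ε) {Λ I W : Finset (V d)} {x₀ : ℝ} (hx : 2 < x₀)
    (hΛ : ∀ v ∈ Q, ∀ i ≤ M, zv l v i ∈ Λ)
    (hIW : ∀ v ∈ Q, ∀ i, 1 ≤ i → i ≤ M → zv l v i ∉ I ∧ zv l v i ∉ W)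
    {Env : Set (Om d)} (hE : Loc Env)
    (hinv : ∀ ω ∈ Env, ∀ ω', (∀ v ∈ Q, ZS l M ω v) → (∀ v ∈ Q, ZS l M ω' v) →
      (∀ x, x ∉ segJ l M Q → ω' x = ω x) → ω' ∈ Env) :
    (M : ℝ) ^ Q.card * Pr π (Env ∩ {ω | ∀ v ∈ Q, ZS l M ω v ∧
      GP Λ I W Q (op (orMap ω)) x₀ v ∧ FP Λ I W (op (orMap ω)) x₀ v}) ≤ Pr π Env := by
  classical
  have hcard : (Fintype.card (Q → Fin M) : ℝ) = (M : ℝ) ^ Q.card := by simp
  rw [← hcard]
  refine card_mul_Pr_le π (segJ l M Q) (pat l) (fun θ θ' h => ?_)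
    (((1 - (ε : ℝ)) * ε ^ (M - 1)) ^ Q.card) (fun θ => ?_) ?_ ?_ ?_ ?_
  · funext v
    have := h _ (mem_segJ.2 ⟨v, v.2, θ v, (θ v).2, rfl⟩)
    by_contra hne
    exact (pat_seg hinj θ v (θ v).2 true).1
      (this.trans ((pat_seg hinj θ' v (θ v).2 true).2 fun h => hne (Fin.ext h))) rfl
  · rw [segJ, Finset.prod_image, Finset.prod_product, ← Finset.prod_const, ← Finset.prod_coe_sort Q,
      ← Finset.prod_coe_sort Q]
    · refine Finset.prod_congr rfl fun v _ => ?_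
      rw [← Finset.mul_prod_erase _ _ (Finset.mem_range.2 (θ v).2)]
      congr 1
      · rw [hπ, Bool.eq_false_iff.2 fun h => (pat_seg hinj θ v (θ v).2 true).1 h rfl, wt_false]
      · rw [Finset.prod_congr rfl (g := fun _ => (ε : ℝ)) fun i hi => ?_, Finset.prod_const,
          Finset.card_erase_of_mem (Finset.mem_range.2 (θ v).2), Finset.card_range]
        rw [hπ, (pat_seg hinj θ v (Finset.mem_range.1 (Finset.mem_of_mem_erase hi)) true).2
          (Finset.ne_of_mem_erase hi), wt_true]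
    · rintro ⟨v, i⟩ h1 ⟨v', i'⟩ h2 h
      simp only [Finset.coe_product, Finset.coe_range, Set.mem_prod, Finset.mem_coe,
        Set.mem_Iio] at h1 h2
      obtain ⟨h3, h4⟩ := seg_inj hinj h1.1 h2.1 h1.2 h2.2 (Prod.ext_iff.1 h).1
      exact Prod.ext h3 h4
  · refine hE.inter (Loc.forall_mem Q (A := fun v => {ω | ZS l M ω v ∧
      GP Λ I W Q (op (orMap ω)) x₀ v ∧ FP Λ I W (op (orMap ω)) x₀ v}) fun v _ => ?_)
    refine ((dep_ZS l M v).loc ((ETo_finite (zoneSet_finite l M v)).prod Set.finite_univ)).inter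
      (Loc.orMap (A := {ω | GP Λ I W Q (op ω) x₀ v ∧ FP Λ I W (op ω) x₀ v})
        ⟨_, EIn_finite Λ.finite_toSet, fun ω ω' h h' => ⟨(agree_op h).GP h'.1, (agree_op h).FP h'.2⟩⟩)
  · rintro ω ⟨-, hω⟩
    choose t ht h using fun v : Q => (hω v v.2).1.2
    refine ⟨fun v => ⟨t v, ht v⟩, fun x hx => ?_⟩
    obtain ⟨v, hv, i, hi, rfl⟩ := mem_segJ.1 hx
    rw [Bool.eq_iff_iff, pat_seg hinj _ ⟨v, hv⟩ hi]
    exact (h ⟨v, hv⟩).seg_iff hi
  · rintro ω ⟨h1, hω⟩ θ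
    exact hinv ω h1 _ (fun v hv => (hω v hv).1) (fun v hv => (hω v hv).1.overwrite hinj θ hv)
      fun x hx => ow_of_notMem hx
  · rintro ω θ θ' ⟨-, h1⟩ ⟨-, h2⟩
    have key : ∀ (θ : Q → Fin M) (v : V d) (hv : v ∈ Q), ZS l M (ow (segJ l M Q) (pat l θ) ω) v →
        Zone (op (orMap (ow (segJ l M Q) (pat l θ) ω))) l M v
          (if h : v ∈ Q then θ ⟨v, h⟩ else 0) := fun θ v hv h => h.zone fun i hi => by
      rw [ow_of_mem (mem_segJ.2 ⟨v, hv, i, hi, rfl⟩), pat_seg hinj θ ⟨v, hv⟩ hi, dif_pos hv]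
    funext v
    have := consistent (θ := fun v => if h : v ∈ Q then θ ⟨v, h⟩ else 0)
      (θ' := fun v => if h : v ∈ Q then θ' ⟨v, h⟩ else 0) hx
      (fun v hv => by simp only [dif_pos hv]; exact (θ _).2)
      (fun v hv => by simp only [dif_pos hv]; exact (θ' _).2) hΛ hinj hIW
      (fun v hv => key θ v hv (h1 v hv).1) (fun v hv => key θ' v hv (h2 v hv).1)
      (fun a b hab => ?_) v.2 (h1 v v.2).2.1 (h2 v v.2).2.2
    · simp only [dif_pos v.2] at this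
      exact Fin.ext this
    have : ∀ c, (s(a, b), c) ∉ segJ l M Q := fun c hc => by
      obtain ⟨v, hv, i, hi, h⟩ := mem_segJ.1 hc
      obtain ⟨h3, h4⟩ := hab v hv (i + 1) (by omega) hi
      rcases Sym2.eq_iff.1 (Prod.ext_iff.1 h).1 with ⟨h5, -⟩ | ⟨-, h5⟩
      · exact h3 h5
      · exact h4 h5
    simp only [op, orMap_eq_true, ow_of_notMem (this _)]

end Pattern

end Pool.Agent.P.MP_d74cc6_pr
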