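import Pool.Agent.P.MP_d74cc6_pr.Rank1
import Pool.Agent.P.MP_d74cc6_pr.LinkDefs

/-! Geometry of the coarse cells, special points and links. -/

namespace Pool.Agent.P.MP_d74cc6_pr

variable {d : ℕ}

/-- the parameters of the coarse construction -/
structure Par (d : ℕ) where
  /-- forward direction -/
  k : Fin d
  /-- vertical direction -/
  l : Fin d
  hkl : k ≠ l
  /-- block size -/
  L : ℕ
  /-- number of types -/
  M : ℕ
  /-- number of candidates -/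
  t : ℕ
  /-- length factor -/
  ρ : ℕ
  hL : 1 ≤ L
  hM : 1 ≤ M
  ht : M + 10 ≤ t

namespace Par

variable (P : Par d)

/-- cell size -/
def s : ℕ := 20 * (P.t * P.L)

/-- base point of a cell -/
def pos (a : V d) : V d := fun i => if i = P.k then 3 * (P.s * a i) else P.s * a i

/-- candidate centres -/
def cand (a : V d) (j : ℕ) : V d := P.pos a + (11 * (P.L * j) : ℤ) • ev P.k

/-- candidate special points -/
def vp (a : V d) (j : ℕ) : V d := P.cand a j - (5 * P.L : ℤ) • ev P.l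

/-- forward neighbours -/
def nb (a : V d) (u : ℤ) : V d := a + ev P.k + u • ev P.l

theorem pos_k (a : V d) : P.pos a P.k = 3 * (P.s * a P.k) := by simp [pos]
theorem pos_ne (a : V d) {i : Fin d} (h : i ≠ P.k) : P.pos a i = P.s * a i := by simp [pos, h]
theorem cand_k (a : V d) (j : ℕ) : P.cand a j P.k = 3 * (P.s * a P.k) + 11 * (P.L * j) := by
  simp [cand, pos_k]
theorem cand_ne (a : V d) (j : ℕ) {i : Fin d} (h : i ≠ P.k) : P.cand a j i = P.s * a i := by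
  simp [cand, P.pos_ne a h, ev_ne h]
theorem vp_l (a : V d) (j : ℕ) : P.vp a j P.l = P.s * a P.l - 5 * P.L := by
  simp [vp, P.cand_ne a j P.hkl.symm]
theorem vp_ne (a : V d) (j : ℕ) {i : Fin d} (h : i ≠ P.l) : P.vp a j i = P.cand a j i := by
  simp [vp, ev_ne h]
theorem nb_k (a : V d) (u : ℤ) : P.nb a u P.k = a P.k + 1 := by simp [nb, ev_ne P.hkl]
theorem nb_l (a : V d) (u : ℤ) : P.nb a u P.l = a P.l + u := by simp [nb, ev_ne P.hkl.symm]
theorem nb_ne (a : V d) (u : ℤ) {i : Fin d} (h : i ≠ P.k) (h' : i ≠ P.l) : P.nb a u i = a i := by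
  simp [nb, ev_ne h, ev_ne h']

theorem facts : (1 : ℤ) ≤ P.L ∧ (P.M : ℤ) + 10 ≤ P.t ∧ (P.s : ℤ) = 20 * (P.t * P.L) ∧
    (P.t : ℤ) ≤ P.t * P.L ∧ 11 * (P.L : ℤ) ≤ P.t * P.L := by
  have h1 : (1 : ℤ) ≤ P.L := by exact_mod_cast P.hL
  have h2 : (P.M : ℤ) + 10 ≤ P.t := by exact_mod_cast P.ht
  have h3 : (1 : ℤ) ≤ P.M := by exact_mod_cast P.hM
  refine ⟨h1, h2, by simp [s], by nlinarith, by nlinarith⟩

theorem Lj_le {j : ℕ} (hj : j < P.t) : 0 ≤ (P.L : ℤ) * j ∧ (P.L : ℤ) * j + P.L ≤ P.t * P.L := by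
  have h : (j : ℤ) + 1 ≤ P.t := by exact_mod_cast hj
  have h1 : (0 : ℤ) ≤ P.L := Nat.cast_nonneg _
  exact ⟨by positivity, by nlinarith⟩

theorem s_mul_sub {a b c : ℤ} (h : c ≤ |a - b|) : P.s * c ≤ |P.s * a - P.s * b| := by
  rw [← mul_sub, abs_mul, Nat.abs_cast]
  exact mul_le_mul_of_nonneg_left h (Nat.cast_nonneg _)

theorem s_mul_sub_le {a b c : ℤ} (h : |a - b| ≤ c) : |P.s * a - P.s * b| ≤ P.s * c := by
  rw [← mul_sub, abs_mul, Nat.abs_cast]
  exact mul_le_mul_of_nonneg_left h (Nat.cast_nonneg _)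

/-- the territory of a candidate -/
def Terr (a : V d) (j : ℕ) : Set (V d) :=
  {y | |y P.k - P.cand a j P.k| ≤ 5 * P.L ∧ ∀ i, i ≠ P.k → |y i - P.cand a j i| ≤ 9 * (P.t * P.L)}

theorem Terr_disjoint {a a' : V d} {j j' : ℕ} (hj : j < P.t) (hj' : j' < P.t)
    (h : (a, j) ≠ (a', j')) : Disjoint (P.Terr a j) (P.Terr a' j') := by
  rw [Set.disjoint_left]
  rintro y ⟨h1, h2⟩ ⟨h3, h4⟩
  obtain ⟨f1, f2, f3, f4, f5⟩ := P.facts
  have g1 := P.Lj_le hj
  have g2 := P.Lj_le hj'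
  have e : a = a' := funext fun i => by
    by_contra hne
    have h5 := P.s_mul_sub (a := a i) (b := a' i) (c := 1)
      (Int.one_le_abs (sub_ne_zero.2 hne))
    by_cases hi : i = P.k
    · subst hi
      rw [cand_k] at h1 h3
      rw [abs_le] at h1 h3
      rw [le_abs'] at h5
      omega
    · have h6 := h2 i hi
      have h7 := h4 i hi
      rw [P.cand_ne _ _ hi, abs_le] at h6 h7
      rw [le_abs'] at h5
      omega
  subst e
  have hne : (j : ℤ) ≠ j' := fun h' => h (by rw [Int.ofNat_inj.1 h'])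
  rw [cand_k, abs_le] at h1 h3
  have h5 : (P.L : ℤ) * 1 ≤ |(P.L : ℤ) * j - P.L * j'| := by
    rw [← mul_sub, abs_mul, Nat.abs_cast]
    exact mul_le_mul_of_nonneg_left (Int.one_le_abs (sub_ne_zero.2 hne)) (by omega)
  rw [le_abs'] at h5
  omega

theorem box_subset_Terr (a : V d) (j : ℕ) : (box (P.cand a j) (5 * P.L) : Set (V d)) ⊆ P.Terr a j := by
  intro y hy
  obtain ⟨f1, f2, f3, f4, f5⟩ := P.facts
  have h := mem_box.1 hy
  push_cast at h
  exact ⟨h _, fun i _ => (h i).trans (by omega)⟩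

theorem mem_Terr_of_near {a : V d} {j n : ℕ} (hn : n ≤ P.M) {y : V d}
    (hy : ∀ i, |y i - zv P.l (P.vp a j) n i| ≤ 1) : y ∈ P.Terr a j := by
  obtain ⟨f1, f2, f3, f4, f5⟩ := P.facts
  refine ⟨?_, fun i hi => ?_⟩
  · have := hy P.k
    rw [zv_apply_ne P.hkl, P.vp_ne _ _ P.hkl] at this
    omega
  · have := hy i
    by_cases hl : i = P.l
    · subst hl
      rw [zv_apply_self, vp_l, abs_le] at this
      rw [P.cand_ne _ _ hi, abs_le]
      omega
    · rw [zv_apply_ne hl, P.vp_ne _ _ hl] at this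
      omega

theorem zv_mem_Terr (a : V d) (j : ℕ) {n : ℕ} (hn : n ≤ P.M) : zv P.l (P.vp a j) n ∈ P.Terr a j :=
  P.mem_Terr_of_near hn fun i => by simp

theorem ETo_subset_Terr (a : V d) (j : ℕ) :
    ETo (zoneSet P.l P.M (P.vp a j)) ⊆ EIn (P.Terr a j) := fun e he => by
  induction e using Sym2.ind with
  | _ x y =>
    obtain ⟨h1, ⟨n, -, hn, rfl⟩ | ⟨n, -, hn, rfl⟩⟩ := mk_mem_ETo.1 he
    · exact mk_mem_EIn.2 ⟨P.zv_mem_Terr a j hn, P.mem_Terr_of_near hn (abs_sub_le_one_of_adj h1)⟩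
    · exact mk_mem_EIn.2
        ⟨P.mem_Terr_of_near hn (abs_sub_le_one_of_adj h1.symm), P.zv_mem_Terr a j hn⟩

theorem zv_notMem_box (a : V d) (j : ℕ) {n : ℕ} (hn : 1 ≤ n) :
    zv P.l (P.vp a j) n ∉ box (P.cand a j) (5 * P.L) := fun h => by
  have := mem_box.1 h P.l
  rw [zv_apply_self, vp_l, P.cand_ne _ _ P.hkl.symm, abs_le] at this
  omega

theorem vp_mem_box (a : V d) (j : ℕ) : P.vp a j ∈ box (P.cand a j) (5 * P.L) :=
  mem_box.2 fun i => by
    by_cases h : i = P.l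
    · subst h
      rw [vp_l, P.cand_ne _ _ P.hkl.symm, abs_le]
      omega
    · rw [P.vp_ne _ _ h]
      simp only [sub_self, abs_zero]
      positivity

theorem Terr_subset_box {a b : V d} (h : ∀ i, |b i - a i| ≤ 1) {j : ℕ} (hj : j < P.t) :
    P.Terr b j ⊆ box (P.pos a) (5 * P.s) := by
  rintro y ⟨h1, h2⟩
  obtain ⟨f1, f2, f3, f4, f5⟩ := P.facts
  have g1 := P.Lj_le hj
  refine mem_box.2 fun i => ?_
  have h3 := P.s_mul_sub_le (h i)
  by_cases hi : i = P.k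
  · subst hi
    rw [cand_k, abs_le] at h1
    rw [abs_le] at h3
    rw [pos_k, abs_le]
    omega
  · have h4 := h2 i hi
    rw [P.cand_ne _ _ hi, abs_le] at h4
    rw [abs_le] at h3
    rw [P.pos_ne _ hi, abs_le]
    omega

theorem nb_near (a : V d) {u : ℤ} (hu : |u| ≤ 1) (i : Fin d) : |P.nb a u i - a i| ≤ 1 := by
  by_cases h : i = P.k
  · subst h; simp [nb_k]
  by_cases h' : i = P.l
  · subst h'; simpa [nb_l] using hu
  · simp [P.nb_ne a u h h']

/-- the profile of the shear -/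
def cl (j x : ℕ) : ℤ := max 0 (min (20 * (P.t : ℤ)) ((x : ℤ) + 11 * j - (20 * P.t + 6)))

/-- the shear of the link -/
def sig (u : ℤ) (j : ℕ) (x : ℕ) : ℤ := u * P.cl j x

/-- the length of the link -/
def KK (j j' : ℕ) : ℕ := 60 * P.t + 11 * j' - 11 * j

theorem KK_le (j : ℕ) {j' : ℕ} (hj' : j' < P.t) : P.KK j j' ≤ 71 * P.t := by unfold KK; omega

theorem sig_zero (u : ℤ) {j : ℕ} (hj : j < P.t) : P.sig u j 0 = 0 := by
  rw [sig, show P.cl j 0 = 0 by unfold cl; omega, mul_zero]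

theorem sig_step {u : ℤ} (hu : |u| ≤ 1) (j x : ℕ) : |P.sig u j (x + 1) - P.sig u j x| ≤ 1 := by
  unfold sig
  rw [← mul_sub, abs_mul]
  refine mul_le_one₀ hu (abs_nonneg _) ?_
  rw [abs_le]
  unfold cl
  omega

theorem pt_k (c : V d) (L : ℕ) (x y : ℤ) : pt P.k P.l c L x y P.k = c P.k + L * x := by
  simp [pt, ev_ne P.hkl]
theorem pt_l (c : V d) (L : ℕ) (x y : ℤ) : pt P.k P.l c L x y P.l = c P.l + L * y := by
  simp [pt, ev_ne P.hkl.symm]
theorem pt_ne (c : V d) (L : ℕ) (x y : ℤ) {i : Fin d} (h : i ≠ P.k) (h' : i ≠ P.l) :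
    pt P.k P.l c L x y i = c i := by
  simp [pt, ev_ne h, ev_ne h']

theorem pt_end (a : V d) (u : ℤ) {j : ℕ} (hj : j < P.t) (j' : ℕ) :
    pt P.k P.l (P.cand a j) P.L (P.KK j j') (P.sig u j (P.KK j j')) = P.cand (P.nb a u) j' := by
  obtain ⟨f1, f2, f3, f4, f5⟩ := P.facts
  have e : (P.KK j j' : ℤ) = 60 * P.t + 11 * j' - 11 * j := by unfold KK; omega
  funext i
  by_cases h : i = P.k
  · subst h
    rw [pt_k, cand_k, cand_k, nb_k, e, f3]; ring
  by_cases h' : i = P.l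
  · subst h'
    rw [pt_l, P.cand_ne _ _ h, P.cand_ne _ _ h, nb_l, sig,
      show P.cl j (P.KK j j') = 20 * P.t by unfold cl; omega, f3]; ring
  · rw [P.pt_ne _ _ _ _ h h', P.cand_ne _ _ h, P.cand_ne _ _ h, P.nb_ne _ _ h h']

/-- the region of the link -/
def lreg (a : V d) (u : ℤ) (j j' : ℕ) : Set (V d) :=
  linkReg P.k P.l (P.cand a j) P.L (P.KK j j') (9 * P.t) (P.sig u j)

theorem lreg_subset_box (a : V d) {u : ℤ} (hu : |u| ≤ 1) {j j' : ℕ} (hj : j < P.t)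
    (hj' : j' < P.t) : P.lreg a u j j' ⊆ box (P.pos a) (5 * P.s) := by
  rintro y ⟨x, hx, h, hh, hy⟩
  obtain ⟨f1, f2, f3, f4, f5⟩ := P.facts
  have g1 := P.Lj_le hj
  refine mem_box.2 fun i => ?_
  have h1 := mem_box.1 hy i
  by_cases hi : i = P.k
  · subst hi
    have h2 : (x : ℤ) ≤ 71 * P.t := by exact_mod_cast hx.trans (P.KK_le j hj')
    have h3 : (P.L : ℤ) * x ≤ 71 * (P.t * P.L) := by nlinarith
    have h4 : 0 ≤ (P.L : ℤ) * x := by positivity
    rw [pt_k, cand_k, abs_le] at h1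
    rw [pos_k, abs_le]
    omega
  by_cases hi' : i = P.l
  · subst hi'
    have h2 : |P.sig u j x + h| ≤ 29 * P.t := by
      have : |P.sig u j x| ≤ 1 * (20 * P.t) := by
        unfold sig
        rw [abs_mul]
        refine mul_le_mul hu ?_ (abs_nonneg _) zero_le_one
        rw [abs_le]; unfold cl; omega
      rw [abs_le] at this ⊢
      omega
    have h3 : |(P.L : ℤ) * (P.sig u j x + h)| ≤ 29 * (P.t * P.L) := by
      rw [abs_mul, Nat.abs_cast]; nlinarith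
    rw [pt_l, P.cand_ne _ _ hi, abs_le] at h1
    rw [abs_le] at h3
    rw [P.pos_ne _ hi, abs_le]
    omega
  · rw [P.pt_ne _ _ _ _ hi hi', P.cand_ne _ _ hi] at h1
    rw [P.pos_ne _ hi]
    omega

theorem lreg_disjoint (a : V d) (u : ℤ) (j j' : ℕ) (b : V d) {i : ℕ} (hi : i < P.t) :
    Disjoint (P.lreg a u j j') (zoneSet P.l P.M (P.vp b i)) := by
  rw [Set.disjoint_left]
  rintro y ⟨x, -, h, hh, hy⟩ ⟨n, n1, nM, rfl⟩
  obtain ⟨f1, f2, f3, f4, f5⟩ := P.facts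
  have h1 := mem_box.1 hy P.k
  have h2 := mem_box.1 hy P.l
  rw [zv_apply_ne P.hkl, P.vp_ne _ _ P.hkl, pt_k, cand_k, cand_k] at h1
  rw [zv_apply_self, vp_l, pt_l, P.cand_ne _ _ P.hkl.symm] at h2
  have h3 : |60 * (P.t * (b P.k - a P.k)) + 11 * i - (x + 11 * j)| ≤ 5 := by
    refine le_of_mul_le_mul_left (a := (P.L : ℤ)) ?_ (by omega)
    rw [← Nat.abs_cast (R := ℤ) P.L, ← abs_mul, Nat.abs_cast]
    rw [f3] at h1
    refine le_trans (le_of_eq ?_) (h1.trans (le_of_eq ?_))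
    · congr 1; ring
    · push_cast; ring
  obtain ⟨u', hu'⟩ : ∃ u', P.sig u j x = u' * (20 * P.t) := by
    rw [abs_le] at h3
    rcases le_or_gt (b P.k - a P.k) 0 with h4 | h4
    · have : (P.t : ℤ) * (b P.k - a P.k) ≤ 0 := by nlinarith
      refine ⟨0, ?_⟩
      rw [sig, show P.cl j x = 0 by unfold cl; omega, mul_zero, zero_mul]
    · have : (P.t : ℤ) ≤ P.t * (b P.k - a P.k) := by nlinarith
      refine ⟨u, ?_⟩
      rw [sig, show P.cl j x = 20 * P.t by unfold cl; omega]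
  have e : (P.s : ℤ) * b P.l - 5 * P.L - n - (P.s * a P.l + P.L * (P.sig u j x + h)) =
      P.s * (b P.l - a P.l - u') - 5 * P.L - n - P.L * h := by
    rw [hu', f3]; ring
  rw [e, abs_le] at h2
  have h5 : (h : ℤ) + 1 ≤ 9 * P.t := by exact_mod_cast hh
  have h6 : (P.L : ℤ) * h + P.L ≤ 9 * (P.t * P.L) := by nlinarith
  have h7 : 0 ≤ (P.L : ℤ) * h := by positivity
  rcases le_or_gt (b P.l - a P.l - u') 0 with h4 | h4
  · have : (P.s : ℤ) * (b P.l - a P.l - u') ≤ 0 := by nlinarith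
    omega
  · have : (P.s : ℤ) ≤ P.s * (b P.l - a P.l - u') := by nlinarith
    omega

end Par

end Pool.Agent.P.MP_d74cc6_pr
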