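import Pool.Agent.P.MP_d74cc6_pr.Rank2

/-! Special points, bad cells and their probabilities. -/

namespace Pool.Agent.P.MP_d74cc6_pr

variable {d : ℕ}

/-- a residue class contains a positive fraction of a finite set of lattice points -/
theorem exists_sep_subset {β : Type*} [Fintype β] [Nonempty β] (T : Finset (V d)) (f : V d → β)
    (c : ℕ) (hc : 1 ≤ c) : ∃ b, ∃ T' ⊆ T, T.card ≤ Fintype.card β * c ^ d * T'.card ∧
      (∀ a ∈ T', f a = b) ∧ ∀ a ∈ T', ∀ a' ∈ T', a ≠ a' → ∃ i, (c : ℤ) ≤ |a i - a' i| := by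
  classical
  have : NeZero c := ⟨by omega⟩
  let g : V d → β × (Fin d → ZMod c) := fun a => (f a, fun i => (a i : ZMod c))
  obtain ⟨r, -, hr⟩ := Finset.exists_max_image Finset.univ
    (fun r => (T.filter fun a => g a = r).card) Finset.univ_nonempty
  refine ⟨r.1, T.filter fun a => g a = r, Finset.filter_subset _ _, ?_,
    fun a ha => congrArg Prod.fst (Finset.mem_filter.1 ha).2, fun a ha a' ha' hne => ?_⟩
  · rw [Finset.card_eq_sum_card_fiberwise (f := g) (t := Finset.univ) fun _ _ => Finset.mem_univ _]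
    refine (Finset.sum_le_card_nsmul _ _ _ fun r' _ => hr r' (Finset.mem_univ _)).trans ?_
    simp [ZMod.card]
  · obtain ⟨i, hi⟩ := Function.ne_iff.1 hne
    have h1 := ((Finset.mem_filter.1 ha').2).trans (Finset.mem_filter.1 ha).2.symm
    have h2 : ((a' i : ℤ) : ZMod c) = (a i : ℤ) := congrFun (congrArg Prod.snd h1) i
    rw [ZMod.intCast_eq_intCast_iff_dvd_sub] at h2
    exact ⟨i, Int.le_abs_of_dvd (sub_ne_zero.2 hi) h2⟩

/-- the first layer -/
def lay1 (ω : Om d) : Sym2 (V d) → Bool := fun e => ω (e, false)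

namespace Par

variable (P : Par d)

/-- the candidate is special: open box in the second layer and an isolated hanging segment -/
def Spec (ω : Om d) (a : V d) (j : ℕ) : Prop :=
  j < P.t ∧ (∀ e ∈ EIn (box (P.cand a j) (5 * P.L) : Set (V d)), ω (e, true) = true) ∧
    ZS P.l P.M ω (P.vp a j)

/-- the coordinates deciding whether a candidate is special -/
def SpS (a : V d) (j : ℕ) : Set (Sym2 (V d) × Bool) :=
  EIn (box (P.cand a j) (5 * P.L) : Set (V d)) ×ˢ {true} ∪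
    ETo (zoneSet P.l P.M (P.vp a j)) ×ˢ Set.univ

theorem dep_Spec (a : V d) (j : ℕ) : Dep {ω | P.Spec ω a j} (P.SpS a j) :=
  fun _ _ hω ⟨h1, h2, h3⟩ => ⟨h1, fun e he => (hω (e, true) (Or.inl ⟨he, rfl⟩)).symm.trans (h2 e he),
    dep_ZS _ _ _ (fun x hx => hω x (Or.inr hx)) h3⟩

theorem SpS_finite (a : V d) (j : ℕ) : (P.SpS a j).Finite :=
  ((EIn_finite (Finset.finite_toSet _)).prod (Set.finite_singleton _)).union
    ((ETo_finite (zoneSet_finite _ _ _)).prod Set.finite_univ)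

theorem SpS_subset (a : V d) (j : ℕ) : P.SpS a j ⊆ EIn (P.Terr a j) ×ˢ Set.univ := by
  rintro ⟨e, b⟩ (⟨h, -⟩ | ⟨h, -⟩)
  · exact ⟨EIn_mono (P.box_subset_Terr a j) h, trivial⟩
  · exact ⟨P.ETo_subset_Terr a j h, trivial⟩

theorem SpS_disjoint {a a' : V d} {j j' : ℕ} (hj : j < P.t) (hj' : j' < P.t)
    (h : (a, j) ≠ (a', j')) : Disjoint (P.SpS a j) (P.SpS a' j') :=
  (Set.disjoint_prod.2 (Or.inl (EIn_disjoint (P.Terr_disjoint hj hj' h)))).mono
    (P.SpS_subset a j) (P.SpS_subset a' j')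

theorem le_Pr_Spec {π : Sym2 (V d) × Bool → unitInterval} {κ : ℝ} (h0 : 0 ≤ κ) (h1 : κ ≤ 1)
    (hκ : ∀ x b, κ ≤ wt (π x) b) (a : V d) {j : ℕ} (hj : j < P.t) :
    κ ^ ((10 * P.L + 1) ^ d * (10 * P.L + 1) ^ d + 4 * d * P.M) ≤ Pr π {ω | P.Spec ω a j} := by
  classical
  set B := box (P.cand a j) (5 * P.L) with hB
  set v := P.vp a j with hv
  let J : Finset (Sym2 (V d) × Bool) := (B ×ˢ B).image (fun p => (s(p.1, p.2), true)) ∪
    ((Finset.Icc 1 P.M).biUnion fun i => (nbr (zv P.l v i)).image fun x => s(zv P.l v i, x)) ×ˢ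
      Finset.univ
  let η : Sym2 (V d) × Bool → Bool := fun x => decide (x.2 = true ∧
    (x.1 ∈ EIn (B : Set (V d)) ∨ ∃ i, 1 ≤ i ∧ i < P.M ∧ x.1 = seg P.l v i))
  have hJ : J.card ≤ (10 * P.L + 1) ^ d * (10 * P.L + 1) ^ d + 4 * d * P.M := by
    refine (Finset.card_union_le _ _).trans (add_le_add (Finset.card_image_le.trans ?_) ?_)
    · rw [Finset.card_product, hB, card_box, show 2 * (5 * P.L) = 10 * P.L by ring]
    · rw [Finset.card_product, Finset.card_univ, Fintype.card_bool]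
      have := Finset.card_biUnion_le_card_mul (Finset.Icc 1 P.M)
        (fun i => (nbr (zv P.l v i)).image fun x => s(zv P.l v i, x)) (2 * d)
        fun i _ => Finset.card_image_le.trans (card_nbr_le _)
      rw [Nat.card_Icc, Nat.add_sub_cancel] at this
      nlinarith
  have hZ : ∀ i, 1 ≤ i → i ≤ P.M → ∀ x, (lat d).Adj (zv P.l v i) x → ∀ b,
      (s(zv P.l v i, x), b) ∈ J := fun i i1 iM x hx b =>
    Finset.mem_union_right _ (Finset.mem_product.2 ⟨Finset.mem_biUnion.2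
      ⟨i, Finset.mem_Icc.2 ⟨i1, iM⟩, Finset.mem_image_of_mem _ (mem_nbr.2 hx)⟩, Finset.mem_univ _⟩)
  refine (pow_le_pow_of_le_one h0 h1 hJ).trans (le_trans ?_
    (Pr_mono (A := {ω | ∀ x ∈ J, ω x = η x}) fun ω hω => ⟨hj, fun e he => ?_, fun e he => ?_,
      0, P.hM, fun i i1 iM x hx => ?_⟩))
  · rw [Pr_cyl, ← Finset.prod_const]
    exact Finset.prod_le_prod (fun _ _ => h0) fun x _ => hκ x _
  · induction e using Sym2.ind with
    | _ x y =>
      rw [hω _ (Finset.mem_union_left _ (Finset.mem_image.2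
        ⟨(x, y), Finset.mem_product.2 (mk_mem_EIn.1 he), rfl⟩))]
      exact decide_eq_true ⟨rfl, Or.inl he⟩
  · induction e using Sym2.ind with
    | _ x y =>
      obtain ⟨h2, ⟨i, i1, iM, rfl⟩ | ⟨i, i1, iM, rfl⟩⟩ := mk_mem_ETo.1 he
      · rw [hω _ (hZ i i1 iM y h2 false)]; simp [η]
      · rw [Sym2.eq_swap, hω _ (hZ i i1 iM x h2.symm false)]; simp [η]
  · simp only []
    rw [hω _ (hZ i i1 iM x hx true)]
    simp only [η, decide_eq_true_eq, true_and, mk_mem_EIn]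
    constructor
    · rintro (⟨h, -⟩ | ⟨n, n1, nM, h⟩)
      · exact absurd h (P.zv_notMem_box a j i1)
      rcases Sym2.eq_iff.1 h with ⟨h3, h4⟩ | ⟨h3, h4⟩
      · obtain rfl := zv_inj h3
        exact Or.inl ⟨h4, by omega⟩
      · obtain rfl := zv_inj h3
        exact Or.inr ⟨h4, nM, by omega⟩
    · rintro (⟨rfl, h⟩ | ⟨rfl, h, -⟩)
      · refine Or.inr ⟨i - 1, by omega, by omega, ?_⟩
        rw [seg, Nat.sub_add_cancel i1]
      · exact Or.inr ⟨i, i1, h, Sym2.eq_swap⟩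

open Classical in
/-- the first index with a property -/
noncomputable def lo' (sp : ℕ → Prop) : ℕ := if h : ∃ j, sp j then Nat.find h else P.t

/-- the first special candidate of a cell -/
noncomputable def lo (sp : V d → ℕ → Prop) (a : V d) : ℕ := P.lo' (sp a)

theorem spec_lo {ω : Om d} {a : V d} (h : P.lo (P.Spec ω) a ≠ P.t) :
    P.Spec ω a (P.lo (P.Spec ω) a) := by
  classical
  unfold lo lo' at h ⊢
  split_ifs at h ⊢ with h1
  · exact Nat.find_spec h1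
  · exact absurd rfl h

theorem not_spec_of_lo {ω : Om d} {a : V d} (h : P.lo (P.Spec ω) a = P.t) (j : ℕ) :
    ¬ P.Spec ω a j := fun hj => by
  classical
  unfold lo lo' at h
  rw [dif_pos ⟨j, hj⟩] at h
  exact (Nat.find_spec (⟨j, hj⟩ : ∃ j, P.Spec ω a j)).1.ne h

theorem dependsOn_lo (a : V d) :
    DependsOn (fun ω => P.lo (P.Spec ω) a) (⋃ j ∈ Finset.range P.t, P.SpS a j) := fun ω ω' h => by
  have : P.Spec ω a = P.Spec ω' a := funext fun j => propext <| by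
    by_cases hj : j < P.t
    · exact (P.dep_Spec a j).iff fun x hx => h x (Set.mem_biUnion (Finset.mem_range.2 hj) hx)
    · exact ⟨fun h => absurd h.1 hj, fun h => absurd h.1 hj⟩
  exact congrArg P.lo' this

theorem locF_lo (a : V d) : LocF fun ω => P.lo (P.Spec ω) a :=
  ⟨_, (Finset.finite_toSet _).biUnion fun j _ => P.SpS_finite a j, P.dependsOn_lo a⟩

theorem Pr_lo_eq {π : Sym2 (V d) × Bool → unitInterval} {r : ℝ}
    (hr : ∀ a j, j < P.t → r ≤ Pr π {ω | P.Spec ω a j}) (a : V d) :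
    Pr π {ω | P.lo (P.Spec ω) a = P.t} ≤ (1 - r) ^ P.t := by
  have lS : ∀ j, Loc {ω | P.Spec ω a j} := fun j => (P.dep_Spec a j).loc (P.SpS_finite a j)
  refine (Pr_mono (B := {ω | ∀ j ∈ Finset.range P.t, ω ∈ {ω | P.Spec ω a j}ᶜ})
    fun ω hω j _ => P.not_spec_of_lo hω j).trans ?_
  rw [Pr_forall_indep π _ (S := P.SpS a) (fun j _ => (lS j).compl)
    (fun j _ => (P.dep_Spec a j).compl) fun j hj j' hj' h => P.SpS_disjoint
      (Finset.mem_range.1 hj) (Finset.mem_range.1 hj') fun h' => h (Prod.ext_iff.1 h').2]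
  refine (Finset.prod_le_prod (g := fun _ => 1 - r) (fun j _ => Pr_nonneg π _)
    fun j hj => ?_).trans_eq (by rw [Finset.prod_const, Finset.card_range])
  rw [Pr_compl π (lS j)]
  linarith [hr a j (Finset.mem_range.1 hj)]

/-- the link between candidates of neighbouring cells -/
def LK (O : Sym2 (V d) → Prop) (a : V d) (u : ℤ) (j j' : ℕ) : Prop :=
  Link P.k P.l (P.cand a j) P.L (P.KK j j') (9 * P.t) P.ρ (P.sig u j) O

/-- bad cells -/
def bad (O : Sym2 (V d) → Prop) (sp : V d → ℕ → Prop) (a : V d) : Prop :=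
  P.lo sp a = P.t ∨ ∃ u ∈ Finset.Icc (-1 : ℤ) 1, P.lo sp (P.nb a u) = P.t ∨
    (P.lo sp a < P.t ∧ P.lo sp (P.nb a u) < P.t ∧ ¬ P.LK O a u (P.lo sp a) (P.lo sp (P.nb a u)))

/-- bad cells of a two layer configuration -/
def Bad (ω : Om d) (a : V d) : Prop := P.bad (op (lay1 ω)) (P.Spec ω) a

theorem dep_LK (a : V d) (u : ℤ) (j j' : ℕ) :
    Dep {ω : Om d | P.LK (op (lay1 ω)) a u j j'} (EIn (P.lreg a u j j') ×ˢ {false}) :=
  fun _ _ hω h => dep_Link _ _ _ _ _ _ _ _ (fun e he => hω (e, false) ⟨he, rfl⟩) h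

theorem dependsOn_lo_box {a b : V d} (h : ∀ i, |b i - a i| ≤ 1) :
    DependsOn (fun ω => P.lo (P.Spec ω) b)
      (EIn (box (P.pos a) (5 * P.s) : Set (V d)) ×ˢ Set.univ) :=
  (P.dependsOn_lo b).mono (Set.iUnion₂_subset fun j hj => (P.SpS_subset b j).trans
    (Set.prod_mono_left (EIn_mono (P.Terr_subset_box h (Finset.mem_range.1 hj)))))

theorem dep_Bad (a : V d) :
    Dep {ω | P.Bad ω a} (EIn (box (P.pos a) (5 * P.s) : Set (V d)) ×ˢ Set.univ) := by
  intro ω ω' hω h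
  have h1 : P.lo (P.Spec ω) a = P.lo (P.Spec ω') a := P.dependsOn_lo_box (by simp) hω
  rcases h with h | ⟨u, hu, h⟩
  · exact Or.inl (h1 ▸ h)
  have hu' : |u| ≤ 1 := abs_le.2 (Finset.mem_Icc.1 hu)
  have h2 : P.lo (P.Spec ω) (P.nb a u) = P.lo (P.Spec ω') (P.nb a u) :=
    P.dependsOn_lo_box (P.nb_near a hu') hω
  refine Or.inr ⟨u, hu, ?_⟩
  rw [← h1, ← h2]
  refine h.imp_right fun ⟨h3, h4, h5⟩ => ⟨h3, h4, (P.dep_LK a u _ _).compl (fun x hx => ?_) h5⟩
  exact hω x ⟨EIn_mono (P.lreg_subset_box a hu' h3 h4) hx.1, trivial⟩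

theorem loc_Bad (a : V d) : Loc {ω | P.Bad ω a} :=
  (P.dep_Bad a).loc ((EIn_finite (Finset.finite_toSet _)).prod Set.finite_univ)

theorem Pr_Bad_le {π : Sym2 (V d) × Bool → unitInterval} {p : unitInterval}
    (hπ : ∀ e, π (e, false) = p) {r δ : ℝ} (hδ0 : 0 ≤ δ)
    (hr : ∀ a j, j < P.t → r ≤ Pr π {ω | P.Spec ω a j})
    (hδ : ∀ a u j j', |u| ≤ 1 → j < P.t → j' < P.t →
      Pr (fun _ => p) {ω | ¬ P.LK (op ω) a u j j'} ≤ δ) (a : V d) :
    Pr π {ω | P.Bad ω a} ≤ 4 * (1 - r) ^ P.t + 3 * δ := by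
  have key : ∀ u ∈ Finset.Icc (-1 : ℤ) 1, Pr π {ω | P.lo (P.Spec ω) (P.nb a u) = P.t ∨
      (P.lo (P.Spec ω) a < P.t ∧ P.lo (P.Spec ω) (P.nb a u) < P.t ∧
        ¬ P.LK (op (lay1 ω)) a u (P.lo (P.Spec ω) a) (P.lo (P.Spec ω) (P.nb a u)))} ≤
      (1 - r) ^ P.t + δ := fun u hu => by
    have hu' : |u| ≤ 1 := abs_le.2 (Finset.mem_Icc.1 hu)
    refine (Pr_union_le π _ _).trans (add_le_add (P.Pr_lo_eq hr _) ?_)
    have := Pr_cond_le π ((P.locF_lo a).prod (P.locF_lo (P.nb a u)))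
      {c | c.1 < P.t ∧ c.2 < P.t} (A := fun c => {ω : Om d | P.LK (op (lay1 ω)) a u c.1 c.2}ᶜ)
      (S := fun _ => (⋃ j ∈ Finset.range P.t, P.SpS a j) ∪ ⋃ j ∈ Finset.range P.t, P.SpS (P.nb a u) j)
      (T := fun c => EIn (P.lreg a u c.1 c.2) ×ˢ {false}) (κ := δ)
      (fun c _ => ((P.dep_LK a u _ _).loc ((EIn_finite (linkReg_finite _ _ _ _ _ _ _)).prod
        (Set.finite_singleton _))).compl)
      (fun c _ ω ω' hω h => by
        have h1 : P.lo (P.Spec ω) a = P.lo (P.Spec ω') a :=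
          P.dependsOn_lo a fun x hx => hω x (Or.inl hx)
        have h2 : P.lo (P.Spec ω) (P.nb a u) = P.lo (P.Spec ω') (P.nb a u) :=
          P.dependsOn_lo _ fun x hx => hω x (Or.inr hx)
        rw [Set.mem_ofPred_eq, ← h1, ← h2]
        exact h)
      (fun c _ => (P.dep_LK a u _ _).compl)
      (fun c _ => by
        have : ∀ b, Disjoint (⋃ j ∈ Finset.range P.t, P.SpS b j)
            (EIn (P.lreg a u c.1 c.2) ×ˢ {false}) := fun b => by
          rw [Set.disjoint_iUnion₂_left]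
          intro j hj
          rw [Set.disjoint_left]
          rintro ⟨e, b'⟩ (⟨-, h1⟩ | ⟨h1, -⟩) ⟨h2, h3⟩
          · exact Bool.noConfusion (h1.symm.trans h3 : true = false)
          · exact Set.disjoint_left.1
              (EIn_ETo_disjoint (P.lreg_disjoint a u c.1 c.2 b (Finset.mem_range.1 hj))) h2 h1
        exact Set.disjoint_union_left.2 ⟨this _, this _⟩)
      (fun c hc => by
        have := Pr_comp_inj π (φ := fun e => (e, false)) (fun _ _ h => (Prod.ext_iff.1 h).1)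
          (A := {ω | ¬ P.LK (op ω) a u c.1 c.2})
          ((dep_Link _ _ _ _ _ _ _ _).loc (EIn_finite (linkReg_finite _ _ _ _ _ _ _))).compl
        simp only [hπ] at this
        exact this.le.trans (hδ a u _ _ hu' hc.1 hc.2))
    refine le_trans (Pr_mono fun ω h => ?_)
      (this.trans (mul_le_of_le_one_right hδ0 (Pr_le_one π _)))
    exact ⟨⟨h.1, h.2.1⟩, h.2.2⟩
  refine (Pr_union_le π _ _).trans ((add_le_add (P.Pr_lo_eq hr a)
    ((Pr_exists_le π _ _).trans (Finset.sum_le_card_nsmul _ _ _ key))).trans ?_)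
  rw [show (Finset.Icc (-1 : ℤ) 1).card = 3 by simp, nsmul_eq_mul]
  push_cast
  linarith

theorem Pr_forall_Bad_le {π : Sym2 (V d) × Bool → unitInterval} {η : ℝ} (h0 : 0 ≤ η) (h1 : η ≤ 1)
    (h : ∀ a, Pr π {ω | P.Bad ω a} ≤ η ^ 11 ^ d) (T : Finset (V d)) :
    Pr π {ω | ∀ a ∈ T, P.Bad ω a} ≤ η ^ T.card := by
  obtain ⟨-, T', h2, h3, -, h4⟩ := exists_sep_subset T (fun _ => ()) 11 (by norm_num)
  refine le_trans (Pr_mono (B := {ω | ∀ a ∈ T', ω ∈ {ω | P.Bad ω a}})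
    fun ω hω a ha => hω a (h2 ha)) ?_
  rw [Pr_forall_indep π T' (fun a _ => P.loc_Bad a) (fun a _ => P.dep_Bad a) fun a ha a' ha' hne => ?_]
  · refine (Finset.prod_le_prod (fun a _ => Pr_nonneg π _) fun a _ => h a).trans ?_
    rw [Finset.prod_const, ← pow_mul]
    exact pow_le_pow_of_le_one h0 h1 (by simpa using h3)
  · obtain ⟨i, hi⟩ := h4 a ha a' ha' hne
    refine Set.disjoint_prod.2 (Or.inl (EIn_disjoint (box_disjoint i ?_)))
    obtain ⟨f1, f2, f3, f4, f5⟩ := P.facts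
    have := P.s_mul_sub hi
    by_cases hk : i = P.k
    · subst hk
      rw [pos_k, pos_k, ← mul_sub, abs_mul, show |(3 : ℤ)| = 3 from rfl]
      omega
    · rw [P.pos_ne _ hk, P.pos_ne _ hk]
      omega

theorem lo_lt_of_not_Bad {ω : Om d} {a : V d} (h : ¬ P.Bad ω a) : P.lo (P.Spec ω) a < P.t :=
  (P.spec_lo fun h' => h (Or.inl h')).1

theorem wk_of_not_Bad {ω : Om d} {a : V d} (h : ¬ P.Bad ω a) {u : ℤ} (hu : |u| ≤ 1) :
    P.lo (P.Spec ω) (P.nb a u) < P.t ∧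
      Wk (op (orMap ω)) (box (P.pos a) (5 * P.s)) ((d + 4 * P.ρ) * P.s)
        (P.vp a (P.lo (P.Spec ω) a)) (P.vp (P.nb a u) (P.lo (P.Spec ω) (P.nb a u))) := by
  have hu' := Finset.mem_Icc.2 (abs_le.1 hu)
  have s1 := P.spec_lo fun h' => h (Or.inl h')
  have s2 := P.spec_lo fun h' => h (Or.inr ⟨u, hu', Or.inl h'⟩)
  have h3 : P.LK (op (lay1 ω)) a u _ _ :=
    by_contra fun h' => h (Or.inr ⟨u, hu', Or.inr ⟨s1.1, s2.1, h'⟩⟩)
  refine ⟨s2.1, ?_⟩
  obtain ⟨y, hy, y', hy', h4⟩ := h3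
  rw [P.pt_end a u s1.1] at hy'
  have key : ∀ b j, (∀ i, |b i - a i| ≤ 1) → P.Spec ω b j → ∀ y ∈ box (P.cand b j) (2 * P.L),
      Wk (op (orMap ω)) (box (P.pos a) (5 * P.s)) (2 * d * (5 * P.L)) (P.vp b j) y :=
    fun b j hb hs y hy => (wk_of_open_box' (fun x x' hx hx' _ => orMap_eq_true.2
      ⟨true, hs.2.1 _ (mk_mem_EIn.2 ⟨hx, hx'⟩)⟩) (P.vp_mem_box b j)
      (box_mono _ (by omega) hy)).mono_set ((P.box_subset_Terr b j).trans (P.Terr_subset_box hb hs.1))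
  refine (((key a _ (by simp) s1 y hy).trans (h4.mono (P.lreg_subset_box a hu s1.1 s2.1)
    fun x x' _ _ _ h5 => orMap_eq_true.2 ⟨false, h5⟩)).trans
    (key _ _ (P.nb_near a hu) s2 y' hy').symm).mono_len ?_
  have h5 := Nat.mul_le_mul_left P.ρ (P.KK_le (P.lo (P.Spec ω) a) s2.1)
  have h6 : P.L ≤ P.t * P.L := Nat.le_mul_of_pos_left _ (by have := P.ht; omega)
  have h7 : P.t ≤ P.t * P.L := Nat.le_mul_of_pos_right _ P.hL
  have h8 := Nat.mul_le_mul_left d h6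
  have h9 := Nat.mul_le_mul_left P.ρ h7
  unfold s
  nlinarith

end Par

end Pool.Agent.P.MP_d74cc6_pr
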