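import Pool.Agent.P.MP_d74cc6_pr.Rank3

/-! Closed cells are unlikely when the transfer rank is small. -/

namespace Pool.Agent.P.MP_d74cc6_pr

variable {d : ℕ}

namespace Par

variable (P : Par d)

/-- the special point of a cell -/
noncomputable def sv (ω : Om d) (a : V d) : V d := P.vp a (P.lo (P.Spec ω) a)

/-- the partners of a cell: its three forward neighbours and itself -/
def par (a : V d) (i : Fin 4) : V d := if i = 3 then a else P.nb a ((i : ℤ) - 1)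

/-- closed cells -/
def Closed (Λ I R : Finset (V d)) (x₀ : ℝ) (ω : Om d) (a : V d) : Prop :=
  P.Bad ω a ∨ ∃ i, dead Λ I R (op (orMap ω)) x₀ (P.sv ω (P.par a i)) ∧
    (¬ dead Λ I R (op (orMap ω)) x₀ (P.sv ω a) ∨ P.sv ω a ∈ I)

theorem seg_mem_ETo (v : V d) {i : ℕ} (hi : i < P.M) : seg P.l v i ∈ ETo (zoneSet P.l P.M v) :=
  mk_mem_ETo.2 ⟨zv_adj _ _ _, Or.inl ⟨i + 1, by omega, hi, rfl⟩⟩

theorem zv_eq {a a' : V d} {j j' : ℕ} (hj : j < P.t) (hj' : j' < P.t) {n n' : ℕ} (hn : n ≤ P.M)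
    (hn' : n' ≤ P.M) (h : zv P.l (P.vp a j) n = zv P.l (P.vp a' j') n') : (a, j) = (a', j') :=
  by_contra fun hne => Set.disjoint_left.1 (P.Terr_disjoint hj hj' hne) (P.zv_mem_Terr a j hn)
    (h ▸ P.zv_mem_Terr a' j' hn')

theorem spec_inv {Q : Finset (V d)} (hQ : ∀ v ∈ Q, ∃ a, ∃ j < P.t, v = P.vp a j) {ω ω' : Om d}
    (h1 : ∀ v ∈ Q, ZS P.l P.M ω v) (h2 : ∀ v ∈ Q, ZS P.l P.M ω' v)
    (h : ∀ x, x ∉ segJ P.l P.M Q → ω' x = ω x) : P.Spec ω' = P.Spec ω := by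
  funext a j
  refine propext (and_congr_right fun hj => and_congr (forall₂_congr fun e he => ?_) ?_)
  · rw [h]
    rw [mem_segJ]
    rintro ⟨v, hv, i, hi, h3⟩
    obtain ⟨a', j', hj', rfl⟩ := hQ v hv
    obtain rfl : e = _ := (Prod.ext_iff.1 h3).1
    have h4 := (mk_mem_EIn.1 he).1
    by_cases h5 : (a, j) = (a', j')
    · obtain ⟨rfl, rfl⟩ := Prod.ext_iff.1 h5
      exact P.zv_notMem_box a j (by omega) h4
    · exact Set.disjoint_left.1 (P.Terr_disjoint hj hj' h5) (P.box_subset_Terr a j h4)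
        (P.zv_mem_Terr a' j' hi)
  · by_cases hv : P.vp a j ∈ Q
    · exact iff_of_true (h2 _ hv) (h1 _ hv)
    refine (dep_ZS _ _ _).iff fun x hx => h x ?_
    rw [mem_segJ]
    rintro ⟨v, hv', i, hi, rfl⟩
    obtain ⟨a', j', hj', rfl⟩ := hQ v hv'
    have h5 : (a, j) ≠ (a', j') := fun h5 => by
      obtain ⟨rfl, rfl⟩ := Prod.ext_iff.1 h5
      exact hv hv'
    exact Set.disjoint_left.1 (EIn_disjoint (P.Terr_disjoint hj hj' h5))
      (P.ETo_subset_Terr a j hx.1) (P.ETo_subset_Terr a' j' (P.seg_mem_ETo _ hi))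

theorem not_dvd_zv (a : V d) (j : ℕ) {n : ℕ} (n1 : 1 ≤ n) (nM : n ≤ P.M) :
    ¬ (P.s : ℤ) ∣ zv P.l (P.vp a j) n P.l + 5 * P.L := by
  obtain ⟨f1, f2, f3, f4, f5⟩ := P.facts
  rw [zv_apply_self, vp_l, show (P.s : ℤ) * a P.l - 5 * P.L - n + 5 * P.L = P.s * a P.l - n by ring,
    Int.dvd_iff_dvd_of_dvd_sub (a := P.s) (b := P.s * a P.l - n) (c := -n) (by simp), Int.dvd_neg]
  intro h
  have := Int.le_of_dvd (by omega) h
  omega

theorem dvd_vp (a : V d) (j : ℕ) : (P.s : ℤ) ∣ P.vp a j P.l + 5 * P.L := by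
  rw [vp_l, sub_add_cancel]; exact dvd_mul_right _ _

theorem pattern_cells {π : Sym2 (V d) × Bool → unitInterval} {ε : unitInterval}
    (hπ : ∀ e, π (e, true) = ε) {Λ I : Finset (V d)} {x₀ : ℝ} (hx : 2 < x₀)
    (hI : ∀ y ∈ I, (P.s : ℤ) ∣ y P.l + 5 * P.L) (T₁ T' Q : Finset (V d)) (hQ : Q ⊆ T')
    (hΛ : ∀ a ∈ Q, box (P.pos a) (5 * P.s) ⊆ Λ) (f : V d → V d) :
    (P.M : ℝ) ^ Q.card * Pr π {ω | (∀ a ∈ T₁, P.Bad ω a) ∧ ∀ a ∈ Q, P.lo (P.Spec ω) a < P.t ∧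
      GP Λ I (T'.image fun a => P.sv ω (f a)) (Q.image (P.sv ω)) (op (orMap ω)) x₀ (P.sv ω a) ∧
      FP Λ I (T'.image fun a => P.sv ω (f a)) (op (orMap ω)) x₀ (P.sv ω a)} ≤
      Pr π {ω | ∀ a ∈ T₁, P.Bad ω a} := by
  classical
  set U := T' ∪ T'.image f with hU
  let X : Om d → U → ℕ := fun ω a => P.lo (P.Spec ω) a
  have hX : LocF X := ⟨⋃ a ∈ U, ⋃ j ∈ Finset.range P.t, P.SpS a j,
    U.finite_toSet.biUnion fun a _ => (Finset.finite_toSet _).biUnion fun j _ => P.SpS_finite a j,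
    fun ω ω' h => funext fun a => P.dependsOn_lo a fun x hx => h x (Set.mem_biUnion a.2 hx)⟩
  have lB : Loc {ω | ∀ a ∈ T₁, P.Bad ω a} :=
    Loc.forall_mem T₁ (A := fun a => {ω | P.Bad ω a}) fun a _ => P.loc_Bad a
  let ex : (U → ℕ) → V d → ℕ := fun c a => if h : a ∈ U then c ⟨a, h⟩ else 0
  rw [Pr_eq_sum_fiber π hX lB]
  refine le_trans (mul_le_mul_of_nonneg_left ((Pr_mono (B := ⋃ c ∈ hX.finite_range.toFinset,
    {_ω | ∀ a ∈ Q, ex c a < P.t} ∩ (({ω | X ω = c} ∩ {ω | ∀ a ∈ T₁, P.Bad ω a}) ∩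
      {ω | ∀ v ∈ Q.image fun a => P.vp a (ex c a), ZS P.l P.M ω v ∧
        GP Λ I (T'.image fun a => P.vp (f a) (ex c (f a))) (Q.image fun a => P.vp a (ex c a))
          (op (orMap ω)) x₀ v ∧
        FP Λ I (T'.image fun a => P.vp (f a) (ex c (f a))) (op (orMap ω)) x₀ v})) ?_).trans
    (Pr_biUnion_le π _ _)) (by positivity)) ?_
  · rintro ω ⟨h1, h2⟩
    have e : ∀ a ∈ U, ex (X ω) a = P.lo (P.Spec ω) a := fun a ha => dif_pos ha
    have e1 : ∀ a ∈ Q, ex (X ω) a = P.lo (P.Spec ω) a := fun a ha =>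
      e a (Finset.mem_union_left _ (hQ ha))
    have e2 : (T'.image fun a => P.vp (f a) (ex (X ω) (f a))) = T'.image fun a => P.sv ω (f a) :=
      Finset.image_congr fun a ha => by
        simp only [sv]
        rw [e _ (Finset.mem_union_right _ (Finset.mem_image_of_mem f ha))]
    have e3 : (Q.image fun a => P.vp a (ex (X ω) a)) = Q.image (P.sv ω) :=
      Finset.image_congr fun a ha => by simp only [sv]; rw [e1 a ha]
    refine Set.mem_biUnion (x := X ω) (by simp) ⟨fun a ha => e1 a ha ▸ (h2 a ha).1, ⟨rfl, h1⟩, ?_⟩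
    rw [e2, e3]
    intro v hv
    obtain ⟨a, ha, rfl⟩ := Finset.mem_image.1 hv
    exact ⟨(P.spec_lo (h2 a ha).1.ne).2.2, (h2 a ha).2⟩
  rw [Finset.mul_sum]
  refine Finset.sum_le_sum fun c _ => ?_
  by_cases hc : ∀ a ∈ Q, ex c a < P.t
  swap
  · rw [show {_ω : Om d | ∀ a ∈ Q, ex c a < P.t} = ∅ from Set.eq_empty_of_forall_notMem fun _ => hc]
    simpa using Pr_nonneg π _
  rw [show {_ω : Om d | ∀ a ∈ Q, ex c a < P.t} = Set.univ from Set.eq_univ_of_forall fun _ => hc,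
    Set.univ_inter, ← Finset.card_image_of_injOn (s := Q) (f := fun a => P.vp a (ex c a))
      fun a ha a' ha' h => (Prod.ext_iff.1 (P.zv_eq (hc a ha) (hc a' ha') (Nat.zero_le _)
        (Nat.zero_le _) (by simpa using h))).1]
  refine pattern_bound (fun v hv v' hv' i hi i' hi' h => ?_) hπ hx (fun v hv i hi => ?_)
    (fun v hv i i1 iM => ?_) ((hX.loc_eq c).inter lB) fun ω hω ω' h1 h2 h3 => ?_
  · obtain ⟨a, ha, rfl⟩ := Finset.mem_image.1 hv
    obtain ⟨a', ha', rfl⟩ := Finset.mem_image.1 hv'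
    obtain rfl : a = a' := (Prod.ext_iff.1 (P.zv_eq (hc a ha) (hc a' ha') hi hi' h)).1
    rfl
  · obtain ⟨a, ha, rfl⟩ := Finset.mem_image.1 hv
    exact hΛ a ha (P.Terr_subset_box (by simp) (hc a ha) (P.zv_mem_Terr a _ hi))
  · obtain ⟨a, ha, rfl⟩ := Finset.mem_image.1 hv
    refine ⟨fun h => P.not_dvd_zv a _ i1 iM (hI _ h), fun h => ?_⟩
    obtain ⟨b, -, hb⟩ := Finset.mem_image.1 h
    exact P.not_dvd_zv a _ i1 iM (hb ▸ P.dvd_vp _ _)
  · have e1 : P.Spec ω' = P.Spec ω := P.spec_inv (fun v hv => by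
      obtain ⟨a, ha, rfl⟩ := Finset.mem_image.1 hv
      exact ⟨a, _, hc a ha, rfl⟩) h1 h2 h3
    have e2 : lay1 ω' = lay1 ω := funext fun e => h3 _ (by simp [mem_segJ])
    refine ⟨?_, fun a ha => ?_⟩
    · rw [← hω.1]
      simp only [Set.mem_ofPred_eq, X, e1]
    · have := hω.2 a ha
      simp only [Bad] at this ⊢
      rwa [e1, e2]

theorem wk_par {ω : Om d} {a : V d} (h : ¬ P.Bad ω a) (i : Fin 4) :
    Wk (op (orMap ω)) (box (P.pos a) (5 * P.s)) ((d + 4 * P.ρ) * P.s) (P.sv ω a)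
      (P.sv ω (P.par a i)) := by
  unfold par
  split_ifs with hi
  · exact .nil _ (P.Terr_subset_box (by simp) (P.lo_lt_of_not_Bad h)
      (P.box_subset_Terr _ _ (P.vp_mem_box _ _)))
  · exact (P.wk_of_not_Bad h (by rw [abs_le]; omega)).2

theorem Pr_closed_le {π : Sym2 (V d) × Bool → unitInterval} {ε : unitInterval}
    (hπ : ∀ e, π (e, true) = ε) {Λ I R : Finset (V d)} {x₀ : ℝ} (hx : 2 < x₀)
    (hx' : 2 * d + (2 * d) ^ ((d + 4 * P.ρ) * P.s + 1) < x₀)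
    (hI : ∀ y ∈ I, (P.s : ℤ) ∣ y P.l + 5 * P.L) {η : ℝ} (h0 : 0 ≤ η) (h1 : η ≤ 1)
    (hB : ∀ T : Finset (V d), Pr π {ω | ∀ a ∈ T, P.Bad ω a} ≤ η ^ T.card)
    (hM : 1 ≤ P.M * η ^ (4 * (d + 4 * P.ρ + 11) ^ d)) (r₀ : ℕ) (T : Finset (V d))
    (hΛ : ∀ a ∈ T, box (P.pos a) (5 * P.s) ⊆ Λ) :
    Pr π {ω | (∀ a ∈ T, P.Closed Λ I R x₀ ω a) ∧ rk Λ I R (op (orMap ω)) x₀ ≤ r₀} ≤
      4 * P.M ^ r₀ * (8 * η) ^ T.card := by
  classical
  set C := 4 * (d + 4 * P.ρ + 11) ^ d with hC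
  let Ix := ((Finset.univ : Finset (Fin 4)) ×ˢ T.powerset ×ˢ T.powerset ×ˢ T.powerset).filter
    fun x => T.card ≤ x.2.1.card + C * x.2.2.1.card ∧ x.2.2.1.card ≤ x.2.2.2.card + r₀ ∧
      x.2.2.2 ⊆ x.2.2.1
  refine le_trans (Pr_mono (B := ⋃ x ∈ Ix, {ω | (∀ a ∈ x.2.1, P.Bad ω a) ∧ ∀ a ∈ x.2.2.2,
      P.lo (P.Spec ω) a < P.t ∧
      GP Λ I (x.2.2.1.image fun a => P.sv ω (P.par a x.1)) (x.2.2.2.image (P.sv ω))
        (op (orMap ω)) x₀ (P.sv ω a) ∧
      FP Λ I (x.2.2.1.image fun a => P.sv ω (P.par a x.1)) (op (orMap ω)) x₀ (P.sv ω a)}) ?_)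
    ((Pr_biUnion_le π _ _).trans ((Finset.sum_le_card_nsmul _ _ (P.M ^ r₀ * η ^ T.card)
      fun x hx => ?_).trans ?_))
  · rintro ω ⟨h2, h3⟩
    have : ∀ a, ∃ i, a ∈ T → ¬ P.Bad ω a → dead Λ I R (op (orMap ω)) x₀ (P.sv ω (P.par a i)) ∧
        (¬ dead Λ I R (op (orMap ω)) x₀ (P.sv ω a) ∨ P.sv ω a ∈ I) := fun a => by
      by_cases ha : a ∈ T
      · rcases h2 a ha with h | ⟨i, h⟩
        · exact ⟨0, fun _ h' => absurd h h'⟩
        · exact ⟨i, fun _ _ => h⟩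
      · exact ⟨0, fun h => absurd h ha⟩
    choose o ho using this
    obtain ⟨i, T', h4, h5, h6, h7⟩ := exists_sep_subset (T.filter fun a => ¬ P.Bad ω a) o
      (d + 4 * P.ρ + 11) (by omega)
    have hT : ∀ a ∈ T', a ∈ T := fun a ha => (Finset.mem_filter.1 (h4 ha)).1
    have hb : ∀ a ∈ T', ¬ P.Bad ω a := fun a ha => (Finset.mem_filter.1 (h4 ha)).2
    have hd : ∀ a ∈ T', dead Λ I R (op (orMap ω)) x₀ (P.sv ω (P.par a i)) := fun a ha =>
      h6 a ha ▸ (ho a (hT a ha) (hb a ha)).1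
    obtain ⟨Q, h8, h9, h10⟩ := exists_GP (Λ := Λ) (I := I) (R := R) (O := op (orMap ω)) hx' T'
      (P.sv ω) (fun a => P.sv ω (P.par a i))
      (fun a ha => (P.wk_par (hb a ha) i).mono_set (hΛ a (hT a ha)))
      (fun a ha a' ha' hne => by
        obtain ⟨n, hn⟩ := h7 a ha a' ha' hne
        have g1 := mem_box.1 (P.wk_par (hb a ha) i).mem_left n
        have g2 := mem_box.1 (P.wk_par (hb a' ha') i).mem_right n
        have g3 := P.s_mul_sub hn
        obtain ⟨f1, f2, f3, f4, f5⟩ := P.facts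
        refine ⟨n, ?_⟩
        have g4 : (P.s : ℤ) * (d + 4 * P.ρ + 11 : ℕ) = ((d + 4 * P.ρ) * P.s : ℕ) + 11 * P.s := by
          push_cast; ring
        rw [g4, le_abs'] at g3
        rw [abs_le] at g1 g2
        rw [lt_abs]
        generalize (((d + 4 * P.ρ) * P.s : ℕ) : ℤ) = D at g3 ⊢
        by_cases hk : n = P.k
        · subst hk
          rw [pos_k] at g1 g2
          omega
        · rw [P.pos_ne _ hk] at g1 g2
          omega) hd
    refine Set.mem_biUnion (x := (i, T.filter (P.Bad ω), T', Q)) (Finset.mem_coe.2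
      (Finset.mem_filter.2 ⟨?_, ?_, by simp only []; omega, h8⟩))
      ⟨fun a ha => (Finset.mem_filter.1 ha).2, fun a ha => ?_⟩
    · simp only [Finset.mem_product, Finset.mem_univ, Finset.mem_powerset, true_and]
      exact ⟨Finset.filter_subset _ _, hT, h8.trans hT⟩
    · have := Finset.card_filter_add_card_filter_not (s := T) (P.Bad ω)
      rw [Fintype.card_fin, ← hC] at h5
      simp only []
      omega
    · refine ⟨P.lo_lt_of_not_Bad (hb a (h8 ha)), h10 a ha, FP_of_alive (R := R) ?_ ?_ fun w hw => ?_⟩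
      · have : (0 : ℝ) ≤ (2 * d) ^ ((d + 4 * P.ρ) * P.s + 1) := by positivity
        linarith
      · refine (ho a (hT a (h8 ha)) (hb a (h8 ha))).2.resolve_right fun h => ?_
        obtain ⟨g, -, g1, g2, -⟩ := h10 a ha
        exact zero_ne_one ((g1 _ h).symm.trans g2)
      · obtain ⟨b, hb, rfl⟩ := Finset.mem_image.1 hw
        exact hd b hb
  · obtain ⟨h2, h3, h4, h5⟩ := Finset.mem_filter.1 hx
    simp only [Finset.mem_product, Finset.mem_univ, Finset.mem_powerset, true_and] at h2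
    have h6 := (P.pattern_cells hπ ‹2 < x₀› hI x.2.1 x.2.2.1 x.2.2.2 h5
      (fun a ha => hΛ a (h2.2.2 ha)) fun a => P.par a x.1).trans (hB _)
    have M1 : (1 : ℝ) ≤ P.M := by exact_mod_cast P.hM
    refine le_of_mul_le_mul_left (h6.trans ?_) (a := (P.M : ℝ) ^ x.2.2.2.card) (by positivity)
    calc η ^ x.2.1.card ≤ (P.M * η ^ C) ^ x.2.2.1.card * η ^ x.2.1.card :=
          le_mul_of_one_le_left (by positivity) (one_le_pow₀ hM)
      _ = P.M ^ x.2.2.1.card * η ^ (x.2.1.card + C * x.2.2.1.card) := by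
          rw [mul_pow, ← pow_mul, pow_add]; ring
      _ ≤ P.M ^ (x.2.2.2.card + r₀) * η ^ T.card :=
          mul_le_mul (pow_le_pow_right₀ M1 h4) (pow_le_pow_of_le_one h0 h1 h3) (by positivity)
            (by positivity)
      _ = _ := by rw [pow_add]; ring
  · have : Ix.card ≤ 4 * 8 ^ T.card := by
      refine (Finset.card_filter_le _ _).trans (le_of_eq ?_)
      simp only [Finset.card_product, Finset.card_univ, Fintype.card_fin, Finset.card_powerset]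
      rw [← mul_pow, ← mul_pow]
      norm_num
    rw [nsmul_eq_mul, mul_pow]
    refine (mul_le_mul_of_nonneg_right (Nat.cast_le.2 this) (by positivity)).trans (le_of_eq ?_)
    push_cast; ring

end Par

end Pool.Agent.P.MP_d74cc6_pr
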