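import Mathlib

/-! Linear algebra for the spectral estimate. -/

open Matrix

namespace Pool.Agent.P.MP_d74cc6_pr

variable {n m : Type*} [Fintype n] [Fintype m] [DecidableEq n]

omit [DecidableEq n] in
theorem sp_dot_nonneg (f : n → ℝ) : 0 ≤ f ⬝ᵥ f :=
  Finset.sum_nonneg fun i _ => mul_self_nonneg (f i)

omit [DecidableEq n] in
theorem sp_dot_tr (J : Matrix m n ℝ) (X : Matrix m m ℝ) (u : n → ℝ) :
    u ⬝ᵥ (Jᵀ * X * J) *ᵥ u = (J *ᵥ u) ⬝ᵥ X *ᵥ (J *ᵥ u) := by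
  rw [← mulVec_mulVec, ← mulVec_mulVec, dotProduct_mulVec, vecMul_transpose]

omit [DecidableEq n] in
/-- Schur test -/
theorem sp_schur {T : Matrix n n ℝ} (hT : T.IsSymm) {K : ℝ} (hK : ∀ x, ∑ y, |T x y| ≤ K)
    (f : n → ℝ) : (T *ᵥ f) ⬝ᵥ (T *ᵥ f) ≤ K ^ 2 * (f ⬝ᵥ f) := by
  rcases isEmpty_or_nonempty n with h | ⟨⟨x₀⟩⟩
  · simp [dotProduct]
  have hK0 : 0 ≤ K := (Finset.sum_nonneg fun y _ => abs_nonneg _).trans (hK x₀)
  have h1 : ∀ x, (T *ᵥ f) x * (T *ᵥ f) x ≤ K * ∑ y, |T x y| * (f y * f y) := fun x => by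
    have := Finset.sum_sq_le_sum_mul_sum_of_sq_le_mul Finset.univ (r := fun y => T x y * f y)
      (f := fun y => |T x y|) (g := fun y => |T x y| * (f y * f y)) (fun y _ => abs_nonneg _)
      (fun y _ => mul_nonneg (abs_nonneg _) (mul_self_nonneg _))
      (fun y _ => le_of_eq (by rw [← mul_assoc, abs_mul_abs_self]; ring))
    rw [← sq]
    refine this.trans (mul_le_mul_of_nonneg_right (hK x) ?_)
    exact Finset.sum_nonneg fun y _ => mul_nonneg (abs_nonneg _) (mul_self_nonneg _)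
  refine (Finset.sum_le_sum fun x _ => h1 x).trans ?_
  rw [← Finset.mul_sum, Finset.sum_comm, sq, mul_assoc]
  refine mul_le_mul_of_nonneg_left ?_ hK0
  rw [dotProduct, Finset.mul_sum]
  refine Finset.sum_le_sum fun y _ => ?_
  rw [← Finset.sum_mul]
  refine mul_le_mul_of_nonneg_right ?_ (mul_self_nonneg _)
  refine le_trans (le_of_eq (Finset.sum_congr rfl fun x _ => ?_)) (hK y)
  rw [hT.apply]

/-- decay of the powers of `1 - T ^ 2 / c` on the range of `T` -/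
theorem sp_pow {T : Matrix n n ℝ} (hT : T.IsSymm) {c : ℝ} (hc : 0 < c)
    (h : ∀ f, (T *ᵥ f) ⬝ᵥ (T *ᵥ f) ≤ c * (f ⬝ᵥ f)) (k : ℕ) :
    (∀ f, f ⬝ᵥ ((1 - c⁻¹ • (T * T)) ^ k) *ᵥ f ≤ f ⬝ᵥ f) ∧
      ∀ f, (T *ᵥ f) ⬝ᵥ ((1 - c⁻¹ • (T * T)) ^ k) *ᵥ (T *ᵥ f) ≤ c / (k + 1) * (f ⬝ᵥ f) := by
  set B : Matrix n n ℝ := 1 - c⁻¹ • (T * T) with hB
  have hTT : Tᵀ = T := hT
  have hcomm : Commute T B :=
    (Commute.one_right T).sub_right (((Commute.refl T).mul_right (Commute.refl T)).smul_right _)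
  have hpsd : B.PosSemidef := by
    refine PosSemidef.of_dotProduct_mulVec_nonneg ?_ fun f => ?_
    · simp [IsHermitian, hB, conjTranspose_eq_transpose_of_trivial, transpose_mul, hTT]
    · have h1 := sp_dot_tr T 1 f
      rw [hTT, mul_one, one_mulVec] at h1
      rw [hB, star_trivial, sub_mulVec, one_mulVec, smul_mulVec, dotProduct_sub, dotProduct_smul,
        h1, smul_eq_mul, sub_nonneg, inv_mul_le_iff₀ hc]
      exact h f
  have q0 : ∀ j f, 0 ≤ f ⬝ᵥ (B ^ j) *ᵥ f := fun j f => by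
    simpa using (hpsd.pow j).dotProduct_mulVec_nonneg f
  have q1 : ∀ j f, f ⬝ᵥ (B ^ (j + 1)) *ᵥ f =
      f ⬝ᵥ (B ^ j) *ᵥ f - c⁻¹ * ((T *ᵥ f) ⬝ᵥ (B ^ j) *ᵥ (T *ᵥ f)) := fun j f => by
    have : B ^ (j + 1) = B ^ j - c⁻¹ • (Tᵀ * B ^ j * T) := by
      rw [hTT, (hcomm.pow_right j).eq, pow_succ]
      conv_lhs => rw [show B ^ j * B = B ^ j * (1 - c⁻¹ • (T * T)) from rfl]
      rw [mul_sub, mul_one, mul_smul_comm, mul_assoc]
    rw [this, sub_mulVec, dotProduct_sub, smul_mulVec, dotProduct_smul, sp_dot_tr, smul_eq_mul]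
  have q2 : ∀ f, Antitone fun j => f ⬝ᵥ (B ^ j) *ᵥ f := fun f =>
    antitone_nat_of_succ_le fun j => by
      simp only [q1]
      exact sub_le_self _ (mul_nonneg (inv_nonneg.2 hc.le) (q0 _ _))
  refine ⟨fun f => by simpa using q2 f (Nat.zero_le k), fun f => ?_⟩
  have q3 : ∀ j : ℕ, j ≤ k + 1 → f ⬝ᵥ (B ^ j) *ᵥ f +
      j * (c⁻¹ * ((T *ᵥ f) ⬝ᵥ (B ^ k) *ᵥ (T *ᵥ f))) ≤ f ⬝ᵥ f := fun j => by
    induction j with
    | zero => simp
    | succ j ih =>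
      intro hj
      have h1 := ih (by omega)
      have h2 := mul_le_mul_of_nonneg_left (q2 (T *ᵥ f) (show j ≤ k by omega))
        (inv_nonneg.2 hc.le)
      rw [q1]
      push_cast
      simp only at h2
      linarith
  have h1 := q3 (k + 1) le_rfl
  have h2 := q0 (k + 1) f
  have hk : (0 : ℝ) < k + 1 := by positivity
  push_cast at h1
  rw [div_mul_eq_mul_div, le_div_iff₀ hk, ← inv_mul_le_iff₀ hc]
  linarith

/-- trace bound through the kernel of `Lᵀ` -/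
theorem sp_trace (L : Matrix n n ℝ) : ∃ C : ℝ, ∀ (M : Matrix n n ℝ) (a : ℝ), 0 ≤ a →
    (∀ u, u ⬝ᵥ M *ᵥ u ≤ u ⬝ᵥ u) → (∀ h, (L *ᵥ h) ⬝ᵥ M *ᵥ (L *ᵥ h) ≤ a * (h ⬝ᵥ h)) →
    M.trace ≤ Module.finrank ℝ (LinearMap.ker Lᵀ.mulVecLin) + a * C := by
  have hN : (L * Lᵀ).IsHermitian := by
    simp [IsHermitian, conjTranspose_eq_transpose_of_trivial, transpose_mul]
  set b : n → n → ℝ := fun i => (hN.eigenvectorBasis i : n → ℝ) with hb
  set e := hN.eigenvalues with he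
  set U : Matrix n n ℝ := (hN.eigenvectorUnitary : Matrix n n ℝ) with hU
  have hU1 : U * Uᵀ = 1 := by
    have := hN.eigenvectorUnitary.2.2
    rwa [star_eq_conjTranspose, conjTranspose_eq_transpose_of_trivial] at this
  have hU2 : Uᵀ * U = 1 := by
    have := hN.eigenvectorUnitary.2.1
    rwa [star_eq_conjTranspose, conjTranspose_eq_transpose_of_trivial] at this
  have hUb : ∀ (X : Matrix n n ℝ) i, (Uᵀ * X * U) i i = b i ⬝ᵥ X *ᵥ b i := fun X i => by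
    rw [mul_assoc]
    simp only [mul_apply, transpose_apply, dotProduct, mulVec, hU, hb,
      IsHermitian.eigenvectorUnitary_apply]
  refine ⟨∑ i, ((e i)⁻¹ • Lᵀ *ᵥ b i) ⬝ᵥ ((e i)⁻¹ • Lᵀ *ᵥ b i), fun M a ha h1 h2 => ?_⟩
  have t1 : M.trace = ∑ i, b i ⬝ᵥ M *ᵥ b i := by
    rw [← Finset.sum_congr rfl fun i _ => hUb M i]
    change _ = (Uᵀ * M * U).trace
    rw [trace_mul_cycle, hU1, one_mul]
  have t2 : ∀ i, b i ⬝ᵥ M *ᵥ b i ≤ (if e i = 0 then 1 else 0) +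
      a * (((e i)⁻¹ • Lᵀ *ᵥ b i) ⬝ᵥ ((e i)⁻¹ • Lᵀ *ᵥ b i)) := fun i => by
    split_ifs with h
    · have := hUb 1 i
      rw [mul_one, hU2, one_mulVec, one_apply_eq] at this
      have h3 := h1 (b i)
      have h4 := mul_nonneg ha (sp_dot_nonneg ((e i)⁻¹ • Lᵀ *ᵥ b i))
      linarith
    · have h3 := h2 ((e i)⁻¹ • Lᵀ *ᵥ b i)
      have h4 : L *ᵥ ((e i)⁻¹ • Lᵀ *ᵥ b i) = b i := by
        rw [mulVec_smul, mulVec_mulVec, hb]
        simp only
        rw [hN.mulVec_eigenvectorBasis, smul_smul, ← he, inv_mul_cancel₀ h, one_smul]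
      rw [h4] at h3
      linarith
  have t3 : (∑ i, if e i = 0 then (1 : ℝ) else 0) =
      Module.finrank ℝ (LinearMap.ker Lᵀ.mulVecLin) := by
    have r1 := hN.rank_eq_card_non_zero_eigs
    rw [rank_self_mul_transpose, ← rank_transpose, Fintype.card_subtype_compl] at r1
    have r2 := LinearMap.finrank_range_add_finrank_ker Lᵀ.mulVecLin
    rw [Module.finrank_fintype_fun_eq_card] at r2
    have r3 : Fintype.card {i // hN.eigenvalues i = 0} ≤ Fintype.card n :=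
      Fintype.card_subtype_le _
    have r4 : Module.finrank ℝ (LinearMap.ker Lᵀ.mulVecLin) =
        Fintype.card {i // hN.eigenvalues i = 0} := by
      unfold Matrix.rank at r1
      omega
    rw [r4, Fintype.card_subtype]
    simp [he]
  rw [t1, ← t3, Finset.mul_sum, ← Finset.sum_add_distrib]
  exact Finset.sum_le_sum fun i _ => t2 i

end Pool.Agent.P.MP_d74cc6_pr
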