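import Pool.Agent.P.MP_d74cc6_pr.Op
import Pool.Agent.P.MP_d74cc6_pr.Spectral1

/-! Walk counts, translation invariance and the deterministic trace bound. -/

open Matrix MeasureTheory

namespace Pool.Agent.P.MP_d74cc6_pr

variable {d : ℕ}

/-- number of open walks -/
noncomputable def sp_N (O : Sym2 (V d) → Prop) (k : ℕ) (x y : V d) : ℝ :=
  (Nat.card {w : (OG O).Walk x y // w.length = k} : ℝ)

@[reducible] noncomputable def sp_lf (O : Sym2 (V d) → Prop) : (OG O).LocallyFinite := fun x =>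
  ((nbr x).finite_toSet.subset fun _ hy => mem_nbr.2 hy.1).fintype

theorem sp_N_eq (O : Sym2 (V d) → Prop) (k : ℕ) (x y : V d) :
    sp_N O k x y = (letI := sp_lf O; ((OG O).finsetWalkLength k x y).card) := by
  let _ := sp_lf O
  rw [sp_N, ← SimpleGraph.card_set_walk_length_eq, ← Nat.card_eq_fintype_card]
  rfl

theorem sp_N_zero (O : Sym2 (V d) → Prop) (x y : V d) :
    sp_N O 0 x y = if x = y then 1 else 0 := by
  rw [sp_N_eq]
  obtain rfl | h := eq_or_ne x y <;> simp [SimpleGraph.finsetWalkLength, *]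

open Classical in
theorem sp_N_succ (O : Sym2 (V d) → Prop) (k : ℕ) (x y : V d) :
    sp_N O (k + 1) x y = ∑ z ∈ nbr x, if O s(x, z) then sp_N O k z y else 0 := by
  let _ := sp_lf O
  rw [sp_N_eq, SimpleGraph.finsetWalkLength, Finset.card_biUnion]
  · simp only [Finset.card_map, Nat.cast_sum, ← sp_N_eq]
    rw [← Finset.sum_filter]
    exact (Finset.sum_subtype _ (fun z => by
      rw [Finset.mem_filter, mem_nbr]; rfl) fun z => sp_N O k z y).symm
  · rintro ⟨a, ha⟩ - ⟨b, hb⟩ - hab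
    rw [Function.onFun, disjoint_iff_inf_le]
    intro p hp
    simp only [Finset.inf_eq_inter, Finset.mem_inter, Finset.mem_map] at hp
    obtain ⟨⟨pa, _, rfl⟩, ⟨pb, hpb, hp⟩⟩ := hp
    cases hp
    simp at hab

theorem sp_AM_pow (W : Finset (V d)) (O : Sym2 (V d) → Prop) (k : ℕ) (x y : W)
    (h : box x.1 k ⊆ W) : (AM W O ^ k) x y = sp_N O k x y := by
  classical
  induction k generalizing x with
  | zero => simp only [pow_zero, sp_N_zero, one_apply, Subtype.ext_iff (a1 := x)]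
  | succ k ih =>
    have hb : ∀ z, (lat d).Adj x z → box z k ⊆ W := fun z hz =>
      (box_subset fun i => by have := abs_sub_le_one_of_adj hz i; push_cast; omega).trans h
    rw [pow_succ', mul_apply, sp_N_succ]
    have h1 : ∀ z : W, AM W O x z * (AM W O ^ k) z y =
        if (OG O).Adj x z then sp_N O k z y else 0 := fun z => by
      unfold AM
      split_ifs with hz
      · rw [one_mul]; exact ih z (hb z hz.1)
      · rw [zero_mul]
    rw [Finset.sum_congr rfl fun z _ => h1 z,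
      Finset.sum_coe_sort W fun z => if (OG O).Adj x z then sp_N O k z y else 0,
      ← Finset.sum_filter, ← Finset.sum_filter]
    refine Finset.sum_congr ?_ fun _ _ => rfl
    ext z
    simp only [Finset.mem_filter, mem_nbr]
    exact ⟨fun h => h.2, fun h => ⟨hb z h.1 (self_mem_box _ _), h⟩⟩

theorem sp_N_shift (O : Sym2 (V d) → Prop) (a : V d) (k : ℕ) (x y : V d) :
    sp_N (fun e => O (e.map (· + a))) k x y = sp_N O k (x + a) (y + a) := by
  classical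
  induction k generalizing x with
  | zero => simp [sp_N_zero]
  | succ k ih =>
    rw [sp_N_succ, sp_N_succ]
    refine Finset.sum_equiv (Equiv.addRight a) (fun z => ?_) fun z _ => ?_
    · simp only [mem_nbr, lat_adj, Equiv.coe_addRight]
      refine exists_congr fun i => or_congr ?_ ?_
      · rw [add_right_comm, add_left_inj]
      · rw [add_sub_right_comm, add_left_inj]
    · simp only [Sym2.map_mk, Equiv.coe_addRight, ih]

theorem sp_locF_AM (W : Finset (V d)) : LocF fun ω : Sym2 (V d) → Bool => AM W (op ω) :=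
  ⟨_, EIn_finite W.finite_toSet, fun _ _ h => (agree_op h).AM_eq⟩

theorem sp_locF_N (k : ℕ) (x : V d) : LocF fun ω : Sym2 (V d) → Bool => sp_N (op ω) k x x := by
  have := (sp_locF_AM (box x k)).comp fun M =>
    (M ^ k) ⟨x, self_mem_box x k⟩ ⟨x, self_mem_box x k⟩
  simpa only [sp_AM_pow (box x k) _ k ⟨x, self_mem_box x k⟩ _ subset_rfl] using this

theorem sp_int_N (p : unitInterval) (k : ℕ) (x : V d) :
    ∫ ω, sp_N (op ω) k x x ∂PM (fun _ => p) = ∫ ω, sp_N (op ω) k (0 : V d) 0 ∂PM fun _ => p := by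
  have := integral_comp_inj (fun _ : Sym2 (V d) => p) (φ := Sym2.map (· + x))
    (Sym2.map.injective (add_left_injective x)) (sp_locF_N k (0 : V d))
  rw [← this]
  congr 1
  ext ω
  have := sp_N_shift (op ω) x k 0 0
  rw [zero_add] at this
  exact this.symm

/-- restriction or extension by zero -/
def sp_J (W Λ : Finset (V d)) : Matrix W Λ ℝ := fun w x => if w.1 = x.1 then 1 else 0

theorem sp_J_mulVec {W Λ : Finset (V d)} (g : Λ → ℝ) (w : W) :
    (sp_J W Λ *ᵥ g) w = if h : w.1 ∈ Λ then g ⟨w, h⟩ else 0 := by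
  simp only [mulVec, dotProduct, sp_J, ite_mul, one_mul, zero_mul]
  split_ifs with h
  · exact (Finset.sum_eq_single (⟨w.1, h⟩ : Λ)
      (fun b _ hb => if_neg fun (e : w.1 = b.1) => hb (Subtype.ext e.symm)) (by simp)).trans
      (if_pos rfl)
  · exact Finset.sum_eq_zero fun b _ => if_neg fun (e : w.1 = b.1) => h (e ▸ b.2)

theorem sp_mul_J {κ : Type*} {W Λ : Finset (V d)} (hΛ : Λ ⊆ W) (X : Matrix κ W ℝ) (i : κ)
    (x : Λ) : (X * sp_J W Λ) i x = X i ⟨x, hΛ x.2⟩ := by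
  simp only [mul_apply, sp_J, mul_ite, mul_one, mul_zero]
  exact (Finset.sum_eq_single (⟨x.1, hΛ x.2⟩ : W)
    (fun b _ hb => if_neg fun (e : b.1 = x.1) => hb (Subtype.ext e)) (by simp)).trans (if_pos rfl)

theorem sp_J_mul {κ : Type*} {W Λ : Finset (V d)} (hΛ : Λ ⊆ W) (X : Matrix W κ ℝ) (x : Λ)
    (i : κ) : ((sp_J W Λ)ᵀ * X) x i = X ⟨x, hΛ x.2⟩ i := by
  have := sp_mul_J hΛ Xᵀ i x
  rwa [← transpose_apply (Xᵀ * _), transpose_mul, transpose_transpose] at this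

theorem sp_J_dot {W Λ : Finset (V d)} (hΛ : Λ ⊆ W) (u : Λ → ℝ) :
    (sp_J W Λ *ᵥ u) ⬝ᵥ (sp_J W Λ *ᵥ u) = u ⬝ᵥ u := by
  have h1 : (sp_J W Λ)ᵀ * (1 : Matrix W W ℝ) * sp_J W Λ = 1 := by
    ext x y
    rw [sp_mul_J hΛ, sp_J_mul hΛ]
    simp only [one_apply, Subtype.mk.injEq, Subtype.ext_iff (a1 := x)]
  have := sp_dot_tr (sp_J W Λ) 1 u
  rw [h1, one_mulVec, one_mulVec] at this
  exact this.symm

/-- the shifted adjacency matrix -/
noncomputable def sp_T (W : Finset (V d)) (O : Sym2 (V d) → Prop) (lam : ℝ) : Matrix W W ℝ :=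
  AM W O - lam • 1

theorem sp_T_symm (W : Finset (V d)) (O : Sym2 (V d) → Prop) (lam : ℝ) : (sp_T W O lam).IsSymm :=
  (AM_symm W O).sub (isSymm_one.smul lam)

theorem sp_T_bound (W : Finset (V d)) (O : Sym2 (V d) → Prop) {lam : ℝ} (h : |lam| ≤ 2 * d)
    (f : W → ℝ) : (sp_T W O lam *ᵥ f) ⬝ᵥ (sp_T W O lam *ᵥ f) ≤ (4 * d + 1) ^ 2 * (f ⬝ᵥ f) := by
  refine sp_schur (sp_T_symm W O lam) (fun x => ?_) f
  have h1 : ∀ y, |sp_T W O lam x y| ≤ AM W O x y + if x = y then |lam| else 0 := fun y => by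
    refine (abs_sub _ _).trans (add_le_add (abs_of_nonneg (AM_nonneg W O x y)).le ?_)
    simp only [Matrix.smul_apply, one_apply, smul_eq_mul]
    split_ifs <;> simp
  refine (Finset.sum_le_sum fun y _ => h1 y).trans ?_
  rw [Finset.sum_add_distrib, Finset.sum_ite_eq, if_pos (Finset.mem_univ _)]
  have := sum_AM_le W O x
  linarith

/-- the indicator of the complement of `R` -/
def sp_D (Λ R : Finset (V d)) : Matrix Λ Λ ℝ := diagonal fun x => if x.1 ∈ R then 0 else 1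

theorem sp_TJD {W Λ R : Finset (V d)} (hΛ : Λ ⊆ W) (hR : ∀ x ∈ Λ, x ∉ R → nbr x ⊆ Λ)
    (O : Sym2 (V d) → Prop) (lam : ℝ) :
    sp_J W Λ * (sp_T Λ O lam * sp_D Λ R) = sp_T W O lam * (sp_J W Λ * sp_D Λ R) := by
  ext w x
  rw [← Matrix.mul_assoc, ← Matrix.mul_assoc, sp_D, mul_diagonal, mul_diagonal]
  split_ifs with hx
  · simp
  rw [mul_one, mul_one, sp_mul_J hΛ]
  have := sp_J_mulVec (W := W) (fun z => sp_T Λ O lam z x) w
  refine Eq.trans this ?_
  split_ifs with hw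
  · simp [sp_T, AM, one_apply, Subtype.ext_iff]
  · have h1 : ¬(OG O).Adj w x := fun h => hw (hR x x.2 hx (mem_nbr.2 h.1.symm))
    have h2 : w.1 ≠ x.1 := fun h => hw (h ▸ x.2)
    simp [sp_T, AM, one_apply, Subtype.ext_iff, h1, h2]

theorem sp_D_dot (Λ R : Finset (V d)) (h : Λ → ℝ) :
    (sp_D Λ R *ᵥ h) ⬝ᵥ (sp_D Λ R *ᵥ h) ≤ h ⬝ᵥ h :=
  Finset.sum_le_sum fun x _ => by
    simp only [sp_D, mulVec_diagonal]
    split_ifs
    · simpa using mul_self_nonneg (h x)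
    · simp

theorem sp_ker_le (Λ R : Finset (V d)) (O : Sym2 (V d) → Prop) (lam : ℝ) :
    Module.finrank ℝ (LinearMap.ker (sp_T Λ O lam * sp_D Λ R)ᵀ.mulVecLin) ≤
      Module.finrank ℝ (eigSp Λ R O lam) + 2 * R.card := by
  set K := LinearMap.ker (sp_T Λ O lam * sp_D Λ R)ᵀ.mulVecLin with hK
  set φ : (Λ → ℝ) →ₗ[ℝ] (R → ℝ) × (R → ℝ) :=
    (sp_J R Λ).mulVecLin.prod (sp_J R Λ * sp_T Λ O lam).mulVecLin with hφ
  have h1 := Submodule.finrank_sup_add_finrank_inf_eq K (LinearMap.ker φ)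
  have h2 := LinearMap.finrank_range_add_finrank_ker φ
  have h3 := Submodule.finrank_le (K ⊔ LinearMap.ker φ)
  have h4 := Submodule.finrank_le (LinearMap.range φ)
  rw [Module.finrank_prod, Module.finrank_fintype_fun_eq_card, Fintype.card_coe] at h4
  have h5 : K ⊓ LinearMap.ker φ ≤ eigSp Λ R O lam := by
    rintro g ⟨g1, g2⟩
    have a1 : sp_D Λ R *ᵥ (sp_T Λ O lam *ᵥ g) = 0 := by
      have : (sp_T Λ O lam * sp_D Λ R)ᵀ *ᵥ g = 0 := g1
      rwa [transpose_mul, sp_T_symm, sp_D, diagonal_transpose, ← mulVec_mulVec] at this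
    have a2 : sp_J R Λ *ᵥ g = 0 := congrArg Prod.fst g2
    have a3 : sp_J R Λ *ᵥ (sp_T Λ O lam *ᵥ g) = 0 := by
      rw [mulVec_mulVec]; exact congrArg Prod.snd g2
    have a4 : ∀ f : Λ → ℝ, sp_J R Λ *ᵥ f = 0 → ∀ x : Λ, x.1 ∈ R → f x = 0 := fun f hf x hx => by
      have := sp_J_mulVec (W := R) f ⟨x, hx⟩
      rw [hf, dif_pos x.2] at this
      exact this.symm
    refine ⟨?_, a4 g a2⟩
    have a5 : sp_T Λ O lam *ᵥ g = 0 := by
      ext x
      by_cases hx : x.1 ∈ R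
      · exact a4 _ a3 x hx
      · simpa [sp_D, mulVec_diagonal, hx] using congrFun a1 x
    rwa [sp_T, sub_mulVec, smul_mulVec, one_mulVec, sub_eq_zero] at a5
  have h6 := Submodule.finrank_mono h5
  omega

/-- the deterministic bound -/
theorem sp_det {W Λ R : Finset (V d)} (hΛ : Λ ⊆ W) (hR : ∀ x ∈ Λ, x ∉ R → nbr x ⊆ Λ)
    (O : Sym2 (V d) → Prop) {lam : ℝ} (h : |lam| ≤ 2 * d) (k : ℕ) :
    ∑ x : Λ, ((1 - ((4 * d + 1 : ℝ) ^ 2)⁻¹ • (sp_T W O lam * sp_T W O lam)) ^ k)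
        ⟨x, hΛ x.2⟩ ⟨x, hΛ x.2⟩ ≤ Module.finrank ℝ (eigSp Λ R O lam) + 2 * R.card +
      (4 * d + 1) ^ 2 / (k + 1) * (sp_trace (sp_T Λ O lam * sp_D Λ R)).choose := by
  obtain ⟨h1, h2⟩ := sp_pow (sp_T_symm W O lam) (by positivity) (sp_T_bound W O h) k
  set B := (1 - ((4 * d + 1 : ℝ) ^ 2)⁻¹ • (sp_T W O lam * sp_T W O lam)) ^ k
  have ha : (0 : ℝ) ≤ (4 * d + 1) ^ 2 / (k + 1) := by positivity
  have := (sp_trace (sp_T Λ O lam * sp_D Λ R)).choose_spec ((sp_J W Λ)ᵀ * B * sp_J W Λ) _ ha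
    (fun u => by rw [sp_dot_tr, ← sp_J_dot hΛ u]; exact h1 _) fun g => by
      rw [sp_dot_tr, mulVec_mulVec, sp_TJD hΛ hR, ← mulVec_mulVec, ← mulVec_mulVec]
      refine (h2 _).trans (mul_le_mul_of_nonneg_left ?_ ha)
      rw [sp_J_dot hΛ]
      exact sp_D_dot Λ R g
  have h3 : ((sp_J W Λ)ᵀ * B * sp_J W Λ).trace = ∑ x : Λ, B ⟨x, hΛ x.2⟩ ⟨x, hΛ x.2⟩ :=
    Finset.sum_congr rfl fun x _ => by rw [diag_apply, sp_mul_J hΛ, sp_J_mul hΛ]
  have h4 : (Module.finrank ℝ (LinearMap.ker (sp_T Λ O lam * sp_D Λ R)ᵀ.mulVecLin) : ℝ) ≤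
      Module.finrank ℝ (eigSp Λ R O lam) + 2 * R.card := by exact_mod_cast sp_ker_le Λ R O lam
  linarith

end Pool.Agent.P.MP_d74cc6_pr
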